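import Pool.Agent.Lib.VM.Main

/-!
# VM / Vmvt: Vinogradov's mean value theorem

PROOF. `s = tri k = k (k+1)/2`. Let `p ≥ p0` be prime (`dec_main` for `ε`), `B` with `p^(B-1) < N ≤ p^B` or `B = 0`, `N = 1`; so `p^(εB) ≤ p^ε N^ε`. `S = {1, ..., N}` is `Inc p B`. `W = tor k p M`, `M = k B`;
`f_n α = chi (ph n α)` for `α ∈ W`, `0` otherwise. `QI p n B f_n`: if `DD B (TT n β) = 0` then `p^M TT n β = 0` (`B(m+1) ≤ M`), so `p^M β = 0` (apply `TT (-n)`), and `ph n (α+β) = ph n α + ph n β`.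
`sq s f_n = |W|^(1/s)`, so the right side of `Dec` is `E N^s |W|`. Left side: `∑_{α ∈ W} ‖∑_n chi (ph n α)‖^(2s) = |W| · #{(x,y) : p^M ∣ ∑ x_i^j - ∑ y_i^j for 1 ≤ j ≤ k} ≥ |W| JJ s k N`
(expand `‖z‖^(2s) = z^s conj(z)^s`; `∑_{α ∈ W} chi (∑_j m_j α_j) = |W|` if `p^M ∣ m_j` for all `j`, otherwise `0`). Divide by `|W|`: `JJ ≤ E N^s ≤ C p^(εB) N^s`.
-/

set_option autoImplicit false

open Finset
open scoped ENNReal

namespace Pool.Agent.Lib.VM

private theorem vv_norm_chi (x : UnitAddCircle) : ‖chi x‖ = 1 := by simp [chi]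

private theorem vv_conj_chi (x : UnitAddCircle) : (starRingEnd ℂ) (chi x) = chi (-x) := by
  rw [chi, chi, AddCircle.toCircle_neg, Circle.coe_inv_eq_conj]

private theorem vv_chi_sum {ι : Type*} (s : Finset ι) (f : ι → UnitAddCircle) :
    chi (∑ i ∈ s, f i) = ∏ i ∈ s, chi (f i) := by
  classical
  induction s using Finset.induction_on with
  | empty => simp [chi_zero]
  | insert a s ha ih => rw [Finset.sum_insert ha, Finset.prod_insert ha, chi_add, ih]

/-- `ph n` as a homomorphism -/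
private noncomputable def vvPh {k : ℕ} (n : ℤ) : V k →+ UnitAddCircle where
  toFun := ph n
  map_zero' := ph_map_zero n
  map_add' a b := ph_add n a b

private theorem vv_norm_pow {ι : Type*} [Fintype ι] (z : ι → ℂ) (t : ℕ) :
    (((‖∑ n, z n‖ ^ (2 * t) : ℝ)) : ℂ) =
      ∑ w : (Fin t → ι) × (Fin t → ι), (∏ i, z (w.1 i)) * (∏ i, (starRingEnd ℂ) (z (w.2 i))) := by
  have h1 : (((‖∑ n, z n‖ ^ (2 * t) : ℝ)) : ℂ) = (∑ n, z n) ^ t * (∑ n, (starRingEnd ℂ) (z n)) ^ t := by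
    rw [pow_mul]
    push_cast
    rw [← Complex.mul_conj', mul_pow, map_sum]
  rw [h1, Fintype.sum_pow, Fintype.sum_pow, Finset.sum_mul_sum, Fintype.sum_prod_type]

/-- the torsion subgroup -/
private def vvTor (k Q : ℕ) : AddSubgroup (V k) where
  carrier := {a | Q • a = 0}
  zero_mem' := by simp
  add_mem' := by
    intro a b ha hb
    simp only [Set.mem_ofPred_eq] at *
    rw [smul_add, ha, hb, add_zero]
  neg_mem' := by
    intro a ha
    simp only [Set.mem_ofPred_eq] at *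
    rw [smul_neg, ha, neg_zero]

private theorem vv_mem_Tor {k Q : ℕ} (a : V k) : a ∈ vvTor k Q ↔ Q • a = 0 := Iff.rfl

private theorem vv_Tor_finite (k Q : ℕ) (hQ : 0 < Q) : ((vvTor k Q : AddSubgroup (V k)) : Set (V k)).Finite := by
  have h : ((vvTor k Q : AddSubgroup (V k)) : Set (V k)) ⊆
      Set.pi Set.univ (fun _ : Fin k => {u : UnitAddCircle | Q • u = 0}) := by
    intro a ha j _
    have := congrFun ((vv_mem_Tor a).1 ha) j
    simpa using this
  exact (Set.Finite.pi' (fun _ => AddCircle.finite_torsion (1 : ℝ) hQ)).subset (by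
    intro a ha j
    exact h ha j (Set.mem_univ j))

/-- the phase difference of a point of the count -/
private noncomputable def vvPsi {k t N : ℕ} (w : (Fin t → Fin N) × (Fin t → Fin N)) : V k →+ UnitAddCircle :=
  ∑ i, vvPh (((w.1 i : ℕ) : ℤ) + 1) - ∑ i, vvPh (((w.2 i : ℕ) : ℤ) + 1)

private theorem vv_psi_apply {k t N : ℕ} (w : (Fin t → Fin N) × (Fin t → Fin N)) (a : V k) :
    vvPsi w a = ∑ i, ph (((w.1 i : ℕ) : ℤ) + 1) a - ∑ i, ph (((w.2 i : ℕ) : ℤ) + 1) a := by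
  simp [vvPsi, vvPh]

private theorem vv_psi_zero {k t N : ℕ} (w : (Fin t → Fin N) × (Fin t → Fin N)) (hw : w ∈ sols t k N) (a : V k) :
    vvPsi w a = 0 := by
  have hc : ∀ g : Fin t → Fin N, ∑ i, ph (((g i : ℕ) : ℤ) + 1) a =
      ∑ j : Fin k, (∑ i, (((g i : ℕ) : ℤ) + 1) ^ ((j : ℕ) + 1)) • a j := by
    intro g
    simp only [ph]
    rw [Finset.sum_comm]
    exact Finset.sum_congr rfl fun j _ => (Finset.sum_smul).symm
  rw [vv_psi_apply, sub_eq_zero, hc, hc]
  refine Finset.sum_congr rfl fun j _ => ?_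
  have hw' := hw
  unfold sols at hw'
  simp only [Finset.mem_filter, Finset.mem_univ, true_and] at hw'
  have h := hw' ((j : ℕ) + 1) (Finset.mem_Icc.2 ⟨by omega, by have := j.2; omega⟩)
  have h' : (∑ i, (((w.1 i : ℕ) : ℤ) + 1) ^ ((j : ℕ) + 1)) = ∑ i, (((w.2 i : ℕ) : ℤ) + 1) ^ ((j : ℕ) + 1) := by
    exact_mod_cast h
  rw [h']

/-- character attached to the phase difference on a subgroup -/
private noncomputable def vvPsiC {k t N : ℕ} (G : AddSubgroup (V k)) (w : (Fin t → Fin N) × (Fin t → Fin N)) :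
    AddChar G ℂ where
  toFun a := chi (vvPsi w (a : V k))
  map_zero_eq_one' := by simp [chi_zero]
  map_add_eq_mul' a b := by simp [chi_add]

private theorem vv_lower (k t N Q : ℕ) [Fintype (vvTor k Q)] :
    (Fintype.card (vvTor k Q) : ℝ) * (JJ t k N : ℝ) ≤
      ∑ a : vvTor k Q, ‖∑ n : Fin N, chi (ph (((n : ℕ) : ℤ) + 1) (a : V k))‖ ^ (2 * t) := by
  classical
  have key : (((∑ a : vvTor k Q, ‖∑ n : Fin N, chi (ph (((n : ℕ) : ℤ) + 1) (a : V k))‖ ^ (2 * t) : ℝ)) : ℂ) =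
      ∑ w : (Fin t → Fin N) × (Fin t → Fin N), ∑ a : vvTor k Q, vvPsiC (vvTor k Q) w a := by
    push_cast
    rw [Finset.sum_comm]
    refine Finset.sum_congr rfl fun a _ => ?_
    have := vv_norm_pow (fun n : Fin N => chi (ph (((n : ℕ) : ℤ) + 1) (a : V k))) t
    push_cast at this
    rw [this]
    refine Finset.sum_congr rfl fun w _ => ?_
    show _ = chi (vvPsi w (a : V k))
    rw [vv_psi_apply, sub_eq_add_neg, chi_add, vv_chi_sum, ← vv_conj_chi, vv_chi_sum, map_prod]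
  have key2 : (((∑ a : vvTor k Q, ‖∑ n : Fin N, chi (ph (((n : ℕ) : ℤ) + 1) (a : V k))‖ ^ (2 * t) : ℝ)) : ℂ) =
      ((∑ w : (Fin t → Fin N) × (Fin t → Fin N), (if vvPsiC (vvTor k Q) w = 0 then (Fintype.card (vvTor k Q) : ℝ) else 0) : ℝ) : ℂ) := by
    rw [key]
    push_cast
    refine Finset.sum_congr rfl fun w _ => ?_
    rw [AddChar.sum_eq_ite]
    split_ifs <;> simp
  have key3 := Complex.ofReal_injective key2
  rw [key3]
  have h4 : (Fintype.card (vvTor k Q) : ℝ) * (JJ t k N : ℝ) =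
      ∑ w ∈ sols t k N, (if vvPsiC (vvTor k Q) w = 0 then (Fintype.card (vvTor k Q) : ℝ) else 0) := by
    rw [JJ, Finset.card_eq_sum_ones]
    push_cast
    rw [Finset.mul_sum]
    refine Finset.sum_congr rfl fun w hw => ?_
    have h0 : vvPsiC (vvTor k Q) w = 0 := by
      ext a
      show chi (vvPsi w (a : V k)) = _
      rw [vv_psi_zero w hw, chi_zero]
      simp
    rw [if_pos h0, mul_one]
  rw [h4]
  refine Finset.sum_le_sum_of_subset_of_nonneg (Finset.subset_univ _) fun w _ _ => ?_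
  split_ifs <;> positivity

/-- the kernel of `DD B (TT n)` is killed by `p^(kB)` -/
private theorem vv_kill {k : ℕ} (p B : ℕ) (n : ℤ) (b : V k) (hb : DD p B (TT n b) = 0) : (p ^ (k * B)) • b = 0 := by
  have h1 : ((p : ℤ) ^ (k * B)) • (TT n b) = 0 := by
    funext j
    have hj := congrFun hb j
    simp only [DD, Pi.zero_apply] at hj
    have hle : B * ((j : ℕ) + 1) ≤ k * B := by
      rw [mul_comm k B]
      exact Nat.mul_le_mul_left B (by have := j.2; omega)
    obtain ⟨c, hc⟩ := Nat.exists_eq_add_of_le hle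
    rw [Pi.smul_apply, Pi.zero_apply, hc, pow_add, mul_comm, mul_smul, hj, smul_zero]
  have h2 : b = TT (-n) (TT n b) := by
    rw [← TT_shift, add_neg_cancel, TT_zero]
  have h3 : ((p : ℤ) ^ (k * B)) • b = 0 := by
    rw [h2, ← TT_smul, h1, TT_map_zero]
  have h4 : ((p ^ (k * B) : ℕ) : ℤ) • b = 0 := by
    push_cast
    exact h3
  rw [natCast_zsmul] at h4
  exact h4

theorem jj_dec {k p B N : ℕ} (hk : 1 ≤ k) (hp : p.Prime) (hN : N ≤ p ^ B) {E : ℝ≥0∞} (hD : Dec k p B E) :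
    (JJ (tri k) k N : ℝ≥0∞) ≤ E * (N : ℝ≥0∞) ^ (tri k) := by
  classical
  set t := tri k with ht
  have ht1 : 1 ≤ t := by
    rw [ht, tri, Nat.le_div_iff_mul_le (by norm_num)]
    nlinarith
  set Q := p ^ (k * B) with hQd
  have hQ : 0 < Q := pow_pos hp.pos _
  have hfin := vv_Tor_finite k Q hQ
  have : Finite (vvTor k Q) := hfin
  have : Fintype (vvTor k Q) := Fintype.ofFinite _
  set S : Finset ℤ := (Finset.univ : Finset (Fin N)).image (fun n : Fin N => ((n : ℕ) : ℤ) + 1) with hS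
  have hinj : Function.Injective (fun n : Fin N => ((n : ℕ) : ℤ) + 1) := by
    intro a b hab
    have : ((a : ℕ) : ℤ) = ((b : ℕ) : ℤ) := by simpa using hab
    exact Fin.ext (by exact_mod_cast this)
  have hSinc : Inc p B S := by
    intro x hx y hy h1
    obtain ⟨a, -, rfl⟩ := Finset.mem_image.1 hx
    obtain ⟨b, -, rfl⟩ := Finset.mem_image.1 hy
    have h2 : |(((a : ℕ) : ℤ) + 1 - (((b : ℕ) : ℤ) + 1))| < (p : ℤ) ^ B := by
      have ha := a.2
      have hb := b.2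
      have hN' : (N : ℤ) ≤ (p : ℤ) ^ B := by exact_mod_cast hN
      rw [abs_lt]
      constructor <;> omega
    have h3 := Int.eq_zero_of_abs_lt_dvd h1 h2
    omega
  have hDS := hD S (fun n a => if a ∈ vvTor k Q then chi (ph n a) else 0) hSinc (by
    intro n _ a b hb
    have hbT : b ∈ vvTor k Q := (vv_mem_Tor b).2 (vv_kill p B n b hb)
    show (if a + b ∈ vvTor k Q then chi (ph n (a + b)) else 0) =
      chi (ph n b) * (if a ∈ vvTor k Q then chi (ph n a) else 0)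
    by_cases ha : a ∈ vvTor k Q
    · rw [if_pos (add_mem ha hbT), if_pos ha, ph_add, chi_add, mul_comm]
    · have hab : a + b ∉ vvTor k Q := by
        intro h
        apply ha
        have h2 := (vvTor k Q).sub_mem h hbT
        rwa [add_sub_cancel_right] at h2
      rw [if_neg hab, if_neg ha, mul_zero])
  have hcard : (0 : ℝ≥0∞) < ((Fintype.card (vvTor k Q) : ℕ) : ℝ≥0∞) := by
    exact_mod_cast Fintype.card_pos
  -- sums over the group
  have hts : ∀ g : V k → ℝ≥0∞, (∀ a, a ∉ vvTor k Q → g a = 0) → ∑' a, g a = ∑ a : vvTor k Q, g a := by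
    intro g hg
    rw [← tsum_fintype (L := SummationFilter.unconditional _)]
    exact (tsum_subtype_eq_of_support_subset (s := ((vvTor k Q : AddSubgroup (V k)) : Set (V k))) (by
      intro a ha
      by_contra hn
      exact ha (hg a hn))).symm
  have hR : ∀ n ∈ S, sq t (fun a : V k => (if a ∈ vvTor k Q then chi (ph n a) else (0 : ℂ))) =
      ((Fintype.card (vvTor k Q) : ℕ) : ℝ≥0∞) ^ (1 / (t : ℝ)) := by
    intro n _
    unfold sq
    congr 1
    rw [hts _ (by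
      intro a ha
      show ‖(if a ∈ vvTor k Q then chi (ph n a) else (0 : ℂ))‖ₑ ^ (2 * t) = 0
      rw [if_neg ha, enorm_zero, zero_pow (by omega)])]
    have : ∀ a : vvTor k Q, ‖(if (a : V k) ∈ vvTor k Q then chi (ph n (a : V k)) else (0 : ℂ))‖ₑ ^ (2 * t) = 1 := by
      intro a
      rw [if_pos a.2, enorm_chi, one_pow]
    simp only [this]
    simp
  have hL : ((Fintype.card (vvTor k Q) : ℕ) : ℝ≥0∞) * ((JJ t k N : ℕ) : ℝ≥0∞) ≤
      ∑' a : V k, ‖∑ n ∈ S, (if a ∈ vvTor k Q then chi (ph n a) else (0 : ℂ))‖ₑ ^ (2 * t) := by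
    rw [hts _ (by
      intro a ha
      rw [Finset.sum_eq_zero (fun n _ => if_neg ha), enorm_zero, zero_pow (by omega)])]
    have h1 := vv_lower k t N Q
    have h2 : ∀ a : vvTor k Q, ‖∑ n ∈ S, (if (a : V k) ∈ vvTor k Q then chi (ph n (a : V k)) else (0 : ℂ))‖ₑ ^ (2 * t) =
        ENNReal.ofReal (‖∑ n : Fin N, chi (ph (((n : ℕ) : ℤ) + 1) (a : V k))‖ ^ (2 * t)) := by
      intro a
      rw [ENNReal.ofReal_pow (norm_nonneg _), ofReal_norm, hS, Finset.sum_image (fun x _ y _ h => hinj h)]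
      simp [a.2]
    simp only [h2]
    rw [← ENNReal.ofReal_sum_of_nonneg (fun a _ => by positivity)]
    refine le_trans (le_of_eq ?_) (ENNReal.ofReal_le_ofReal h1)
    rw [ENNReal.ofReal_mul (by positivity), ENNReal.ofReal_natCast, ENNReal.ofReal_natCast]
  have hfinal : ((Fintype.card (vvTor k Q) : ℕ) : ℝ≥0∞) * ((JJ t k N : ℕ) : ℝ≥0∞) ≤
      ((Fintype.card (vvTor k Q) : ℕ) : ℝ≥0∞) * (E * (N : ℝ≥0∞) ^ t) := by
    refine le_trans hL (le_trans hDS (le_of_eq ?_))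
    rw [Finset.sum_congr rfl (fun n hn => hR n hn), Finset.sum_const, nsmul_eq_mul, mul_pow,
      ← ENNReal.rpow_natCast (_ ^ _) t, ← ENNReal.rpow_mul]
    have hSc : S.card = N := by
      rw [hS, Finset.card_image_of_injective _ hinj, Finset.card_univ, Fintype.card_fin]
    have hone : (1 / ((t : ℕ) : ℝ)) * (t : ℝ) = 1 := by
      have : (t : ℝ) ≠ 0 := by positivity
      field_simp
    rw [hSc, hone, ENNReal.rpow_one]
    ring
  exact (ENNReal.mul_le_mul_iff_right hcard.ne' (ENNReal.natCast_ne_top _)).1 hfinal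

theorem vmvt (k : ℕ) (hk : 1 ≤ k) (ε : ℝ) (hε : 0 < ε) : ∃ C : ℝ, 0 < C ∧ ∀ N : ℕ, 1 ≤ N →
    (JJ (k * (k + 1) / 2) k N : ℝ) ≤ C * (N : ℝ) ^ (((k * (k + 1) / 2 : ℕ) : ℝ) + ε) := by
  obtain ⟨p0, hp0⟩ := dec_main k hk ε hε
  obtain ⟨p, hpp, hp⟩ := Nat.exists_infinite_primes p0
  obtain ⟨C0, hC0, hB⟩ := hp0 p hp hpp
  have hp1 : (1 : ℝ) < p := by exact_mod_cast hp.one_lt
  set C : ℝ := C0.toReal + 1 with hCd
  have hC : 0 < C := by positivity
  refine ⟨C * (p : ℝ) ^ ε, by positivity, fun N hN => ?_⟩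
  set B := Nat.clog p N with hBd
  have h1 : N ≤ p ^ B := Nat.le_pow_clog hp.one_lt N
  have h2 : (p : ℝ) ^ B ≤ p * N := by
    rcases Nat.lt_or_ge 1 N with hN1 | hN1
    · have h3 : p ^ B.pred < N := Nat.pow_pred_clog_lt_self hp.one_lt hN1
      have hB0 : B ≠ 0 := by
        have := Nat.clog_pos hp.one_lt hN1
        omega
      have h4 : p ^ B = p * p ^ B.pred := by
        rw [← pow_succ', ← Nat.succ_eq_add_one, Nat.succ_pred hB0]
      have h5 : p ^ B ≤ p * N := by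
        rw [h4]
        exact Nat.mul_le_mul_left _ h3.le
      exact_mod_cast h5
    · have hN' : N = 1 := le_antisymm hN1 hN
      have hB0 : B = 0 := by rw [hBd, hN']; simp
      rw [hB0, hN']
      push_cast
      linarith
  have h3 := jj_dec hk hp h1 (hB B)
  have h4 : (JJ (k * (k + 1) / 2) k N : ℝ) ≤ C * (p : ℝ) ^ (ε * B) * (N : ℝ) ^ (k * (k + 1) / 2) := by
    have hpe : ((p : ℝ≥0∞) ^ (ε * B)) ≠ ⊤ := ENNReal.rpow_ne_top_of_nonneg (by positivity) (ENNReal.natCast_ne_top p)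
    have h5 := ENNReal.toReal_mono (by
      refine ENNReal.mul_ne_top (ENNReal.mul_ne_top hC0 hpe) (ENNReal.pow_ne_top (ENNReal.natCast_ne_top N))) h3
    rw [ENNReal.toReal_mul, ENNReal.toReal_mul, ENNReal.toReal_pow, ENNReal.toReal_natCast, ENNReal.toReal_natCast,
      ← ENNReal.toReal_rpow, ENNReal.toReal_natCast] at h5
    refine h5.trans ?_
    have h6 : C0.toReal ≤ C := by linarith
    have h7 : tri k = k * (k + 1) / 2 := rfl
    rw [h7]
    gcongr
  refine h4.trans ?_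
  have hN0 : (0 : ℝ) < N := by exact_mod_cast hN
  have h6 : (p : ℝ) ^ (ε * B) ≤ (p : ℝ) ^ ε * (N : ℝ) ^ ε := by
    have h7 : (p : ℝ) ^ (ε * B) = ((p : ℝ) ^ B) ^ ε := by
      rw [mul_comm, Real.rpow_mul (by positivity), Real.rpow_natCast]
    rw [h7, ← Real.mul_rpow (by positivity) (by positivity)]
    exact Real.rpow_le_rpow (by positivity) h2 hε.le
  rw [Real.rpow_add hN0, Real.rpow_natCast]
  calc C * (p : ℝ) ^ (ε * B) * (N : ℝ) ^ (k * (k + 1) / 2)
      ≤ C * ((p : ℝ) ^ ε * (N : ℝ) ^ ε) * (N : ℝ) ^ (k * (k + 1) / 2) := by gcongr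
    _ = C * (p : ℝ) ^ ε * ((N : ℝ) ^ (k * (k + 1) / 2) * (N : ℝ) ^ ε) := by ring

end Pool.Agent.Lib.VM
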