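import Pool.Agent.Lib.VM.Defs

/-!
# VM / Alg: the algebra of the Taylor shift and the dilation

PROOF. `chi`: `AddCircle.toCircle_add`, `Circle.norm_coe`. Additivity: `smul_add`, `Finset.sum_add_distrib`. `ph_shift`:
binomial theorem for `(x+z)^(j+1)`, the term `m+1 = 0` of the expansion is `x^(j+1)`. `TT_shift`: compare the coefficients,
`C(j+1,r+1) C(r+1,m+1) = C(j+1,m+1) C(j-m,r-m)` (`Nat.choose_mul`) and the binomial theorem for `(x+z)^(j-m)`; all three
identities are identities of integer combinations of the `α j`: swap the sums, compare the coefficient of `α j`.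
`DD_TT`: coefficient `p^(a(m+1)) p^(a(j-m)) = p^(a(j+1))` for `j ≥ m`, the binomial coefficient is `0` for `j < m`.
-/

set_option autoImplicit false

open Finset
open scoped ENNReal

namespace Pool.Agent.Lib.VM

theorem chi_add (u v : UnitAddCircle) : chi (u + v) = chi u * chi v := by
  unfold chi
  rw [AddCircle.toCircle_add, Circle.coe_mul]

theorem chi_zero : chi 0 = 1 := by
  unfold chi
  rw [AddCircle.toCircle_zero, Circle.coe_one]

theorem enorm_chi (u : UnitAddCircle) : ‖chi u‖ₑ = 1 := by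
  unfold chi
  rw [← ofReal_norm, Circle.norm_coe, ENNReal.ofReal_one]

theorem ph_add {k : ℕ} (n : ℤ) (α β : V k) : ph n (α + β) = ph n α + ph n β := by
  unfold ph
  rw [← Finset.sum_add_distrib]
  exact Finset.sum_congr rfl fun j _ => by rw [Pi.add_apply, smul_add]

theorem TT_add {k : ℕ} (x : ℤ) (α β : V k) : TT x (α + β) = TT x α + TT x β := by
  funext m
  simp only [TT, Pi.add_apply, smul_add, Finset.sum_add_distrib]

theorem DD_add {k : ℕ} (p a : ℕ) (α β : V k) : DD p a (α + β) = DD p a α + DD p a β := by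
  funext m
  simp only [DD, Pi.add_apply, smul_add]

theorem TT_smul {k : ℕ} (x c : ℤ) (α : V k) : TT x (c • α) = c • TT x α := by
  funext m
  simp only [TT, Pi.smul_apply, Finset.smul_sum]
  exact Finset.sum_congr rfl fun j _ => smul_comm _ _ _

theorem DD_smul {k : ℕ} (p a : ℕ) (c : ℤ) (α : V k) : DD p a (c • α) = c • DD p a α := by
  funext m
  simp only [DD, Pi.smul_apply]
  exact smul_comm _ _ _

theorem ph_map_zero {k : ℕ} (n : ℤ) : ph n (0 : V k) = 0 := by
  unfold ph
  exact Finset.sum_eq_zero fun j _ => by rw [Pi.zero_apply, smul_zero]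

theorem TT_map_zero {k : ℕ} (x : ℤ) : TT x (0 : V k) = 0 := by
  funext m
  simp only [TT, Pi.zero_apply, smul_zero, Finset.sum_const_zero]

theorem DD_map_zero {k : ℕ} (p a : ℕ) : DD p a (0 : V k) = 0 := by
  funext m
  simp only [DD, Pi.zero_apply, smul_zero]

private theorem Alg_binom (k j : ℕ) (hj : j < k) (x z : ℤ) :
    (x + z) ^ (j + 1) = x ^ (j + 1) +
      ∑ m : Fin k, z ^ ((m : ℕ) + 1) * (((Nat.choose (j + 1) ((m : ℕ) + 1) : ℕ) : ℤ) * x ^ (j - (m : ℕ))) := by
  rw [Fin.sum_univ_eq_sum_range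
    (fun m => z ^ (m + 1) * (((Nat.choose (j + 1) (m + 1) : ℕ) : ℤ) * x ^ (j - m))) k]
  have h1 : ∑ m ∈ range k, z ^ (m + 1) * (((Nat.choose (j + 1) (m + 1) : ℕ) : ℤ) * x ^ (j - m)) =
      ∑ m ∈ range (j + 1), z ^ (m + 1) * (((Nat.choose (j + 1) (m + 1) : ℕ) : ℤ) * x ^ (j - m)) := by
    symm
    refine Finset.sum_subset (Finset.range_subset_range.2 (by omega)) ?_
    intro m _ hm
    rw [Finset.mem_range, not_lt] at hm
    rw [Nat.choose_eq_zero_of_lt (by omega : j + 1 < m + 1)]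
    simp
  rw [h1, add_comm x z, add_pow, Finset.sum_range_succ']
  rw [add_comm]
  congr 1
  · simp
  · refine Finset.sum_congr rfl fun m _ => ?_
    rw [show j + 1 - (m + 1) = j - m by omega]
    ring

theorem ph_shift {k : ℕ} (x z : ℤ) (α : V k) : ph (x + z) α = ph x α + ph z (TT x α) := by
  simp only [ph, TT, Finset.smul_sum, smul_smul]
  rw [Finset.sum_comm, ← Finset.sum_add_distrib]
  refine Finset.sum_congr rfl fun j _ => ?_
  rw [← Finset.sum_smul, ← add_smul, Alg_binom k j j.2 x z]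

private theorem Alg_binom2 (k j m : ℕ) (hj : j < k) (x z : ℤ) :
    ((Nat.choose (j + 1) (m + 1) : ℕ) : ℤ) * (x + z) ^ (j - m) =
      ∑ r : Fin k, (((Nat.choose ((r : ℕ) + 1) (m + 1) : ℕ) : ℤ) * z ^ ((r : ℕ) - m)) *
        (((Nat.choose (j + 1) ((r : ℕ) + 1) : ℕ) : ℤ) * x ^ (j - (r : ℕ))) := by
  rw [Fin.sum_univ_eq_sum_range
    (fun r => (((Nat.choose (r + 1) (m + 1) : ℕ) : ℤ) * z ^ (r - m)) *
        (((Nat.choose (j + 1) (r + 1) : ℕ) : ℤ) * x ^ (j - r))) k]
  rcases lt_or_ge j m with hjm | hjm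
  · rw [Nat.choose_eq_zero_of_lt (by omega : j + 1 < m + 1)]
    symm
    rw [Nat.cast_zero, zero_mul]
    refine Finset.sum_eq_zero fun r _ => ?_
    rcases lt_or_ge r m with hr | hr
    · rw [Nat.choose_eq_zero_of_lt (by omega : r + 1 < m + 1)]
      simp
    · rw [Nat.choose_eq_zero_of_lt (by omega : j + 1 < r + 1)]
      simp
  · obtain ⟨d, rfl⟩ := Nat.exists_eq_add_of_le hjm
    have h1 : ∑ r ∈ range k, (((Nat.choose (r + 1) (m + 1) : ℕ) : ℤ) * z ^ (r - m)) *
          (((Nat.choose (m + d + 1) (r + 1) : ℕ) : ℤ) * x ^ (m + d - r)) =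
        ∑ r ∈ range (m + (d + 1)), (((Nat.choose (r + 1) (m + 1) : ℕ) : ℤ) * z ^ (r - m)) *
          (((Nat.choose (m + d + 1) (r + 1) : ℕ) : ℤ) * x ^ (m + d - r)) := by
      symm
      refine Finset.sum_subset (Finset.range_subset_range.2 (by omega)) ?_
      intro r _ hr
      rw [Finset.mem_range, not_lt] at hr
      rw [Nat.choose_eq_zero_of_lt (by omega : m + d + 1 < r + 1)]
      simp
    rw [h1, Finset.sum_range_add]
    have h2 : ∑ r ∈ range m, (((Nat.choose (r + 1) (m + 1) : ℕ) : ℤ) * z ^ (r - m)) *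
          (((Nat.choose (m + d + 1) (r + 1) : ℕ) : ℤ) * x ^ (m + d - r)) = 0 := by
      refine Finset.sum_eq_zero fun r hr => ?_
      rw [Finset.mem_range] at hr
      rw [Nat.choose_eq_zero_of_lt (by omega : r + 1 < m + 1)]
      simp
    rw [h2, zero_add, Nat.add_sub_cancel_left, add_comm x z, add_pow, Finset.mul_sum]
    refine Finset.sum_congr rfl fun i hi => ?_
    rw [Finset.mem_range] at hi
    have h3 : (Nat.choose (m + d + 1) (m + i + 1)) * (Nat.choose (m + i + 1) (m + 1)) =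
        (Nat.choose (m + d + 1) (m + 1)) * (Nat.choose d i) := by
      have h4 := Nat.choose_mul (n := m + d + 1) (k := m + i + 1) (s := m + 1) (by omega)
      rw [h4]
      congr 2 <;> omega
    have h5 : ((Nat.choose (m + d + 1) (m + i + 1) : ℕ) : ℤ) * ((Nat.choose (m + i + 1) (m + 1) : ℕ) : ℤ) =
        ((Nat.choose (m + d + 1) (m + 1) : ℕ) : ℤ) * ((Nat.choose d i : ℕ) : ℤ) := by
      exact_mod_cast h3
    rw [Nat.add_sub_cancel_left, show m + d - (m + i) = d - i by omega]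
    linear_combination (-(z ^ i * x ^ (d - i))) * h5

theorem TT_shift {k : ℕ} (x z : ℤ) (α : V k) : TT (x + z) α = TT z (TT x α) := by
  funext m
  simp only [TT, Finset.smul_sum, smul_smul]
  rw [Finset.sum_comm]
  refine Finset.sum_congr rfl fun j _ => ?_
  rw [← Finset.sum_smul, Alg_binom2 k j m j.2 x z]

theorem TT_zero {k : ℕ} (α : V k) : TT 0 α = α := by
  funext m
  simp only [TT]
  rw [Finset.sum_eq_single m]
  · simp
  · intro j _ hj
    have hne : (j : ℕ) ≠ (m : ℕ) := fun h => hj (Fin.ext h)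
    rcases lt_or_gt_of_ne hne with h | h
    · rw [Nat.choose_eq_zero_of_lt (by omega : (j : ℕ) + 1 < (m : ℕ) + 1)]
      simp
    · rw [zero_pow (by omega : (j : ℕ) - (m : ℕ) ≠ 0)]
      simp
  · intro h
    exact absurd (Finset.mem_univ m) h

theorem DD_TT {k : ℕ} (p a : ℕ) (z : ℤ) (α : V k) : DD p a (TT ((p : ℤ) ^ a * z) α) = TT z (DD p a α) := by
  funext m
  simp only [DD, TT, Finset.smul_sum, smul_smul]
  refine Finset.sum_congr rfl fun j _ => ?_
  congr 1
  rcases lt_or_ge (j : ℕ) (m : ℕ) with h | h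
  · rw [Nat.choose_eq_zero_of_lt (by omega : (j : ℕ) + 1 < (m : ℕ) + 1)]
    simp
  · obtain ⟨d, hd⟩ := Nat.exists_eq_add_of_le h
    rw [hd, Nat.add_sub_cancel_left, mul_pow, ← pow_mul,
      show a * ((m : ℕ) + d + 1) = a * ((m : ℕ) + 1) + a * d by ring, pow_add]
    ring

theorem ph_DD {k : ℕ} (p a : ℕ) (z : ℤ) (α : V k) : ph ((p : ℤ) ^ a * z) α = ph z (DD p a α) := by
  simp only [ph, DD, smul_smul]
  refine Finset.sum_congr rfl fun j _ => ?_
  congr 1
  rw [mul_pow, ← pow_mul]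
  ring

theorem DD_DD {k : ℕ} (p a b : ℕ) (α : V k) : DD p (a + b) α = DD p a (DD p b α) := by
  funext m
  simp only [DD, smul_smul]
  congr 1
  rw [add_mul, pow_add]

end Pool.Agent.Lib.VM
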