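import Pool.Agent.Lib.VM.Defs

/-!
# VM / Mink: the inequalities of Hölder and Minkowski for sums in `[0, ∞]`

PROOF. `ENNReal.lintegral_Lp_add_le`, `ENNReal.lintegral_mul_le_Lp_mul_Lq` for the counting measure (`MeasureTheory.lintegral_count` with the
measurable space `⊤`), or `ENNReal.inner_le_Lp_mul_Lq_tsum`-like statements. `mink`: Minkowski for the functions `w^(1/t) u_i^(1/t)` with
exponent `t ≥ 1`, induction on `S`. `holder`: exponents `1/θ` and `1/(1-θ)`; `θ = 0, 1` are trivial up to `0^0 = 1`.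
-/

set_option autoImplicit false

open Finset
open scoped ENNReal

namespace Pool.Agent.Lib.VM

private theorem mink_tri {α : Type*} {t : ℕ} (ht : 1 ≤ t) (f g : α → ℝ≥0∞) :
    (∑' a, (f a + g a) ^ t) ^ (1 / (t : ℝ)) ≤ (∑' a, (f a) ^ t) ^ (1 / (t : ℝ)) + (∑' a, (g a) ^ t) ^ (1 / (t : ℝ)) := by
  let _ : MeasurableSpace α := ⊤
  have h := ENNReal.lintegral_Lp_add_le (μ := MeasureTheory.Measure.count) (p := (t : ℝ)) (f := f) (g := g)
    (measurable_from_top.aemeasurable) (measurable_from_top.aemeasurable) (by exact_mod_cast ht)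
  simp only [MeasureTheory.lintegral_count, Pi.add_apply, ENNReal.rpow_natCast] at h
  exact h

private theorem mink_fin {ι α : Type*} (S : Finset ι) {t : ℕ} (ht : 1 ≤ t) (f : ι → α → ℝ≥0∞) :
    (∑' a, (∑ i ∈ S, f i a) ^ t) ^ (1 / (t : ℝ)) ≤ ∑ i ∈ S, (∑' a, (f i a) ^ t) ^ (1 / (t : ℝ)) := by
  classical
  have ht0 : (0 : ℝ) < (t : ℝ) := by exact_mod_cast ht
  induction S using Finset.induction_on with
  | empty =>
    have h1 : t ≠ 0 := by omega
    simp [h1, ht0]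
  | insert j S hj ih =>
    simp only [Finset.sum_insert hj]
    exact (mink_tri ht (fun a => f j a) (fun a => ∑ i ∈ S, f i a)).trans (add_le_add le_rfl ih)

private theorem mink_root {t : ℕ} (ht : 1 ≤ t) (x : ℝ≥0∞) : (x ^ (1 / (t : ℝ))) ^ t = x := by
  have ht0 : (t : ℝ) ≠ 0 := by
    have : t ≠ 0 := by omega
    exact_mod_cast this
  rw [← ENNReal.rpow_natCast, ← ENNReal.rpow_mul, one_div, inv_mul_cancel₀ ht0, ENNReal.rpow_one]

theorem mink {ι α : Type*} (S : Finset ι) {t : ℕ} (ht : 1 ≤ t) (w : α → ℝ≥0∞) (u : ι → α → ℝ≥0∞) :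
    ∑' a, w a * (∑ i ∈ S, (u i a) ^ (1 / (t : ℝ))) ^ t ≤ (∑ i ∈ S, (∑' a, w a * u i a) ^ (1 / (t : ℝ))) ^ t := by
  have ht0 : (0 : ℝ) ≤ 1 / (t : ℝ) := by positivity
  have h := mink_fin S ht (fun i a => (w a) ^ (1 / (t : ℝ)) * (u i a) ^ (1 / (t : ℝ)))
  simp only [← Finset.mul_sum, mul_pow, mink_root ht] at h
  calc ∑' a, w a * (∑ i ∈ S, (u i a) ^ (1 / (t : ℝ))) ^ t
      = ((∑' a, w a * (∑ i ∈ S, (u i a) ^ (1 / (t : ℝ))) ^ t) ^ (1 / (t : ℝ))) ^ t := (mink_root ht _).symm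
    _ ≤ _ := pow_le_pow_left' h t

theorem holder {α : Type*} (u v : α → ℝ≥0∞) {θ : ℝ} (h0 : 0 < θ) (h1 : θ < 1) :
    ∑' a, (u a) ^ θ * (v a) ^ (1 - θ) ≤ (∑' a, u a) ^ θ * (∑' a, v a) ^ (1 - θ) := by
  let _ : MeasurableSpace α := ⊤
  have h := ENNReal.lintegral_mul_norm_pow_le (μ := MeasureTheory.Measure.count) (f := u) (g := v)
    (measurable_from_top.aemeasurable) (measurable_from_top.aemeasurable) (p := θ) (q := 1 - θ) h0.le (by linarith) (by ring)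
  simp only [MeasureTheory.lintegral_count] at h
  exact h

/-- the power mean inequality for finitely many terms -/
theorem pow_mean {ι : Type*} (S : Finset ι) (u : ι → ℝ≥0∞) {t : ℕ} (ht : 1 ≤ t) :
    (∑ i ∈ S, u i) ^ t ≤ (S.card : ℝ≥0∞) ^ t * ∑ i ∈ S, (u i) ^ t := by
  classical
  rcases S.eq_empty_or_nonempty with rfl | hne
  · have h1 : t ≠ 0 := by omega
    simp [h1]
  · obtain ⟨m, hm, hmax⟩ := S.exists_max_image u hne
    have h1 : ∑ i ∈ S, u i ≤ (S.card : ℝ≥0∞) * u m := by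
      have := Finset.sum_le_card_nsmul S u (u m) hmax
      rwa [nsmul_eq_mul] at this
    calc (∑ i ∈ S, u i) ^ t ≤ ((S.card : ℝ≥0∞) * u m) ^ t := pow_le_pow_left' h1 t
      _ = (S.card : ℝ≥0∞) ^ t * (u m) ^ t := mul_pow _ _ _
      _ ≤ (S.card : ℝ≥0∞) ^ t * ∑ i ∈ S, (u i) ^ t := by
          gcongr
          exact Finset.single_le_sum (f := fun i => (u i) ^ t) (fun i _ => bot_le) hm

/-- `∑ u^t ≤ (∑ u)^t` -/
theorem sum_pow_le {ι : Type*} (S : Finset ι) (u : ι → ℝ≥0∞) {t : ℕ} (ht : 1 ≤ t) : ∑ i ∈ S, (u i) ^ t ≤ (∑ i ∈ S, u i) ^ t := by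
  obtain ⟨n, rfl⟩ : ∃ n, t = n + 1 := ⟨t - 1, by omega⟩
  calc ∑ i ∈ S, (u i) ^ (n + 1) = ∑ i ∈ S, (u i) ^ n * u i := Finset.sum_congr rfl fun i _ => pow_succ _ _
    _ ≤ ∑ i ∈ S, (∑ j ∈ S, u j) ^ n * u i := by
        refine Finset.sum_le_sum fun i hi => ?_
        gcongr
        exact Finset.single_le_sum (f := u) (fun i _ => bot_le) hi
    _ = (∑ i ∈ S, u i) ^ (n + 1) := by rw [← Finset.mul_sum, pow_succ]

end Pool.Agent.Lib.VM
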