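import Pool.Agent.Lib.VM.Alg

/-!
# VM / Ker: the dilation is surjective with a finite kernel

PROOF. `AddCircle` is divisible: `p^n u = v` has a solution (`u = v/p^n` for a real representative), and `{u | p^n u = 0}` is finite
(`AddCircle` torsion: it is the image of `{j/p^n}`; Mathlib: `AddCircle.finite_setOf_addOrderOf_eq`, `AddCircle.card_addOrderOf_eq_totient`, or
directly `p^n u = 0` iff `u = j/p^n` for some integer `0 ≤ j < p^n`). `TT x` is a bijection. For a surjective additive map `π` with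
finite kernel `K`: `∑' F(π α) = ∑'_β ∑'_{α ∈ π⁻¹ β} F β = |K| ∑' F β` (`Equiv.sigmaFiberEquiv`, `ENNReal.tsum_sigma`, each fibre is a
translate of `K`).
-/

set_option autoImplicit false

open Finset
open scoped ENNReal

namespace Pool.Agent.Lib.VM

/-- the circle is divisible -/
private theorem ker_div (v : UnitAddCircle) {c : ℤ} (hc : c ≠ 0) : ∃ u : UnitAddCircle, c • u = v := by
  obtain ⟨r, rfl⟩ := QuotientAddGroup.mk_surjective v
  refine ⟨((r / (c : ℝ) : ℝ) : UnitAddCircle), ?_⟩
  rw [← AddCircle.coe_zsmul, zsmul_eq_mul, mul_div_cancel₀ r (Int.cast_ne_zero.mpr hc)]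

/-- its torsion of a given exponent is finite -/
private theorem ker_fin {c : ℕ} (hc : 0 < c) : {u : UnitAddCircle | (c : ℤ) • u = 0}.Finite := by
  refine (AddCircle.finite_torsion (1 : ℝ) hc).subset fun u hu => ?_
  have h : (c : ℤ) • u = 0 := hu
  rw [natCast_zsmul] at h
  exact h

private theorem ker_pow {p : ℕ} (hp : 0 < p) (n : ℕ) : {u : UnitAddCircle | ((p : ℤ) ^ n) • u = 0}.Finite := by
  have h := ker_fin (c := p ^ n) (pow_pos hp n)
  rw [Nat.cast_pow] at h
  exact h

/-- a surjective additive map with finite kernel -/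
private theorem ker_tsum {G H : Type} [AddCommGroup G] [AddCommGroup H] (π : G →+ H) (hs : Function.Surjective π)
    (hf : {g : G | π g = 0}.Finite) : ∃ c : ℝ≥0∞, c ≠ 0 ∧ c ≠ ⊤ ∧ ∀ F : H → ℝ≥0∞, ∑' α : G, F (π α) = c * ∑' β : H, F β := by
  classical
  have hfin : Finite {g : G // π g = 0} := hf.to_subtype
  have hft : Fintype {g : G // π g = 0} := Fintype.ofFinite _
  have hne : Nonempty {g : G // π g = 0} := ⟨⟨0, map_zero π⟩⟩
  choose s hs' using hs
  refine ⟨(Fintype.card {g : G // π g = 0} : ℝ≥0∞), ?_, ENNReal.natCast_ne_top _, fun F => ?_⟩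
  · rw [Nat.cast_ne_zero]
    exact Fintype.card_ne_zero
  · let e : H × {g : G // π g = 0} ≃ G :=
      { toFun := fun q => s q.1 + q.2.1
        invFun := fun g => (π g, ⟨g - s (π g), by rw [map_sub, hs', sub_self]⟩)
        left_inv := by
          rintro ⟨y, ⟨k, hk⟩⟩
          have h1 : π (s y + k) = y := by rw [map_add, hs', hk, add_zero]
          rw [Prod.mk.injEq]
          refine ⟨h1, Subtype.ext ?_⟩
          change s y + k - s (π (s y + k)) = k
          rw [h1, add_sub_cancel_left]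
        right_inv := by
          intro g
          change s (π g) + (g - s (π g)) = g
          rw [add_sub_cancel] }
    have h2 : ∀ q : H × {g : G // π g = 0}, π (e q) = q.1 := by
      rintro ⟨y, ⟨k, hk⟩⟩
      change π (s y + k) = y
      rw [map_add, hs', hk, add_zero]
    rw [← e.tsum_eq (fun α => F (π α))]
    have h3 : ∑' q : H × {g : G // π g = 0}, F (π (e q)) = ∑' q : H × {g : G // π g = 0}, F q.1 :=
      tsum_congr fun q => by rw [h2]
    rw [h3, ENNReal.tsum_prod (f := fun (y : H) (_ : {g : G // π g = 0}) => F y), ← ENNReal.tsum_mul_left]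
    refine tsum_congr fun y => ?_
    rw [tsum_fintype, sum_const, card_univ, nsmul_eq_mul]

/-- the composition of the Taylor shift and the dilation as an additive map -/
private noncomputable def ker_map {k : ℕ} (p a : ℕ) (x : ℤ) : V k →+ V k where
  toFun α := DD p a (TT x α)
  map_zero' := by rw [TT_map_zero, DD_map_zero]
  map_add' α β := by rw [TT_add, DD_add]

private theorem ker_TT {k : ℕ} (x : ℤ) (γ : V k) : TT x (TT (-x) γ) = γ := by
  rw [← TT_shift, neg_add_cancel, TT_zero]

theorem DT_surj {k p : ℕ} (hp : 0 < p) (a : ℕ) (x : ℤ) (β : V k) : ∃ α : V k, DD p a (TT x α) = β := by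
  have h1 : ∀ m : Fin k, ∃ u : UnitAddCircle, ((p : ℤ) ^ (a * ((m : ℕ) + 1))) • u = β m := fun m =>
    ker_div (β m) (pow_ne_zero _ (by exact_mod_cast hp.ne'))
  choose γ hγ using h1
  refine ⟨TT (-x) γ, ?_⟩
  rw [ker_TT]
  funext m
  exact hγ m

theorem tsum_DT {k p : ℕ} (hp : 0 < p) (a : ℕ) (x : ℤ) : ∃ c : ℝ≥0∞, c ≠ 0 ∧ c ≠ ⊤ ∧
    ∀ F : V k → ℝ≥0∞, ∑' α : V k, F (DD p a (TT x α)) = c * ∑' α : V k, F α := by
  have h1 : {g : V k | (ker_map (k := k) p a x) g = 0}.Finite := by
    have h2 : (Set.pi Set.univ fun m : Fin k => {u : UnitAddCircle | ((p : ℤ) ^ (a * ((m : ℕ) + 1))) • u = 0}).Finite :=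
      Set.Finite.pi fun m => ker_pow hp _
    refine Set.Finite.of_injOn (f := TT x) (t := Set.pi Set.univ fun m : Fin k =>
      {u : UnitAddCircle | ((p : ℤ) ^ (a * ((m : ℕ) + 1))) • u = 0}) ?_ ?_ h2
    · intro g hg m _
      have h3 : DD p a (TT x g) = 0 := hg
      exact congrFun h3 m
    · intro g _ g' _ h
      have h4 : TT (-x) (TT x g) = g := by
        have := ker_TT (-x) g
        rwa [neg_neg] at this
      have h5 : TT (-x) (TT x g') = g' := by
        have := ker_TT (-x) g'
        rwa [neg_neg] at this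
      rw [← h4, ← h5, h]
  exact ker_tsum (ker_map p a x) (DT_surj hp a x) h1

/-- the torsion of exponent `p^N` is finite -/
theorem tor_finite (k : ℕ) {p : ℕ} (hp : 0 < p) (N : ℕ) : {τ : V k | ((p : ℤ) ^ N) • τ = 0}.Finite := by
  have h2 : (Set.pi Set.univ fun _ : Fin k => {u : UnitAddCircle | ((p : ℤ) ^ N) • u = 0}).Finite :=
    Set.Finite.pi fun _ => ker_pow hp _
  refine h2.subset fun τ hτ m _ => ?_
  have h3 : ((p : ℤ) ^ N) • τ = 0 := hτ
  exact congrFun h3 m

/-- the torsion of exponent `p^N` -/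
noncomputable def tor (k p N : ℕ) : Finset (V k) := open Classical in
  if h : 0 < p then (tor_finite k h N).toFinset else ∅

theorem mem_tor {k p N : ℕ} (hp : 0 < p) {τ : V k} : τ ∈ tor k p N ↔ ((p : ℤ) ^ N) • τ = 0 := by
  unfold tor
  rw [dif_pos hp, Set.Finite.mem_toFinset]
  exact Iff.rfl

end Pool.Agent.Lib.VM
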