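import Pool.Agent.Lib.VM.QIb
import Pool.Agent.Lib.VM.Ker

/-!
# VM / Res: affine rescaling

PROOF. Write `n = x + p^a z_n` for `n ∈ S` and `π α = DD a (TT x α)` (surjective, `DT_surj`; choose a section `s`). `g_n α = chi (-(ph x α)) f_n α`
is invariant under the kernel of `π` (`QI_mono` gives `QI x a (f_n)`), so `g_n = h_n ∘ π`, `h_n β = g_n (s β)`. `h_n` is `QI z_n (B-a)`: for
`β' = π β` one has `DD (B-a) (TT z_n β') = DD (B-a) (TT z_n (DD a (TT x β))) = DD (B-a) (DD a (TT (p^a z_n) (TT x β))) = DD B (TT n β)`,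
and `ph n β = ph x β + ph (p^a z_n) (TT x β) = ph x β + ph z_n (π β)`. The `z_n` are pairwise incongruent modulo `p^(B-a)`. Apply the
hypothesis to the family `h` over the image of `S` under `n ↦ z_n = (n - x)/p^a`; `‖∑ f_n α‖ = ‖∑ g_n α‖ = ‖∑ h_n (π α)‖`, and `tsum_DT` turns
every sum into `c` times the sum over `β`; the constant `c` occurs on both sides to the power `1` (`(c^(1/t))^t = c`).
-/

set_option autoImplicit false

open Finset
open scoped ENNReal

namespace Pool.Agent.Lib.VM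

/-- the descended function -/
private noncomputable def resH {k : ℕ} (p a : ℕ) (x : ℤ) (s : V k → V k) (f : ℤ → V k → ℂ) (z : ℤ) : V k → ℂ :=
  fun β => chi (-(ph x (s β))) * f (x + (p : ℤ) ^ a * z) (s β)

private theorem resH_pi {k p a : ℕ} (x : ℤ) {s : V k → V k} (hs : ∀ β, DD p a (TT x (s β)) = β) {f : ℤ → V k → ℂ} (z : ℤ)
    (hf : QI p x a (f (x + (p : ℤ) ^ a * z))) (α : V k) :
    resH p a x s f z (DD p a (TT x α)) = chi (-(ph x α)) * f (x + (p : ℤ) ^ a * z) α := by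
  have h1 : α = s (DD p a (TT x α)) + (α - s (DD p a (TT x α))) := by abel
  have h2 : DD p a (TT x (α - s (DD p a (TT x α)))) = 0 := by
    have h3 : DD p a (TT x α) = DD p a (TT x (s (DD p a (TT x α)))) + DD p a (TT x (α - s (DD p a (TT x α)))) := by
      rw [← DD_add, ← TT_add, ← h1]
    rw [hs] at h3
    exact (left_eq_add.mp h3)
  have h4 := hf (s (DD p a (TT x α))) (α - s (DD p a (TT x α))) h2
  rw [← h1] at h4
  rw [h4, ← mul_assoc, ← chi_add]
  unfold resH
  have h5 : -(ph x (s (DD p a (TT x α)))) = -(ph x α) + ph x (α - s (DD p a (TT x α))) := by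
    have h6 := ph_add x (s (DD p a (TT x α))) (α - s (DD p a (TT x α)))
    rw [← h1] at h6
    rw [h6]
    abel
  rw [h5]

private theorem resH_QI {k p a B : ℕ} (ha : a ≤ B) (x : ℤ) {s : V k → V k} (hs : ∀ β, DD p a (TT x (s β)) = β)
    {f : ℤ → V k → ℂ} (z : ℤ) (hf : QI p (x + (p : ℤ) ^ a * z) B (f (x + (p : ℤ) ^ a * z))) :
    QI p z (B - a) (resH p a x s f z) := by
  have hf' : QI p x a (f (x + (p : ℤ) ^ a * z)) := QI_mono ha (by simp) hf
  intro α' β' h0
  have e1 : DD p a (TT x (s α' + s β')) = α' + β' := by rw [TT_add, DD_add, hs, hs]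
  have e2 := resH_pi x hs z hf' (s α' + s β')
  rw [e1] at e2
  have e3 := resH_pi x hs z hf' (s α')
  rw [hs] at e3
  have e4 : DD p B (TT (x + (p : ℤ) ^ a * z) (s β')) = 0 := by
    have hB : B = (B - a) + a := by omega
    rw [hB, DD_DD, TT_shift, DD_TT, hs, h0]
  have e5 := hf (s α') (s β') e4
  have e6 : ph (x + (p : ℤ) ^ a * z) (s β') = ph x (s β') + ph z β' := by
    rw [ph_shift, ph_DD, hs]
  rw [e2, e3, e5, ← mul_assoc, ← mul_assoc, ← chi_add, ← chi_add, e6, ph_add]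
  congr 2
  abel

private theorem res_root {t : ℕ} (ht : 1 ≤ t) (y : ℝ≥0∞) : (y ^ (1 / (t : ℝ))) ^ t = y := by
  have ht0 : (t : ℝ) ≠ 0 := by
    have : t ≠ 0 := by omega
    exact_mod_cast this
  rw [← ENNReal.rpow_natCast, ← ENNReal.rpow_mul, one_div, inv_mul_cancel₀ ht0, ENNReal.rpow_one]

theorem rescale {k p a B : ℕ} (hk : 1 ≤ k) (hp : p.Prime) (ha : a ≤ B) {E : ℝ≥0∞} (hD : Dec k p (B - a) E) (x : ℤ)
    {S : Finset ℤ} {f : ℤ → V k → ℂ} (hS : Inc p B S) (hx : ∀ n ∈ S, (p : ℤ) ^ a ∣ n - x) (hf : ∀ n ∈ S, QI p n B (f n)) :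
    ∑' α : V k, ‖∑ n ∈ S, f n α‖ₑ ^ (2 * tri k) ≤ E * (∑ n ∈ S, sq (tri k) (f n)) ^ (tri k) := by
  classical
  have ht : 1 ≤ tri k := by
    unfold tri
    rw [Nat.le_div_iff_mul_le (by norm_num)]
    nlinarith
  have hP : (p : ℤ) ^ a ≠ 0 := pow_ne_zero _ (by exact_mod_cast hp.pos.ne')
  choose s hs using (fun β : V k => DT_surj hp.pos a x β)
  obtain ⟨c, -, -, hc⟩ := tsum_DT (k := k) hp.pos a x
  have hz : ∀ n ∈ S, x + (p : ℤ) ^ a * ((n - x) / (p : ℤ) ^ a) = n := by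
    intro n hn
    rw [Int.mul_ediv_cancel' (hx n hn)]
    ring
  have hinj : ∀ m ∈ S, ∀ n ∈ S, (m - x) / (p : ℤ) ^ a = (n - x) / (p : ℤ) ^ a → m = n := by
    intro m hm n hn h
    rw [← hz m hm, ← hz n hn, h]
  -- the functions
  have hQ : ∀ n ∈ S, QI p x a (f n) := fun n hn => QI_mono ha (hx n hn) (hf n hn)
  have key : ∀ n ∈ S, ∀ α, resH p a x s f ((n - x) / (p : ℤ) ^ a) (DD p a (TT x α)) = chi (-(ph x α)) * f n α := by
    intro n hn α
    have h1 := resH_pi (f := f) x hs ((n - x) / (p : ℤ) ^ a) (by rw [hz n hn]; exact hQ n hn) α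
    rw [hz n hn] at h1
    exact h1
  -- the hypothesis for the image
  have hInc : Inc p (B - a) (S.image fun n => (n - x) / (p : ℤ) ^ a) := by
    intro m hm n hn hd
    simp only [Finset.mem_image] at hm hn
    obtain ⟨m, hm, rfl⟩ := hm
    obtain ⟨n, hn, rfl⟩ := hn
    have h1 : m = n := by
      apply hS m hm n hn
      have h2 : m - n = (p : ℤ) ^ a * ((m - x) / (p : ℤ) ^ a - (n - x) / (p : ℤ) ^ a) := by
        have h3 := hz m hm
        have h4 := hz n hn
        rw [mul_sub]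
        linarith
      rw [h2, show B = a + (B - a) by omega, pow_add]
      have h3 : (a + (B - a)) - a = B - a := by omega
      exact mul_dvd_mul_left _ (by simpa [h3] using hd)
    rw [h1]
  have hQI : ∀ z ∈ S.image (fun n => (n - x) / (p : ℤ) ^ a), QI p z (B - a) (resH p a x s f z) := by
    intro z hz'
    simp only [Finset.mem_image] at hz'
    obtain ⟨n, hn, rfl⟩ := hz'
    apply resH_QI ha x hs
    rw [hz n hn]
    exact hf n hn
  have hmain := hD _ (resH p a x s f) hInc hQI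
  -- the sums
  have hsum : ∀ α : V k, ‖∑ n ∈ S, f n α‖ₑ =
      ‖∑ z ∈ S.image (fun n => (n - x) / (p : ℤ) ^ a), resH p a x s f z (DD p a (TT x α))‖ₑ := by
    intro α
    rw [Finset.sum_image (fun m hm n hn h => hinj m hm n hn h), Finset.sum_congr rfl (fun n hn => key n hn α), ← Finset.mul_sum,
      enorm_mul, enorm_chi, one_mul]
  have hsq : ∀ n ∈ S, sq (tri k) (f n) = c ^ (1 / (tri k : ℝ)) * sq (tri k) (resH p a x s f ((n - x) / (p : ℤ) ^ a)) := by
    intro n hn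
    unfold sq
    rw [← ENNReal.mul_rpow_of_nonneg _ _ (by positivity), ← hc]
    congr 1
    refine tsum_congr fun α => ?_
    rw [key n hn α, enorm_mul, enorm_chi, one_mul]
  calc ∑' α : V k, ‖∑ n ∈ S, f n α‖ₑ ^ (2 * tri k)
      = ∑' α : V k, (fun β : V k => ‖∑ z ∈ S.image (fun n => (n - x) / (p : ℤ) ^ a), resH p a x s f z β‖ₑ ^ (2 * tri k))
          (DD p a (TT x α)) := tsum_congr fun α => by rw [hsum α]
    _ = c * ∑' β : V k, ‖∑ z ∈ S.image (fun n => (n - x) / (p : ℤ) ^ a), resH p a x s f z β‖ₑ ^ (2 * tri k) :=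
        hc (fun β : V k => ‖∑ z ∈ S.image (fun n => (n - x) / (p : ℤ) ^ a), resH p a x s f z β‖ₑ ^ (2 * tri k))
    _ ≤ c * (E * (∑ z ∈ S.image (fun n => (n - x) / (p : ℤ) ^ a), sq (tri k) (resH p a x s f z)) ^ (tri k)) := by gcongr
    _ = E * (∑ n ∈ S, sq (tri k) (f n)) ^ (tri k) := by
        rw [Finset.sum_congr rfl hsq, ← Finset.mul_sum, mul_pow, res_root ht,
          Finset.sum_image (fun m hm n hn h => hinj m hm n hn h)]
        ring

end Pool.Agent.Lib.VM
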