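import Pool.Agent.Lib.VM.Alg

/-!
# VM / QIb: quasi-invariant functions

PROOF. `QI_mono`: `x' = x + p^a z`; if `DD a (TT x β) = 0` then `TT x' β = TT (p^a z) (TT x β)` (`TT_shift`), so `DD a (TT x' β) =
TT z (DD a (TT x β)) = 0` (`DD_TT`), hence `DD a' (TT x' β) = DD (a'-a) (DD a ..) = 0`; and `ph x' β = ph x β + ph (p^a z) (TT x β) =
ph x β + ph z (DD a (TT x β)) = ph x β`. `QI_shift`: `TT x (TT (-y) β) = TT (x-y) β` and `ph (x-y) β = ph (-y) β + ph x (TT (-y) β)`.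
`tsum_TT`: `TT x` is a bijection with inverse `TT (-x)` (`Equiv.tsum_eq`).
-/

set_option autoImplicit false

open Finset
open scoped ENNReal

namespace Pool.Agent.Lib.VM

theorem QI_mono {k p : ℕ} {x x' : ℤ} {a a' : ℕ} {f : V k → ℂ} (ha : a ≤ a') (hx : (p : ℤ) ^ a ∣ x' - x) (h : QI p x' a' f) :
    QI p x a f := by
  intro α β hβ
  obtain ⟨z, hz⟩ := hx
  have hx' : x' = x + (p : ℤ) ^ a * z := by linarith
  have h1 : DD p a (TT x' β) = 0 := by
    rw [hx', TT_shift, DD_TT, hβ, TT_map_zero]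
  have h2 : DD p a' (TT x' β) = 0 := by
    have h3 : a' = (a' - a) + a := by omega
    rw [h3, DD_DD, h1, DD_map_zero]
  have h4 : ph x' β = ph x β := by
    rw [hx', ph_shift, ph_DD, hβ, ph_map_zero, add_zero]
  rw [h α β h2, h4]

theorem QI_sum {k p : ℕ} {x : ℤ} {a : ℕ} {ι : Type*} (S : Finset ι) {f : ι → V k → ℂ} (h : ∀ i ∈ S, QI p x a (f i)) :
    QI p x a (fun α => ∑ i ∈ S, f i α) := by
  intro α β hβ
  simp only
  rw [Finset.mul_sum]
  exact Finset.sum_congr rfl fun i hi => h i hi α β hβ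

theorem QI_enorm {k p : ℕ} {x : ℤ} {a : ℕ} {f : V k → ℂ} (h : QI p x a f) {β : V k} (hβ : DD p a (TT x β) = 0) (α : V k) :
    ‖f (α + β)‖ₑ = ‖f α‖ₑ := by
  rw [h α β hβ, enorm_mul, enorm_chi, one_mul]

/-- translation of the parameter by `y` -/
noncomputable def shF {k : ℕ} (y : ℤ) (f : V k → ℂ) : V k → ℂ := fun α => chi (ph (-y) α) * f (TT (-y) α)

theorem QI_shift {k p : ℕ} {x : ℤ} {a : ℕ} {f : V k → ℂ} (y : ℤ) (h : QI p x a f) : QI p (x - y) a (shF y f) := by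
  intro α β hβ
  have hxy : x - y = -y + x := by ring
  rw [hxy, TT_shift] at hβ
  have h1 := h (TT (-y) α) (TT (-y) β) hβ
  simp only [shF]
  rw [ph_add, TT_add, h1, chi_add, hxy, ph_shift, chi_add]
  ring

theorem shF_sum {k : ℕ} {ι : Type*} (y : ℤ) (S : Finset ι) (f : ι → V k → ℂ) (α : V k) :
    ∑ i ∈ S, shF y (f i) α = shF y (fun β => ∑ i ∈ S, f i β) α := by
  simp only [shF]
  rw [Finset.mul_sum]

theorem enorm_shF {k : ℕ} (y : ℤ) (f : V k → ℂ) (α : V k) : ‖shF y f α‖ₑ = ‖f (TT (-y) α)‖ₑ := by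
  simp only [shF]
  rw [enorm_mul, enorm_chi, one_mul]

theorem tsum_TT {k : ℕ} (x : ℤ) (F : V k → ℝ≥0∞) : ∑' α : V k, F (TT x α) = ∑' α : V k, F α := by
  let e : V k ≃ V k :=
    { toFun := TT x
      invFun := TT (-x)
      left_inv := fun α => by rw [← TT_shift, add_neg_cancel, TT_zero]
      right_inv := fun α => by rw [← TT_shift, neg_add_cancel, TT_zero] }
  exact Equiv.tsum_eq e F

theorem sq_shF {k t : ℕ} (y : ℤ) (f : V k → ℂ) : sq t (shF y f) = sq t f := by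
  simp only [sq, enorm_shF]
  rw [tsum_TT (-y) (fun α => ‖f α‖ₑ ^ (2 * t))]

end Pool.Agent.Lib.VM
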