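import Pool.Agent.Lib.VM.Ker
import Pool.Agent.Lib.VM.Mink
import Pool.Agent.Lib.VM.QIb

/-!
# VM / Triv: trivial bounds and the case of degree one

PROOF. `dec_triv`: `S` has at most `p^B` elements (pairwise incongruent); `‖∑ f_n‖^2 ≤ |S| ∑ ‖f_n‖^2` (Cauchy-Schwarz, for norms of complex
numbers), so `‖∑ f_n‖^(2t) ≤ |S|^t (∑ ‖f_n‖^2)^t` and `mink` with `w = 1`, `u_n = ‖f_n‖^(2t)` (`(‖f_n‖^(2t))^(1/t) = ‖f_n‖^2`), `t = tri k ≥ 1`.
`dec_one` (`tri 1 = 1`): average over `β ∈ tor 1 p B`: `∑'_α F α = |tor|^(-1) ∑'_α ∑_β F(α+β)`; for fixed `α`, `∑_β ‖∑_n f_n(α+β)‖^2 =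
∑_β ‖∑_n chi(n β) f_n(α)‖^2 = |tor| ∑_n ‖f_n(α)‖^2` because `∑_β chi((n-m) β) = 0` for `m ≠ n` in `S` (`(n-m) β ≠ 0` for some `β` in the
torsion group as `p^B` does not divide `n - m`; substitution `β → β + β_0`).
-/

set_option autoImplicit false

open Finset
open scoped ENNReal

namespace Pool.Agent.Lib.VM

theorem inc_card {p B : ℕ} (hp : 0 < p) {S : Finset ℤ} (hS : Inc p B S) : S.card ≤ p ^ B := by
  classical
  have hpB : p ^ B ≠ 0 := (pow_pos hp B).ne'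
  have : NeZero (p ^ B) := ⟨hpB⟩
  have h : S.card ≤ (Finset.univ : Finset (ZMod (p ^ B))).card := by
    refine Finset.card_le_card_of_injOn (fun n : ℤ => (n : ZMod (p ^ B))) (fun _ _ => Finset.mem_coe.2 (Finset.mem_univ _)) ?_
    intro m hm n hn hmn
    refine hS m hm n hn ?_
    have h1 : ((m - n : ℤ) : ZMod (p ^ B)) = 0 := by
      have h2 : (m : ZMod (p ^ B)) = (n : ZMod (p ^ B)) := hmn
      rw [Int.cast_sub, h2, sub_self]
    have h3 := (ZMod.intCast_zmod_eq_zero_iff_dvd (m - n) (p ^ B)).1 h1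
    rwa [Nat.cast_pow] at h3
  rwa [Finset.card_univ, ZMod.card] at h

private theorem triv_cs {ι : Type*} (S : Finset ι) (c : ι → ℂ) : ‖∑ n ∈ S, c n‖ₑ ^ 2 ≤ (S.card : ℝ≥0∞) * ∑ n ∈ S, ‖c n‖ₑ ^ 2 := by
  have h1 : ‖∑ n ∈ S, c n‖₊ ^ 2 ≤ (S.card : NNReal) * ∑ n ∈ S, ‖c n‖₊ ^ 2 :=
    (pow_le_pow_left' (nnnorm_sum_le S c) 2).trans sq_sum_le_card_mul_sum_sq
  have h2 : ((‖∑ n ∈ S, c n‖₊ ^ 2 : NNReal) : ℝ≥0∞) ≤ (((S.card : NNReal) * ∑ n ∈ S, ‖c n‖₊ ^ 2 : NNReal) : ℝ≥0∞) :=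
    ENNReal.coe_le_coe.2 h1
  push_cast at h2
  exact h2

private theorem triv_root {t : ℕ} (ht : 1 ≤ t) (x : ℝ≥0∞) : (x ^ (2 * t)) ^ (1 / (t : ℝ)) = x ^ 2 := by
  have ht0 : (t : ℝ) ≠ 0 := by
    have : t ≠ 0 := by omega
    exact_mod_cast this
  rw [pow_mul, ← ENNReal.rpow_natCast (x ^ 2) t, ← ENNReal.rpow_mul, one_div, mul_inv_cancel₀ ht0, ENNReal.rpow_one]

private theorem triv_tri {k : ℕ} (hk : 1 ≤ k) : 1 ≤ tri k := by
  unfold tri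
  rw [Nat.le_div_iff_mul_le (by norm_num)]
  nlinarith

theorem dec_triv {k p : ℕ} (hk : 1 ≤ k) (hp : 0 < p) (B : ℕ) : Dec k p B ((p : ℝ≥0∞) ^ (B * tri k)) := by
  intro S f hS _
  have ht : 1 ≤ tri k := triv_tri hk
  generalize tri k = t at *
  have hcard : (S.card : ℝ≥0∞) ≤ (p : ℝ≥0∞) ^ B := by
    have h := inc_card hp hS
    exact_mod_cast h
  have h1 : ∀ α : V k, ‖∑ n ∈ S, f n α‖ₑ ^ (2 * t) ≤ (p : ℝ≥0∞) ^ (B * t) * (1 * (∑ n ∈ S, (‖f n α‖ₑ ^ (2 * t)) ^ (1 / (t : ℝ))) ^ t) := by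
    intro α
    simp only [triv_root ht]
    calc ‖∑ n ∈ S, f n α‖ₑ ^ (2 * t) = (‖∑ n ∈ S, f n α‖ₑ ^ 2) ^ t := pow_mul _ _ _
      _ ≤ ((S.card : ℝ≥0∞) * ∑ n ∈ S, ‖f n α‖ₑ ^ 2) ^ t := pow_le_pow_left' (triv_cs S fun n => f n α) t
      _ ≤ ((p : ℝ≥0∞) ^ B * ∑ n ∈ S, ‖f n α‖ₑ ^ 2) ^ t := pow_le_pow_left' (by gcongr) t
      _ = _ := by rw [mul_pow, ← pow_mul, one_mul]
  calc ∑' α : V k, ‖∑ n ∈ S, f n α‖ₑ ^ (2 * t)
      ≤ ∑' α : V k, (p : ℝ≥0∞) ^ (B * t) * (1 * (∑ n ∈ S, (‖f n α‖ₑ ^ (2 * t)) ^ (1 / (t : ℝ))) ^ t) := ENNReal.tsum_le_tsum h1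
    _ = (p : ℝ≥0∞) ^ (B * t) * ∑' α : V k, (1 * (∑ n ∈ S, (‖f n α‖ₑ ^ (2 * t)) ^ (1 / (t : ℝ))) ^ t) := ENNReal.tsum_mul_left
    _ ≤ (p : ℝ≥0∞) ^ (B * t) * (∑ n ∈ S, (∑' α : V k, 1 * ‖f n α‖ₑ ^ (2 * t)) ^ (1 / (t : ℝ))) ^ t := by
        gcongr
        exact mink S ht (fun _ => 1) (fun n α => ‖f n α‖ₑ ^ (2 * t))
    _ = (p : ℝ≥0∞) ^ (B * t) * (∑ n ∈ S, sq t (f n)) ^ t := by
        simp only [one_mul, sq]

private theorem triv_chi_neg (u : UnitAddCircle) : (starRingEnd ℂ) (chi u) = chi (-u) := by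
  unfold chi
  rw [AddCircle.toCircle_neg, Circle.coe_inv_eq_conj]

private theorem triv_chi_one {u : UnitAddCircle} (h : chi u = 1) : u = 0 := by
  have h1 : AddCircle.toCircle u = AddCircle.toCircle (0 : UnitAddCircle) := by
    apply Circle.ext
    rw [AddCircle.toCircle_zero, Circle.coe_one]
    exact h
  exact AddCircle.injective_toCircle one_ne_zero h1

private theorem triv_ph (n : ℤ) (β : V 1) : ph n β = n • β 0 := by
  simp [ph]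

private theorem triv_TT (n : ℤ) (β : V 1) : TT n β = β := by
  funext m
  have hm : m = 0 := Subsingleton.elim _ _
  subst hm
  simp [TT]

private theorem triv_DD (p B : ℕ) (β : V 1) : DD p B β = ((p : ℤ) ^ B) • β := by
  funext m
  have hm : m = 0 := Subsingleton.elim _ _
  subst hm
  simp [DD]

/-- orthogonality of the characters of the torsion group -/
private theorem triv_orth {p B : ℕ} (hp : 0 < p) {d : ℤ} (hd : ¬ (p : ℤ) ^ B ∣ d) :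
    ∑ β ∈ tor 1 p B, chi (d • β 0) = 0 := by
  classical
  have hpB : ((p : ℝ) ^ B) ≠ 0 := pow_ne_zero _ (by exact_mod_cast hp.ne')
  set u : UnitAddCircle := ((1 / (p : ℝ) ^ B : ℝ) : UnitAddCircle) with hu
  set β0 : V 1 := fun _ => u with hβ0
  have h1 : ((p : ℤ) ^ B) • u = 0 := by
    rw [hu, ← AddCircle.coe_zsmul, zsmul_eq_mul]
    push_cast
    rw [mul_one_div_cancel hpB]
    exact AddCircle.coe_period 1
  have h0 : β0 ∈ tor 1 p B := by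
    rw [mem_tor hp]
    funext m
    exact h1
  have hne : chi (d • u) ≠ 1 := by
    intro h
    have h2 := triv_chi_one h
    rw [hu, ← AddCircle.coe_zsmul, zsmul_eq_mul, AddCircle.coe_eq_zero_iff] at h2
    obtain ⟨n, hn⟩ := h2
    apply hd
    refine ⟨n, ?_⟩
    have h3 : (d : ℝ) = (p : ℝ) ^ B * n := by
      rw [zsmul_eq_mul, mul_one] at hn
      field_simp at hn
      linarith
    exact_mod_cast h3
  have h2 : ∑ β ∈ tor 1 p B, chi (d • β 0) = ∑ β ∈ tor 1 p B, chi (d • (β + β0) 0) := by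
    symm
    refine Finset.sum_nbij' (fun β => β + β0) (fun β => β - β0) ?_ ?_ ?_ ?_ ?_
    · intro β hβ
      rw [mem_tor hp] at hβ h0 ⊢
      rw [smul_add, hβ, h0, add_zero]
    · intro β hβ
      rw [mem_tor hp] at hβ h0 ⊢
      rw [smul_sub, hβ, h0, sub_zero]
    · intro β _
      exact add_sub_cancel_right _ _
    · intro β _
      exact sub_add_cancel _ _
    · intro β _
      rfl
  have h3 : ∑ β ∈ tor 1 p B, chi (d • (β + β0) 0) = (∑ β ∈ tor 1 p B, chi (d • β 0)) * chi (d • u) := by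
    rw [Finset.sum_mul]
    refine Finset.sum_congr rfl fun β _ => ?_
    rw [Pi.add_apply, smul_add, chi_add]
  rw [h3] at h2
  have h4 : (∑ β ∈ tor 1 p B, chi (d • β 0)) * (1 - chi (d • u)) = 0 := by
    linear_combination h2
  rcases mul_eq_zero.1 h4 with h5 | h5
  · exact h5
  · exact absurd (sub_eq_zero.1 h5).symm hne

private theorem triv_chi_sub (m n : ℤ) (v : UnitAddCircle) : chi (n • v) * (starRingEnd ℂ) (chi (m • v)) = chi ((n - m) • v) := by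
  rw [triv_chi_neg, ← chi_add, sub_smul, sub_eq_add_neg]

/-- Parseval on the torsion group -/
private theorem triv_pars {p B : ℕ} (hp : 0 < p) {S : Finset ℤ} (hS : Inc p B S) (c : ℤ → ℂ) :
    ∑ β ∈ tor 1 p B, ‖∑ n ∈ S, chi (n • β 0) * c n‖ ^ 2 = ((tor 1 p B).card : ℝ) * ∑ n ∈ S, ‖c n‖ ^ 2 := by
  classical
  have key : ∑ β ∈ tor 1 p B, (∑ n ∈ S, chi (n • β 0) * c n) * (starRingEnd ℂ) (∑ n ∈ S, chi (n • β 0) * c n) =
      ((tor 1 p B).card : ℂ) * ∑ n ∈ S, c n * (starRingEnd ℂ) (c n) := by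
    have h1 : ∀ β : V 1, (∑ n ∈ S, chi (n • β 0) * c n) * (starRingEnd ℂ) (∑ n ∈ S, chi (n • β 0) * c n) =
        ∑ n ∈ S, ∑ m ∈ S, chi ((n - m) • β 0) * (c n * (starRingEnd ℂ) (c m)) := by
      intro β
      rw [map_sum, Finset.sum_mul_sum]
      refine Finset.sum_congr rfl fun n _ => Finset.sum_congr rfl fun m _ => ?_
      rw [map_mul, ← triv_chi_sub m n]
      ring
    simp only [h1]
    rw [Finset.sum_comm, Finset.mul_sum]
    refine Finset.sum_congr rfl fun n hn => ?_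
    rw [Finset.sum_comm, Finset.sum_eq_single n]
    · rw [← Finset.sum_mul]
      simp [chi_zero]
    · intro m hm hmn
      rw [← Finset.sum_mul, triv_orth hp, zero_mul]
      intro h
      exact hmn (hS n hn m hm h).symm
    · intro h
      exact absurd hn h
  have hcast : ∀ z : ℂ, z * (starRingEnd ℂ) z = ((‖z‖ ^ 2 : ℝ) : ℂ) := by
    intro z
    rw [Complex.mul_conj, Complex.normSq_eq_norm_sq]
  simp only [hcast] at key
  have : ((∑ β ∈ tor 1 p B, ‖∑ n ∈ S, chi (n • β 0) * c n‖ ^ 2 : ℝ) : ℂ) =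
      ((((tor 1 p B).card : ℝ) * ∑ n ∈ S, ‖c n‖ ^ 2 : ℝ) : ℂ) := by
    push_cast
    push_cast at key
    exact key
  exact_mod_cast this

private theorem triv_enorm_sq (z : ℂ) : ‖z‖ₑ ^ 2 = ENNReal.ofReal (‖z‖ ^ 2) := by
  rw [ENNReal.ofReal_pow (norm_nonneg z), ofReal_norm]

private theorem triv_parsE {p B : ℕ} (hp : 0 < p) {S : Finset ℤ} (hS : Inc p B S) (c : ℤ → ℂ) :
    ∑ β ∈ tor 1 p B, ‖∑ n ∈ S, chi (n • β 0) * c n‖ₑ ^ 2 = ((tor 1 p B).card : ℝ≥0∞) * ∑ n ∈ S, ‖c n‖ₑ ^ 2 := by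
  have h := triv_pars hp hS c
  simp only [triv_enorm_sq]
  rw [← ENNReal.ofReal_sum_of_nonneg (fun _ _ => sq_nonneg _), ← ENNReal.ofReal_sum_of_nonneg (fun _ _ => sq_nonneg _), h,
    ENNReal.ofReal_mul (Nat.cast_nonneg _), ENNReal.ofReal_natCast]

theorem dec_one {p : ℕ} (hp : p.Prime) (B : ℕ) : Dec 1 p B 1 := by
  classical
  intro S f hS hf
  have ht : tri 1 = 1 := by decide
  rw [ht]
  have hsq : ∀ n : ℤ, sq 1 (f n) = ∑' α : V 1, ‖f n α‖ₑ ^ 2 := by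
    intro n
    simp [sq]
  simp only [hsq, mul_one, one_mul, pow_one]
  have hcard0 : ((tor 1 p B).card : ℝ≥0∞) ≠ 0 := by
    have : (0 : V 1) ∈ tor 1 p B := by
      rw [mem_tor hp.pos, smul_zero]
    have h := Finset.card_pos.2 ⟨_, this⟩
    exact_mod_cast h.ne'
  have hcardT : ((tor 1 p B).card : ℝ≥0∞) ≠ ⊤ := ENNReal.natCast_ne_top _
  have h1 : ∀ β : V 1, ∑' α : V 1, ‖∑ n ∈ S, f n (α + β)‖ₑ ^ 2 = ∑' α : V 1, ‖∑ n ∈ S, f n α‖ₑ ^ 2 := by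
    intro β
    exact (Equiv.addRight β).tsum_eq (fun α : V 1 => ‖∑ n ∈ S, f n α‖ₑ ^ 2)
  have h2 : ∀ β ∈ tor 1 p B, ∀ α : V 1, ∑ n ∈ S, f n (α + β) = ∑ n ∈ S, chi (n • β 0) * f n α := by
    intro β hβ α
    refine Finset.sum_congr rfl fun n hn => ?_
    rw [hf n hn α β ?_, triv_ph]
    rw [triv_TT, triv_DD]
    exact (mem_tor hp.pos).1 hβ
  have h3 : ((tor 1 p B).card : ℝ≥0∞) * ∑' α : V 1, ‖∑ n ∈ S, f n α‖ₑ ^ 2 =
      ((tor 1 p B).card : ℝ≥0∞) * ∑ n ∈ S, ∑' α : V 1, ‖f n α‖ₑ ^ 2 := by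
    calc ((tor 1 p B).card : ℝ≥0∞) * ∑' α : V 1, ‖∑ n ∈ S, f n α‖ₑ ^ 2
        = ∑ β ∈ tor 1 p B, ∑' α : V 1, ‖∑ n ∈ S, f n (α + β)‖ₑ ^ 2 := by
          rw [Finset.sum_congr rfl fun β _ => h1 β, Finset.sum_const, nsmul_eq_mul]
      _ = ∑' α : V 1, ∑ β ∈ tor 1 p B, ‖∑ n ∈ S, f n (α + β)‖ₑ ^ 2 := by
          rw [Summable.tsum_finsetSum fun _ _ => ENNReal.summable]
      _ = ∑' α : V 1, ((tor 1 p B).card : ℝ≥0∞) * ∑ n ∈ S, ‖f n α‖ₑ ^ 2 := by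
          refine tsum_congr fun α => ?_
          rw [← triv_parsE hp.pos hS (fun n => f n α)]
          exact Finset.sum_congr rfl fun β hβ => by rw [h2 β hβ α]
      _ = ((tor 1 p B).card : ℝ≥0∞) * ∑ n ∈ S, ∑' α : V 1, ‖f n α‖ₑ ^ 2 := by
          rw [ENNReal.tsum_mul_left, Summable.tsum_finsetSum fun _ _ => ENNReal.summable]
  exact ((ENNReal.mul_right_inj hcard0 hcardT).1 h3).le

end Pool.Agent.Lib.VM
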