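import Pool.Agent.Lib.VM.QIb
import Pool.Agent.Lib.VM.Mink
import Pool.Agent.Lib.VM.Triv
import Pool.Agent.Lib.VM.Res

/-!
# VM / BN: from the bilinear to the linear inequality (broad / narrow)

PROOF. `T = tri k`, `t = tri l`. For a residue `r` modulo `p` let `F_r = ∑_{n ∈ S, n ≡ r (p)} f_n`. POINTWISE: `‖∑_r F_r‖^(2T) ≤ 2^(2T) ∑_r ‖F_r‖^(2T) +
p^(3T) ∑_{r ≠ r'} ‖F_r‖^T ‖F_r'‖^T`: let `M = ‖F_s‖` be the maximum; if the sum of the others is `≤ M` then `‖F‖ ≤ 2M`; otherwise some `r ≠ s` has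
`‖F_r‖ ≥ M/p`, `‖F‖ ≤ p M`, `‖F‖^2 ≤ p^2 M^2 ≤ p^3 ‖F_s‖ ‖F_r‖`. NARROW: `∑' ‖F_r‖^(2T) ≤ E1 (∑_{n ≡ r} sq f_n)^T` (`rescale` with `a = 1`), and
`sum_pow_le`. BROAD, `r ≠ r'`: split `F_r` into the sums over classes modulo `p^a` (or `p^b`), at most `p^a` of them (`pow_mean`): with `I`, `I'` classes
modulo `p^a`, `p^b` in the classes `r`, `r'` modulo `p`: `∑' ‖F_r‖^(2t) ‖F_r'‖^(2(T-t)) ≤ p^(2ta + 2(T-t)b) ∑_{I,I'} ∑' ‖F_I‖^(2t) ‖F_I'‖^(2(T-t)) ≤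
p^(2T(a+b)) p^(a+b) E2 Q^T`, `Q = ∑_{n ∈ S} sq f_n` (hypothesis `hM`; `I`, `I'` are separated modulo `p` as `a, b ≥ 1`). The same with the roles of
`r`, `r'` exchanged, and Cauchy-Schwarz (`holder` with `θ = 1/2`): `∑' ‖F_r‖^T ‖F_r'‖^T ≤ p^((2T+1)(a+b)) E2 Q^T`. At most `p^2` pairs; `3T + 2 + (2T+1)(a+b) ≤
6T(a+b)` as `a + b ≥ 2`, `T ≥ 1`.
-/

set_option autoImplicit false

open Finset
open scoped ENNReal

namespace Pool.Agent.Lib.VM

private theorem bn_tri_pos {k : ℕ} (h : 1 ≤ k) : 1 ≤ tri k := by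
  unfold tri
  have h1 : 2 ≤ k * (k + 1) := by nlinarith
  generalize k * (k + 1) = v at *
  omega

private theorem bn_tri_lt {l k : ℕ} (h : l < k) : tri l < tri k := by
  unfold tri
  have h1 : l * (l + 1) + 2 * (l + 1) ≤ k * (k + 1) := by nlinarith
  generalize l * (l + 1) = u at *
  generalize k * (k + 1) = v at *
  omega

private theorem bn_amgm (x y : ℝ≥0∞) {t T : ℕ} (h : t ≤ T) :
    x ^ T * y ^ T ≤ x ^ (2 * t) * y ^ (2 * (T - t)) + y ^ (2 * t) * x ^ (2 * (T - t)) := by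
  have key : ∀ u v : ℝ≥0∞, u ≤ v →
      u ^ T * v ^ T ≤ u ^ (2 * t) * v ^ (2 * (T - t)) + v ^ (2 * t) * u ^ (2 * (T - t)) := by
    intro u v huv
    rcases le_total T (2 * t) with h1 | h1
    · refine le_trans ?_ le_add_self
      calc u ^ T * v ^ T = v ^ T * (u ^ (2 * t - T) * u ^ (2 * (T - t))) := by
            rw [← pow_add, mul_comm]
            congr 2
            omega
        _ ≤ v ^ T * (v ^ (2 * t - T) * u ^ (2 * (T - t))) := by gcongr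
        _ = v ^ (2 * t) * u ^ (2 * (T - t)) := by
            rw [← mul_assoc, ← pow_add]
            congr 2
            omega
    · refine le_trans ?_ le_self_add
      calc u ^ T * v ^ T = u ^ (2 * t) * (u ^ (T - 2 * t) * v ^ T) := by
            rw [← mul_assoc, ← pow_add]
            congr 2
            omega
        _ ≤ u ^ (2 * t) * (v ^ (T - 2 * t) * v ^ T) := by gcongr
        _ = u ^ (2 * t) * v ^ (2 * (T - t)) := by
            rw [← pow_add]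
            congr 2
            omega
  rcases le_total x y with h1 | h1
  · exact key x y h1
  · rw [mul_comm (x ^ T), add_comm]
    exact key y x h1

private theorem bn_point {ι : Type*} [DecidableEq ι] (I : Finset ι) (u : ι → ℝ≥0∞) (p T : ℕ) (hI : I.card ≤ p)
    (hT : 1 ≤ T) :
    (∑ r ∈ I, u r) ^ (2 * T) ≤ 2 ^ (2 * T) * ∑ r ∈ I, (u r) ^ (2 * T) +
      (p : ℝ≥0∞) ^ (3 * T) * ∑ z ∈ I.offDiag, (u z.1) ^ T * (u z.2) ^ T := by
  rcases I.eq_empty_or_nonempty with rfl | hne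
  · have h0 : (2 * T) ≠ 0 := by omega
    simp [h0]
  obtain ⟨s, hs, hmax⟩ := I.exists_max_image u hne
  rcases le_or_gt (∑ r ∈ I.erase s, u r) (u s) with h | h
  · have h1 : ∑ r ∈ I, u r ≤ 2 * u s := by
      rw [← Finset.add_sum_erase I u hs, two_mul]
      exact add_le_add le_rfl h
    calc (∑ r ∈ I, u r) ^ (2 * T) ≤ (2 * u s) ^ (2 * T) := by gcongr
      _ = 2 ^ (2 * T) * (u s) ^ (2 * T) := mul_pow _ _ _
      _ ≤ 2 ^ (2 * T) * ∑ r ∈ I, (u r) ^ (2 * T) := by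
          gcongr
          exact Finset.single_le_sum (f := fun r => (u r) ^ (2 * T)) (fun _ _ => by positivity) hs
      _ ≤ _ := le_self_add
  · have hne' : (I.erase s).Nonempty := by
      rw [Finset.nonempty_iff_ne_empty]
      intro h0
      rw [h0] at h
      simp at h
    obtain ⟨r, hr, hrmax⟩ := (I.erase s).exists_max_image u hne'
    have hrs := Finset.mem_erase.1 hr
    have h2 : ∑ r' ∈ I.erase s, u r' ≤ (p : ℝ≥0∞) * u r := by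
      calc ∑ r' ∈ I.erase s, u r' ≤ ∑ r' ∈ I.erase s, u r := Finset.sum_le_sum hrmax
        _ = ((I.erase s).card : ℝ≥0∞) * u r := by rw [Finset.sum_const, nsmul_eq_mul]
        _ ≤ (p : ℝ≥0∞) * u r := by
            gcongr
            exact Finset.card_erase_le.trans hI
    have h3 : ∑ r' ∈ I, u r' ≤ (p : ℝ≥0∞) * u s := by
      calc ∑ r' ∈ I, u r' ≤ ∑ r' ∈ I, u s := Finset.sum_le_sum hmax
        _ = (I.card : ℝ≥0∞) * u s := by rw [Finset.sum_const, nsmul_eq_mul]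
        _ ≤ (p : ℝ≥0∞) * u s := by gcongr
    have h4 : (∑ r' ∈ I, u r') ^ 2 ≤ (p : ℝ≥0∞) ^ 3 * (u s * u r) := by
      calc (∑ r' ∈ I, u r') ^ 2 ≤ ((p : ℝ≥0∞) * u s) ^ 2 := by gcongr
        _ = (p : ℝ≥0∞) ^ 2 * (u s * u s) := by ring
        _ ≤ (p : ℝ≥0∞) ^ 2 * (u s * ((p : ℝ≥0∞) * u r)) := by
            gcongr
            exact h.le.trans h2
        _ = _ := by ring
    calc (∑ r' ∈ I, u r') ^ (2 * T) = ((∑ r' ∈ I, u r') ^ 2) ^ T := pow_mul _ _ _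
      _ ≤ ((p : ℝ≥0∞) ^ 3 * (u s * u r)) ^ T := by gcongr
      _ = (p : ℝ≥0∞) ^ (3 * T) * ((u s) ^ T * (u r) ^ T) := by rw [mul_pow, ← pow_mul, mul_pow]
      _ ≤ (p : ℝ≥0∞) ^ (3 * T) * ∑ z ∈ I.offDiag, (u z.1) ^ T * (u z.2) ^ T := by
          gcongr
          exact Finset.single_le_sum (f := fun z : ι × ι => (u z.1) ^ T * (u z.2) ^ T) (fun _ _ => by positivity)
            (Finset.mem_offDiag.2 ⟨hs, hrs.2, Ne.symm hrs.1⟩ : (s, r) ∈ I.offDiag)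
      _ ≤ _ := le_add_self

/-- the residue of `n` modulo `q` as a natural number -/
private def bnr (q : ℕ) (n : ℤ) : ℕ := (n % (q : ℤ)).toNat

private theorem bnr_lt {q : ℕ} (hq : 0 < q) (n : ℤ) : bnr q n < q := by
  have h1 := Int.emod_nonneg n (by omega : (q : ℤ) ≠ 0)
  have h2 := Int.emod_lt_of_pos n (by omega : (0 : ℤ) < q)
  unfold bnr
  omega

private theorem bnr_dvd {q : ℕ} (hq : 0 < q) {m n : ℤ} : bnr q m = bnr q n ↔ (q : ℤ) ∣ m - n := by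
  have h1 := Int.emod_nonneg m (by omega : (q : ℤ) ≠ 0)
  have h2 := Int.emod_nonneg n (by omega : (q : ℤ) ≠ 0)
  have h3 : m % (q : ℤ) = n % (q : ℤ) ↔ (q : ℤ) ∣ m - n := by
    rw [Int.emod_eq_emod_iff_emod_sub_eq_zero, Int.dvd_iff_emod_eq_zero]
  rw [← h3]
  unfold bnr
  omega

private theorem bn_tsum_sum {ι α : Type*} (I : Finset ι) (g : ι → α → ℝ≥0∞) :
    ∑' a, ∑ i ∈ I, g i a = ∑ i ∈ I, ∑' a, g i a :=
  Summable.tsum_finsetSum (fun _ _ => ENNReal.summable)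

theorem bn {k p B l a b : ℕ} (hp : p.Prime) (hB : 1 ≤ B) (hl : 1 ≤ l) (hlk : l < k) (ha : 1 ≤ a) (haB : a ≤ B) (hb : 1 ≤ b) (hbB : b ≤ B)
    {E1 E2 : ℝ≥0∞} (hD : Dec k p (B - 1) E1) (hM : Mm k p B l a b E2) :
    Dec k p B (2 ^ (2 * tri k) * E1 + (p : ℝ≥0∞) ^ (6 * tri k * (a + b)) * E2) := by
  classical
  intro S f hS hf
  have hk : 1 ≤ k := by omega
  have hT : 1 ≤ tri k := bn_tri_pos hk
  have ht : 1 ≤ tri l := bn_tri_pos hl
  have htT : tri l < tri k := bn_tri_lt hlk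
  have hp0 : 0 < p := hp.pos
  have hp2 : (2 : ℝ≥0∞) ≤ (p : ℝ≥0∞) := by exact_mod_cast hp.two_le
  have hp1 : (1 : ℝ≥0∞) ≤ (p : ℝ≥0∞) := by exact_mod_cast hp.one_lt.le
  have hpz : ∀ {m n : ℤ}, bnr p m = bnr p n ↔ (p : ℤ) ∣ m - n := fun {m n} => bnr_dvd hp0
  obtain ⟨Sr, hSr⟩ : ∃ Sr : ℕ → Finset ℤ, Sr = fun r => S.filter (fun n => bnr p n = r) := ⟨_, rfl⟩
  obtain ⟨F, hF⟩ : ∃ F : ℕ → V k → ℂ, F = fun r α => ∑ n ∈ Sr r, f n α := ⟨_, rfl⟩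
  obtain ⟨Q, hQ⟩ : ∃ Q : ℝ≥0∞, Q = ∑ n ∈ S, sq (tri k) (f n) := ⟨_, rfl⟩
  have hSrS : ∀ r, Sr r ⊆ S := by
    intro r
    rw [hSr]
    exact Finset.filter_subset _ _
  have hmem : ∀ r, ∀ n ∈ Sr r, bnr p n = r := by
    intro r n hn
    rw [hSr] at hn
    exact (Finset.mem_filter.1 hn).2
  have hincsub : ∀ X ⊆ S, Inc p B X := fun X hX m hm n hn h => hS m (hX hm) n (hX hn) h
  have hqsub : ∀ X ⊆ S, ∑ n ∈ X, sq (tri k) (f n) ≤ Q := by
    intro X hX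
    rw [hQ]
    exact Finset.sum_le_sum_of_subset hX
  have hsumF : ∀ α, ∑ n ∈ S, f n α = ∑ r ∈ range p, F r α := by
    intro α
    rw [hF, hSr]
    exact (Finset.sum_fiberwise_of_maps_to (fun n _ => Finset.mem_range.2 (bnr_lt hp0 n)) _).symm
  have hsumQ : Q = ∑ r ∈ range p, ∑ n ∈ Sr r, sq (tri k) (f n) := by
    rw [hQ, hSr]
    exact (Finset.sum_fiberwise_of_maps_to (fun n _ => Finset.mem_range.2 (bnr_lt hp0 n)) _).symm
  -- narrow
  have hnar : ∀ r, ∑' α : V k, ‖F r α‖ₑ ^ (2 * tri k) ≤ E1 * (∑ n ∈ Sr r, sq (tri k) (f n)) ^ (tri k) := by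
    intro r
    rw [hF]
    rcases (Sr r).eq_empty_or_nonempty with h0 | ⟨m, hm⟩
    · have h1 : 2 * tri k ≠ 0 := by omega
      simp [h0, h1]
    · refine rescale hk hp hB hD m (hincsub _ (hSrS r)) ?_ (fun n hn => hf n (hSrS r hn))
      intro n hn
      rw [pow_one]
      exact hpz.1 ((hmem r n hn).trans (hmem r m hm).symm)
  -- broad, one pair of classes
  have hbr : ∀ r r', r ≠ r' → ∀ X ⊆ Sr r, ∀ Y ⊆ Sr r', (∀ m ∈ X, ∀ n ∈ X, (p : ℤ) ^ a ∣ n - m) →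
      (∀ m ∈ Y, ∀ n ∈ Y, (p : ℤ) ^ b ∣ n - m) →
      ∑' α : V k, ‖∑ n ∈ X, f n α‖ₑ ^ (2 * tri l) * ‖∑ n ∈ Y, f n α‖ₑ ^ (2 * (tri k - tri l)) ≤ E2 * Q ^ (tri k) := by
    intro r r' hrr X hX Y hY hXa hYb
    rcases X.eq_empty_or_nonempty with h0 | ⟨x, hx⟩
    · have h1 : 2 * tri l ≠ 0 := by omega
      simp [h0, h1]
    rcases Y.eq_empty_or_nonempty with h0 | ⟨y, hy⟩
    · have h1 : 2 * (tri k - tri l) ≠ 0 := by omega
      simp only [h0, Finset.sum_empty, enorm_zero, zero_pow h1, mul_zero, tsum_zero]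
      positivity
    have hxy : ¬ (p : ℤ) ∣ x - y := by
      intro h
      apply hrr
      rw [← hmem r x (hX hx), ← hmem r' y (hY hy)]
      exact hpz.2 h
    have h2 := hM x y X Y f f hxy (hincsub _ (hX.trans (hSrS r))) (hincsub _ (hY.trans (hSrS r')))
      (fun n hn => hXa x hx n hn) (fun n hn => hYb y hy n hn)
      (fun n hn => hf n (hSrS r (hX hn))) (fun n hn => hf n (hSrS r' (hY hn)))
    refine h2.trans ?_
    calc E2 * (∑ n ∈ X, sq (tri k) (f n)) ^ (tri l) * (∑ n ∈ Y, sq (tri k) (f n)) ^ (tri k - tri l)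
        ≤ E2 * Q ^ (tri l) * Q ^ (tri k - tri l) := by
          gcongr
          · exact hqsub _ (hX.trans (hSrS r))
          · exact hqsub _ (hY.trans (hSrS r'))
      _ = E2 * Q ^ (tri k) := by
          rw [mul_assoc, ← pow_add]
          congr 2
          omega
  -- broad, two residues
  have hA : ∀ r r', r ≠ r' → ∑' α : V k, ‖F r α‖ₑ ^ (2 * tri l) * ‖F r' α‖ₑ ^ (2 * (tri k - tri l)) ≤
      (p : ℝ≥0∞) ^ ((2 * tri k + 1) * (a + b)) * (E2 * Q ^ (tri k)) := by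
    intro r r' hrr
    obtain ⟨X, hX⟩ : ∃ X : ℕ → Finset ℤ, X = fun i => (Sr r).filter (fun n => bnr (p ^ a) n = i) := ⟨_, rfl⟩
    obtain ⟨Y, hY⟩ : ∃ Y : ℕ → Finset ℤ, Y = fun i => (Sr r').filter (fun n => bnr (p ^ b) n = i) := ⟨_, rfl⟩
    have hpa : 0 < p ^ a := by positivity
    have hpb : 0 < p ^ b := by positivity
    have hXF : ∀ α, F r α = ∑ i ∈ range (p ^ a), ∑ n ∈ X i, f n α := by
      intro α
      rw [hF, hX]
      exact (Finset.sum_fiberwise_of_maps_to (fun n _ => Finset.mem_range.2 (bnr_lt hpa n)) _).symm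
    have hYF : ∀ α, F r' α = ∑ i ∈ range (p ^ b), ∑ n ∈ Y i, f n α := by
      intro α
      rw [hF, hY]
      exact (Finset.sum_fiberwise_of_maps_to (fun n _ => Finset.mem_range.2 (bnr_lt hpb n)) _).symm
    have hpw : ∀ (c e : ℕ) (g : ℕ → ℂ), 1 ≤ e → ‖∑ i ∈ range (p ^ c), g i‖ₑ ^ e ≤
        (p : ℝ≥0∞) ^ (c * e) * ∑ i ∈ range (p ^ c), ‖g i‖ₑ ^ e := by
      intro c e g he
      calc ‖∑ i ∈ range (p ^ c), g i‖ₑ ^ e ≤ (∑ i ∈ range (p ^ c), ‖g i‖ₑ) ^ e := by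
            gcongr
            exact enorm_sum_le _ _
        _ ≤ ((range (p ^ c)).card : ℝ≥0∞) ^ e * ∑ i ∈ range (p ^ c), ‖g i‖ₑ ^ e := pow_mean _ _ he
        _ = _ := by rw [Finset.card_range, Nat.cast_pow, ← pow_mul]
    have hpt : ∀ α, ‖F r α‖ₑ ^ (2 * tri l) * ‖F r' α‖ₑ ^ (2 * (tri k - tri l)) ≤
        (p : ℝ≥0∞) ^ (a * (2 * tri l) + b * (2 * (tri k - tri l))) *
        ∑ i ∈ range (p ^ a), ∑ j ∈ range (p ^ b),
          ‖∑ n ∈ X i, f n α‖ₑ ^ (2 * tri l) * ‖∑ n ∈ Y j, f n α‖ₑ ^ (2 * (tri k - tri l)) := by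
      intro α
      calc ‖F r α‖ₑ ^ (2 * tri l) * ‖F r' α‖ₑ ^ (2 * (tri k - tri l))
          ≤ ((p : ℝ≥0∞) ^ (a * (2 * tri l)) * ∑ i ∈ range (p ^ a), ‖∑ n ∈ X i, f n α‖ₑ ^ (2 * tri l)) *
            ((p : ℝ≥0∞) ^ (b * (2 * (tri k - tri l))) * ∑ j ∈ range (p ^ b), ‖∑ n ∈ Y j, f n α‖ₑ ^ (2 * (tri k - tri l))) := by
            rw [hXF α, hYF α]
            exact mul_le_mul' (hpw _ _ _ (by omega)) (hpw _ _ _ (by omega))
        _ = _ := by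
            rw [mul_mul_mul_comm, ← pow_add, Finset.sum_mul_sum]
    calc ∑' α : V k, ‖F r α‖ₑ ^ (2 * tri l) * ‖F r' α‖ₑ ^ (2 * (tri k - tri l))
        ≤ ∑' α : V k, (p : ℝ≥0∞) ^ (a * (2 * tri l) + b * (2 * (tri k - tri l))) *
          ∑ i ∈ range (p ^ a), ∑ j ∈ range (p ^ b),
            ‖∑ n ∈ X i, f n α‖ₑ ^ (2 * tri l) * ‖∑ n ∈ Y j, f n α‖ₑ ^ (2 * (tri k - tri l)) :=
          ENNReal.tsum_le_tsum hpt
      _ = (p : ℝ≥0∞) ^ (a * (2 * tri l) + b * (2 * (tri k - tri l))) *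
          ∑ i ∈ range (p ^ a), ∑ j ∈ range (p ^ b),
            ∑' α : V k, ‖∑ n ∈ X i, f n α‖ₑ ^ (2 * tri l) * ‖∑ n ∈ Y j, f n α‖ₑ ^ (2 * (tri k - tri l)) := by
          rw [ENNReal.tsum_mul_left, bn_tsum_sum]
          congr 1
          exact Finset.sum_congr rfl (fun i _ => bn_tsum_sum _ _)
      _ ≤ (p : ℝ≥0∞) ^ (a * (2 * tri l) + b * (2 * (tri k - tri l))) *
          ∑ i ∈ range (p ^ a), ∑ j ∈ range (p ^ b), (E2 * Q ^ (tri k)) := by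
          gcongr with i _ j _
          refine hbr r r' hrr (X i) ?_ (Y j) ?_ ?_ ?_
          · rw [hX]
            exact Finset.filter_subset _ _
          · rw [hY]
            exact Finset.filter_subset _ _
          · intro m hm n hn
            rw [hX] at hm hn
            have h5 := (bnr_dvd hpa).1 (((Finset.mem_filter.1 hn).2).trans ((Finset.mem_filter.1 hm).2).symm)
            rwa [Nat.cast_pow] at h5
          · intro m hm n hn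
            rw [hY] at hm hn
            have h5 := (bnr_dvd hpb).1 (((Finset.mem_filter.1 hn).2).trans ((Finset.mem_filter.1 hm).2).symm)
            rwa [Nat.cast_pow] at h5
      _ = (p : ℝ≥0∞) ^ (a * (2 * tri l) + b * (2 * (tri k - tri l)) + (a + b)) * (E2 * Q ^ (tri k)) := by
          rw [Finset.sum_const, Finset.sum_const, Finset.card_range, Finset.card_range, nsmul_eq_mul, nsmul_eq_mul,
            Nat.cast_pow, Nat.cast_pow]
          ring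
      _ ≤ (p : ℝ≥0∞) ^ ((2 * tri k + 1) * (a + b)) * (E2 * Q ^ (tri k)) := by
          gcongr
          have h6 : a * (2 * tri l) ≤ a * (2 * tri k) := Nat.mul_le_mul_left _ (by omega)
          have h7 : b * (2 * (tri k - tri l)) ≤ b * (2 * tri k) := Nat.mul_le_mul_left _ (by omega)
          nlinarith
  have hP : ∀ r r', r ≠ r' → ∑' α : V k, ‖F r α‖ₑ ^ (tri k) * ‖F r' α‖ₑ ^ (tri k) ≤
      2 * ((p : ℝ≥0∞) ^ ((2 * tri k + 1) * (a + b)) * (E2 * Q ^ (tri k))) := by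
    intro r r' hrr
    calc ∑' α : V k, ‖F r α‖ₑ ^ (tri k) * ‖F r' α‖ₑ ^ (tri k)
        ≤ ∑' α : V k, (‖F r α‖ₑ ^ (2 * tri l) * ‖F r' α‖ₑ ^ (2 * (tri k - tri l)) +
            ‖F r' α‖ₑ ^ (2 * tri l) * ‖F r α‖ₑ ^ (2 * (tri k - tri l))) :=
          ENNReal.tsum_le_tsum (fun α => bn_amgm _ _ htT.le)
      _ = _ := ENNReal.tsum_add
      _ ≤ _ := add_le_add (hA r r' hrr) (hA r' r hrr.symm)
      _ = _ := (two_mul _).symm
  have hnarQ : ∑ r ∈ range p, ∑' α : V k, ‖F r α‖ₑ ^ (2 * tri k) ≤ E1 * Q ^ (tri k) := by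
    calc ∑ r ∈ range p, ∑' α : V k, ‖F r α‖ₑ ^ (2 * tri k)
        ≤ ∑ r ∈ range p, E1 * (∑ n ∈ Sr r, sq (tri k) (f n)) ^ (tri k) := Finset.sum_le_sum (fun r _ => hnar r)
      _ = E1 * ∑ r ∈ range p, (∑ n ∈ Sr r, sq (tri k) (f n)) ^ (tri k) := by rw [Finset.mul_sum]
      _ ≤ E1 * (∑ r ∈ range p, ∑ n ∈ Sr r, sq (tri k) (f n)) ^ (tri k) := by
          gcongr
          exact sum_pow_le _ _ hT
      _ = E1 * Q ^ (tri k) := by rw [← hsumQ]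
  have hbroadQ : ∑ z ∈ (range p).offDiag, ∑' α : V k, ‖F z.1 α‖ₑ ^ (tri k) * ‖F z.2 α‖ₑ ^ (tri k) ≤
      (p : ℝ≥0∞) ^ 2 * ((p : ℝ≥0∞) * ((p : ℝ≥0∞) ^ ((2 * tri k + 1) * (a + b)) * (E2 * Q ^ (tri k)))) := by
    calc ∑ z ∈ (range p).offDiag, ∑' α : V k, ‖F z.1 α‖ₑ ^ (tri k) * ‖F z.2 α‖ₑ ^ (tri k)
        ≤ ∑ z ∈ (range p).offDiag, ((p : ℝ≥0∞) * ((p : ℝ≥0∞) ^ ((2 * tri k + 1) * (a + b)) * (E2 * Q ^ (tri k)))) := by
          refine Finset.sum_le_sum (fun z hz => (hP z.1 z.2 (Finset.mem_offDiag.1 hz).2.2).trans ?_)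
          gcongr
      _ = ((range p).offDiag.card : ℝ≥0∞) * _ := by rw [Finset.sum_const, nsmul_eq_mul]
      _ ≤ _ := by
          gcongr
          have h8 : (range p).offDiag.card ≤ p ^ 2 := by
            rw [Finset.offDiag_card, Finset.card_range, pow_two]
            exact Nat.sub_le _ _
          exact_mod_cast h8
  calc ∑' α : V k, ‖∑ n ∈ S, f n α‖ₑ ^ (2 * tri k)
      ≤ ∑' α : V k, (2 ^ (2 * tri k) * ∑ r ∈ range p, ‖F r α‖ₑ ^ (2 * tri k) +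
          (p : ℝ≥0∞) ^ (3 * tri k) * ∑ z ∈ (range p).offDiag, ‖F z.1 α‖ₑ ^ (tri k) * ‖F z.2 α‖ₑ ^ (tri k)) := by
        refine ENNReal.tsum_le_tsum (fun α => ?_)
        rw [hsumF α]
        refine le_trans ?_ (bn_point (range p) (fun r => ‖F r α‖ₑ) p (tri k) (by rw [Finset.card_range]) hT)
        gcongr
        exact enorm_sum_le _ _
    _ = 2 ^ (2 * tri k) * ∑ r ∈ range p, ∑' α : V k, ‖F r α‖ₑ ^ (2 * tri k) +
          (p : ℝ≥0∞) ^ (3 * tri k) * ∑ z ∈ (range p).offDiag, ∑' α : V k, ‖F z.1 α‖ₑ ^ (tri k) * ‖F z.2 α‖ₑ ^ (tri k) := by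
        rw [ENNReal.tsum_add, ENNReal.tsum_mul_left, ENNReal.tsum_mul_left, bn_tsum_sum, bn_tsum_sum]
    _ ≤ 2 ^ (2 * tri k) * (E1 * Q ^ (tri k)) + (p : ℝ≥0∞) ^ (3 * tri k) *
          ((p : ℝ≥0∞) ^ 2 * ((p : ℝ≥0∞) * ((p : ℝ≥0∞) ^ ((2 * tri k + 1) * (a + b)) * (E2 * Q ^ (tri k))))) := by
        gcongr
    _ = 2 ^ (2 * tri k) * E1 * Q ^ (tri k) + (p : ℝ≥0∞) ^ (3 * tri k + 3 + (2 * tri k + 1) * (a + b)) * E2 * Q ^ (tri k) := by
        rw [pow_add, pow_add]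
        ring
    _ ≤ 2 ^ (2 * tri k) * E1 * Q ^ (tri k) + (p : ℝ≥0∞) ^ (6 * tri k * (a + b)) * E2 * Q ^ (tri k) := by
        gcongr
        have h9 : 2 ≤ a + b := by omega
        have h10 : tri k * 2 ≤ tri k * (a + b) := Nat.mul_le_mul_left _ h9
        nlinarith
    _ = (2 ^ (2 * tri k) * E1 + (p : ℝ≥0∞) ^ (6 * tri k * (a + b)) * E2) * Q ^ (tri k) := by ring
    _ = _ := by rw [hQ]

end Pool.Agent.Lib.VM
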