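import Mathlib

/-!
# VM: Vinogradov's mean value theorem by bilinear decoupling over the p-adic numbers, definitions

`V k` is the group of the `k`-tuples of points of the circle. `ph n α = ∑_j n^(j+1) α_j`; `TT x` is the Taylor shift
(`ph (x+z) α = ph x α + ph z (TT x α)`), `DD p a` the dilation (`ph (p^a z) α = ph z (DD p a α)`). `QI p x a f`: `f` has its spectrum
in the anisotropic box of size `p^a` around the point with parameter `x` of the moment curve. All sums over `V k` are sums of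
elements of `[0, ∞]`.
-/

set_option autoImplicit false

open Finset
open scoped ENNReal

namespace Pool.Agent.Lib.VM

/-- tuples of points of the circle -/
abbrev V (k : ℕ) : Type := Fin k → UnitAddCircle

/-- the standard character -/
noncomputable def chi (u : UnitAddCircle) : ℂ := ((AddCircle.toCircle u : Circle) : ℂ)

/-- the phase `∑_j n^(j+1) α_j` -/
noncomputable def ph {k : ℕ} (n : ℤ) (α : V k) : UnitAddCircle := ∑ j : Fin k, (n ^ ((j : ℕ) + 1)) • α j

/-- the Taylor shift -/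
noncomputable def TT {k : ℕ} (x : ℤ) (α : V k) : V k :=
  fun m => ∑ j : Fin k, (((Nat.choose ((j : ℕ) + 1) ((m : ℕ) + 1) : ℕ) : ℤ) * x ^ ((j : ℕ) - (m : ℕ))) • α j

/-- the dilation -/
noncomputable def DD {k : ℕ} (p a : ℕ) (α : V k) : V k := fun m => ((p : ℤ) ^ (a * ((m : ℕ) + 1))) • α m

/-- quasi-invariance: spectrum in the box of level `a` around the point with parameter `x` -/
def QI {k : ℕ} (p : ℕ) (x : ℤ) (a : ℕ) (f : V k → ℂ) : Prop :=
  ∀ α β : V k, DD p a (TT x β) = 0 → f (α + β) = chi (ph x β) * f α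

/-- `k (k+1) / 2` -/
def tri (k : ℕ) : ℕ := k * (k + 1) / 2

/-- the square of the `2 t`-norm -/
noncomputable def sq {k : ℕ} (t : ℕ) (f : V k → ℂ) : ℝ≥0∞ := (∑' α : V k, ‖f α‖ₑ ^ (2 * t)) ^ (1 / (t : ℝ))

/-- pairwise incongruent modulo `p^B` -/
def Inc (p B : ℕ) (S : Finset ℤ) : Prop := ∀ m ∈ S, ∀ n ∈ S, (p : ℤ) ^ B ∣ m - n → m = n

/-- linear decoupling at level `B` with constant `E` (the `2 tri k`-th power of the usual constant) -/
def Dec (k p B : ℕ) (E : ℝ≥0∞) : Prop := ∀ (S : Finset ℤ) (f : ℤ → V k → ℂ), Inc p B S → (∀ n ∈ S, QI p n B (f n)) →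
  ∑' α : V k, ‖∑ n ∈ S, f n α‖ₑ ^ (2 * tri k) ≤ E * (∑ n ∈ S, sq (tri k) (f n)) ^ (tri k)

/-- the asymmetric bilinear inequality: the `2 tri l`-th power of a function with spectrum in an arc of level `a` times the
`2 (tri k - tri l)`-th power of one with spectrum in an arc of level `b`, the arcs being separated -/
def Mm (k p B l a b : ℕ) (E : ℝ≥0∞) : Prop := ∀ (x y : ℤ) (S R : Finset ℤ) (f g : ℤ → V k → ℂ), ¬ (p : ℤ) ∣ x - y →
  Inc p B S → Inc p B R → (∀ n ∈ S, (p : ℤ) ^ a ∣ n - x) → (∀ n ∈ R, (p : ℤ) ^ b ∣ n - y) →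
  (∀ n ∈ S, QI p n B (f n)) → (∀ n ∈ R, QI p n B (g n)) →
  ∑' α : V k, ‖∑ n ∈ S, f n α‖ₑ ^ (2 * tri l) * ‖∑ n ∈ R, g n α‖ₑ ^ (2 * (tri k - tri l)) ≤
    E * (∑ n ∈ S, sq (tri k) (f n)) ^ (tri l) * (∑ n ∈ R, sq (tri k) (g n)) ^ (tri k - tri l)

/-- the tuple of the last `l` coordinates extended by `0` -/
noncomputable def ext {k l : ℕ} (τ : V l) : V k := fun j => if h : k - l ≤ (j : ℕ) ∧ (j : ℕ) - (k - l) < l then τ ⟨(j : ℕ) - (k - l), h.2⟩ else 0

/-- the exponents of the recursion -/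
noncomputable def xs (k : ℕ) : ℕ → ℕ → ℝ
  | 0, l => if l = 0 then 1 else 0
  | n + 1, l => if l = 0 then 1 else ((k : ℝ) - l) / ((k : ℝ) - l + 1) * xs k n (l - 1) + 1 / (l : ℝ) * xs k n (k - l)

open Classical in
/-- the solutions of Vinogradov's system of degree `k` in `2 s` variables from `1` to `N` -/
noncomputable def sols (s k N : ℕ) : Finset ((Fin s → Fin N) × (Fin s → Fin N)) :=
  Finset.univ.filter fun z => ∀ j ∈ Finset.Icc 1 k, ∑ i, ((z.1 i : ℕ) + 1) ^ j = ∑ i, ((z.2 i : ℕ) + 1) ^ j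

/-- Vinogradov's mean value -/
noncomputable def JJ (s k N : ℕ) : ℕ := (sols s k N).card

end Pool.Agent.Lib.VM
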