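import Pool.Agent.Lib.VM.Mink

/-!
# VM / HoldM: interpolation between the bilinear inequalities

PROOF. `θ = (k-l)/(k-l+1)`. With `T = tri k`: `θ 2 tri (l-1) + (1-θ) 2 (T - tri (k-l)) = 2 tri l` and `θ 2 (T - tri (l-1)) + (1-θ) 2 tri (k-l) =
2 (T - tri l)` (as `2 tri j = j (j+1)`), so pointwise `‖F‖^(2 tri l) ‖G‖^(2(T - tri l)) = (‖F‖^(2 tri (l-1)) ‖G‖^(2(T - tri (l-1))))^θ
(‖F‖^(2(T - tri (k-l))) ‖G‖^(2 tri (k-l)))^(1-θ)` (norms are finite elements of `[0,∞]`; `ENNReal.rpow_add_of_nonneg`, `ENNReal.mul_rpow_of_nonneg`,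
`← ENNReal.rpow_natCast`); `holder`; then the two hypotheses (the second one with the roles of the two functions exchanged) and the same
identities for the powers of the two sums of `sq`.
-/

set_option autoImplicit false

open Finset
open scoped ENNReal

namespace Pool.Agent.Lib.VM

private lemma holdM_tri_cast (j : ℕ) : ((tri j : ℕ) : ℝ) = (j : ℝ) * ((j : ℝ) + 1) / 2 := by
  have h : 2 ∣ j * (j + 1) := (Nat.even_mul_succ_self j).two_dvd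
  unfold tri
  rw [Nat.cast_div h (by norm_num)]
  push_cast
  ring

private lemma holdM_tri_le {i j : ℕ} (h : i ≤ j) : tri i ≤ tri j := by
  unfold tri
  exact Nat.div_le_div_right (Nat.mul_le_mul h (by omega))

private lemma holdM_split (X Y : ℝ≥0∞) {θ : ℝ} (h0 : 0 ≤ θ) (h1 : θ ≤ 1) {a1 a2 b1 b2 c1 c2 : ℕ}
    (h : (a1 : ℝ) * θ + (b1 : ℝ) * (1 - θ) = c1) (h' : (a2 : ℝ) * θ + (b2 : ℝ) * (1 - θ) = c2) :
    (X ^ a1 * Y ^ a2) ^ θ * (Y ^ b2 * X ^ b1) ^ (1 - θ) = X ^ c1 * Y ^ c2 := by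
  have h1' : 0 ≤ 1 - θ := by linarith
  have key : ∀ (Z : ℝ≥0∞) (a b c : ℕ), (a : ℝ) * θ + (b : ℝ) * (1 - θ) = c →
      (Z ^ a) ^ θ * (Z ^ b) ^ (1 - θ) = Z ^ c := by
    intro Z a b c hc
    rw [← ENNReal.rpow_natCast Z a, ← ENNReal.rpow_natCast Z b, ← ENNReal.rpow_natCast Z c,
      ← ENNReal.rpow_mul, ← ENNReal.rpow_mul,
      ← ENNReal.rpow_add_of_nonneg _ _ (mul_nonneg (Nat.cast_nonneg _) h0) (mul_nonneg (Nat.cast_nonneg _) h1'), hc]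
  rw [ENNReal.mul_rpow_of_nonneg _ _ h0, ENNReal.mul_rpow_of_nonneg _ _ h1', ← key X a1 b1 c1 h, ← key Y a2 b2 c2 h']
  ring

theorem holdM {k p B l a b : ℕ} (hl : 1 ≤ l) (hlk : l < k) {E1 E2 : ℝ≥0∞} (h1 : Mm k p B (l - 1) a b E1)
    (h2 : Mm k p B (k - l) b a E2) :
    Mm k p B l a b (E1 ^ (((k : ℝ) - l) / ((k : ℝ) - l + 1)) * E2 ^ (1 / ((k : ℝ) - l + 1))) := by
  intro x y S R f g hxy hS hR hSx hRy hf hg
  have hkl : (1 : ℝ) ≤ (k : ℝ) - l := by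
    have : ((l + 1 : ℕ) : ℝ) ≤ (k : ℝ) := by exact_mod_cast hlk
    push_cast at this
    linarith
  have hpos : (0 : ℝ) < (k : ℝ) - l + 1 := by linarith
  set θ : ℝ := ((k : ℝ) - l) / ((k : ℝ) - l + 1) with hθ
  have hθ0 : 0 < θ := by rw [hθ]; positivity
  have hθ1 : θ < 1 := by rw [hθ, div_lt_one hpos]; linarith
  have hθ' : 1 / ((k : ℝ) - l + 1) = 1 - θ := by
    rw [hθ]; field_simp; ring
  have hθm : θ * ((k : ℝ) - l + 1) = (k : ℝ) - l := by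
    rw [hθ]; field_simp
  rw [hθ']
  -- casts
  have cl1 : ((l - 1 : ℕ) : ℝ) = (l : ℝ) - 1 := by
    rw [Nat.cast_sub hl]; norm_num
  have ckl : ((k - l : ℕ) : ℝ) = (k : ℝ) - l := by
    rw [Nat.cast_sub hlk.le]
  have tl : tri l ≤ tri k := holdM_tri_le hlk.le
  have tl1 : tri (l - 1) ≤ tri k := holdM_tri_le (by omega)
  have tkl : tri (k - l) ≤ tri k := holdM_tri_le (by omega)
  have id1 : ((tri (l - 1) : ℕ) : ℝ) * θ + ((tri k - tri (k - l) : ℕ) : ℝ) * (1 - θ) = ((tri l : ℕ) : ℝ) := by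
    rw [Nat.cast_sub tkl, holdM_tri_cast, holdM_tri_cast, holdM_tri_cast, holdM_tri_cast, cl1, ckl]
    linear_combination (-(l : ℝ)) * hθm
  have id2 : ((tri k - tri (l - 1) : ℕ) : ℝ) * θ + ((tri (k - l) : ℕ) : ℝ) * (1 - θ) = ((tri k - tri l : ℕ) : ℝ) := by
    have e := id1
    rw [Nat.cast_sub tkl] at e
    rw [Nat.cast_sub tl1, Nat.cast_sub tl]
    linear_combination -e
  have id1' : ((2 * tri (l - 1) : ℕ) : ℝ) * θ + ((2 * (tri k - tri (k - l)) : ℕ) : ℝ) * (1 - θ) = ((2 * tri l : ℕ) : ℝ) := by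
    rw [Nat.cast_mul, Nat.cast_mul, Nat.cast_mul]
    linear_combination (2 : ℝ) * id1
  have id2' : ((2 * (tri k - tri (l - 1)) : ℕ) : ℝ) * θ + ((2 * tri (k - l) : ℕ) : ℝ) * (1 - θ) = ((2 * (tri k - tri l) : ℕ) : ℝ) := by
    rw [Nat.cast_mul, Nat.cast_mul, Nat.cast_mul]
    linear_combination (2 : ℝ) * id2
  have hyx : ¬ (p : ℤ) ∣ y - x := by
    intro h
    apply hxy
    have := (dvd_neg (α := ℤ)).mpr h
    rwa [neg_sub] at this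
  have H1 := h1 x y S R f g hxy hS hR hSx hRy hf hg
  have H2 := h2 y x R S g f hyx hR hS hRy hSx hg hf
  calc ∑' α : V k, ‖∑ n ∈ S, f n α‖ₑ ^ (2 * tri l) * ‖∑ n ∈ R, g n α‖ₑ ^ (2 * (tri k - tri l))
      = ∑' α : V k, (‖∑ n ∈ S, f n α‖ₑ ^ (2 * tri (l - 1)) * ‖∑ n ∈ R, g n α‖ₑ ^ (2 * (tri k - tri (l - 1)))) ^ θ *
        (‖∑ n ∈ R, g n α‖ₑ ^ (2 * tri (k - l)) * ‖∑ n ∈ S, f n α‖ₑ ^ (2 * (tri k - tri (k - l)))) ^ (1 - θ) := by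
        refine tsum_congr fun α => ?_
        rw [holdM_split _ _ hθ0.le hθ1.le id1' id2']
    _ ≤ (∑' α : V k, ‖∑ n ∈ S, f n α‖ₑ ^ (2 * tri (l - 1)) * ‖∑ n ∈ R, g n α‖ₑ ^ (2 * (tri k - tri (l - 1)))) ^ θ *
        (∑' α : V k, ‖∑ n ∈ R, g n α‖ₑ ^ (2 * tri (k - l)) * ‖∑ n ∈ S, f n α‖ₑ ^ (2 * (tri k - tri (k - l)))) ^ (1 - θ) :=
        holder _ _ hθ0 hθ1
    _ ≤ (E1 * (∑ n ∈ S, sq (tri k) (f n)) ^ (tri (l - 1)) * (∑ n ∈ R, sq (tri k) (g n)) ^ (tri k - tri (l - 1))) ^ θ *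
        (E2 * (∑ n ∈ R, sq (tri k) (g n)) ^ (tri (k - l)) * (∑ n ∈ S, sq (tri k) (f n)) ^ (tri k - tri (k - l))) ^ (1 - θ) := by
        gcongr
    _ = E1 ^ θ * E2 ^ (1 - θ) * (((∑ n ∈ S, sq (tri k) (f n)) ^ (tri (l - 1)) * (∑ n ∈ R, sq (tri k) (g n)) ^ (tri k - tri (l - 1))) ^ θ *
        ((∑ n ∈ R, sq (tri k) (g n)) ^ (tri (k - l)) * (∑ n ∈ S, sq (tri k) (f n)) ^ (tri k - tri (k - l))) ^ (1 - θ)) := by
        rw [mul_assoc E1, mul_assoc E2, ENNReal.mul_rpow_of_nonneg E1 _ hθ0.le,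
          ENNReal.mul_rpow_of_nonneg E2 _ (by linarith)]
        ring
    _ = E1 ^ θ * E2 ^ (1 - θ) * (∑ n ∈ S, sq (tri k) (f n)) ^ (tri l) * (∑ n ∈ R, sq (tri k) (g n)) ^ (tri k - tri l) := by
        rw [holdM_split _ _ hθ0.le hθ1.le id1 id2]
        ring

end Pool.Agent.Lib.VM
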