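import Pool.Agent.Lib.VM.Res
import Pool.Agent.Lib.VM.Mink

/-!
# VM / MTriv: trivial bilinear inequalities

PROOF. `mzero`: the power of the first function is `0`; `rescale` for `R`. `mtriv`: `holder` with `θ = tri l / tri k` for `u = ‖F‖^(2 tri k)`, `v = ‖G‖^(2 tri k)` and
`rescale` for both: `(E Q_1^T)^θ (E Q_2^T)^(1-θ) = E Q_1^(tri l) Q_2^(T - tri l)`. (`tri 0 = 0`, `0 < tri l < tri k` for `1 ≤ l < k`.)
-/

set_option autoImplicit false

open Finset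
open scoped ENNReal

namespace Pool.Agent.Lib.VM

theorem tri_two (k : ℕ) : 2 * tri k = k * (k + 1) := by
  unfold tri
  exact Nat.mul_div_cancel' (Nat.even_mul_succ_self k).two_dvd

theorem tri_lt {l k : ℕ} (h : l < k) : tri l < tri k := by
  have h1 := tri_two l
  have h2 := tri_two k
  have h3 : l * (l + 1) < k * (k + 1) := Nat.mul_lt_mul'' h (by omega)
  omega

private theorem mtriv_pow {T t : ℕ} (hT : 0 < T) (x : ℝ≥0∞) {θ : ℝ} (hθ : (T : ℝ) * θ = t) : (x ^ (2 * T)) ^ θ = x ^ (2 * t) := by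
  rw [← ENNReal.rpow_natCast, ← ENNReal.rpow_mul, ← ENNReal.rpow_natCast]
  congr 1
  push_cast
  linear_combination 2 * hθ

private theorem mtriv_pow1 {T t : ℕ} (x : ℝ≥0∞) {θ : ℝ} (hθ : (T : ℝ) * θ = t) : (x ^ T) ^ θ = x ^ t := by
  rw [← ENNReal.rpow_natCast, ← ENNReal.rpow_mul, ← ENNReal.rpow_natCast]
  congr 1

theorem mzero {k p B a b : ℕ} (hk : 1 ≤ k) (hp : p.Prime) (hbB : b ≤ B) {E : ℝ≥0∞} (hD : Dec k p (B - b) E) : Mm k p B 0 a b E := by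
  intro x y S R f g _ _ hR _ hy _ hg
  have h0 : tri 0 = 0 := by simp [tri]
  have h := rescale hk hp hbB hD y hR hy hg
  simpa [h0] using h

theorem mtriv {k p B l a b : ℕ} (hp : p.Prime) (hl : 1 ≤ l) (hlk : l < k) (haB : a ≤ B) (hbB : b ≤ B) {E : ℝ≥0∞}
    (hDa : Dec k p (B - a) E) (hDb : Dec k p (B - b) E) : Mm k p B l a b E := by
  intro x y S R f g _ hS hR hx hy hf hg
  have hk : 1 ≤ k := by omega
  have hlT : tri l < tri k := tri_lt hlk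
  have hl0 : 0 < tri l := by
    have := tri_lt (show 0 < l by omega)
    omega
  have hT : 0 < tri k := by omega
  have hTr : (0 : ℝ) < (tri k : ℝ) := by exact_mod_cast hT
  have hlr : (0 : ℝ) < (tri l : ℝ) := by exact_mod_cast hl0
  have hltr : (tri l : ℝ) < (tri k : ℝ) := by exact_mod_cast hlT
  obtain ⟨θ, hθ⟩ : ∃ θ : ℝ, θ = (tri l : ℝ) / (tri k : ℝ) := ⟨_, rfl⟩
  have hθ0 : 0 < θ := by rw [hθ]; positivity
  have hθ1 : θ < 1 := by rw [hθ, div_lt_one hTr]; exact hltr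
  have e1 : (tri k : ℝ) * θ = (tri l : ℕ) := by rw [hθ]; field_simp
  have e2 : (tri k : ℝ) * (1 - θ) = ((tri k - tri l : ℕ) : ℝ) := by
    rw [Nat.cast_sub hlT.le, mul_sub, e1, mul_one]
  have h1 := rescale hk hp haB hDa x hS hx hf
  have h2 := rescale hk hp hbB hDb y hR hy hg
  have h3 := holder (fun α : V k => ‖∑ n ∈ S, f n α‖ₑ ^ (2 * tri k)) (fun α : V k => ‖∑ n ∈ R, g n α‖ₑ ^ (2 * tri k)) hθ0 hθ1
  simp only [mtriv_pow hT _ e1, mtriv_pow hT _ e2] at h3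
  refine h3.trans ?_
  have h4 : (∑' α : V k, ‖∑ n ∈ S, f n α‖ₑ ^ (2 * tri k)) ^ θ ≤ E ^ θ * (∑ n ∈ S, sq (tri k) (f n)) ^ (tri l) := by
    refine (ENNReal.rpow_le_rpow h1 hθ0.le).trans ?_
    rw [ENNReal.mul_rpow_of_nonneg _ _ hθ0.le, mtriv_pow1 _ e1]
  have h5 : (∑' α : V k, ‖∑ n ∈ R, g n α‖ₑ ^ (2 * tri k)) ^ (1 - θ) ≤ E ^ (1 - θ) * (∑ n ∈ R, sq (tri k) (g n)) ^ (tri k - tri l) := by
    refine (ENNReal.rpow_le_rpow h2 (by linarith)).trans ?_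
    rw [ENNReal.mul_rpow_of_nonneg _ _ (by linarith), mtriv_pow1 _ e2]
  refine (mul_le_mul' h4 h5).trans (le_of_eq ?_)
  have h6 : E ^ θ * E ^ (1 - θ) = E := by
    rw [← ENNReal.rpow_add_of_nonneg _ _ hθ0.le (by linarith)]
    simp
  calc E ^ θ * (∑ n ∈ S, sq (tri k) (f n)) ^ (tri l) * (E ^ (1 - θ) * (∑ n ∈ R, sq (tri k) (g n)) ^ (tri k - tri l))
      = (E ^ θ * E ^ (1 - θ)) * (∑ n ∈ S, sq (tri k) (f n)) ^ (tri l) * (∑ n ∈ R, sq (tri k) (g n)) ^ (tri k - tri l) := by ring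
    _ = _ := by rw [h6]

theorem Mm_mono {k p B l a b : ℕ} {E E' : ℝ≥0∞} (hE : E ≤ E') (h : Mm k p B l a b E) : Mm k p B l a b E' := by
  intro x y S R f g h0 hS hR hx hy hf hg
  exact (h x y S R f g h0 hS hR hx hy hf hg).trans (by gcongr)

theorem Dec_mono {k p B : ℕ} {E E' : ℝ≥0∞} (hE : E ≤ E') (h : Dec k p B E) : Dec k p B E' := by
  intro S f hS hf
  exact (h S f hS hf).trans (by gcongr)

end Pool.Agent.Lib.VM
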