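import Pool.Agent.Lib.VM.Defs

/-!
# VM / Xs: the exponents of the recursion grow linearly

PROOF. `xs_nonneg`: induction. `xs_sum`: induction on `n`: in `∑_{1 ≤ l ≤ k-1} xs (n+1) l` the number `xs n m`, `1 ≤ m ≤ k-2`, has the coefficient
`(k-m-1)/(k-m) + 1/(k-m) = 1` (from `l = m+1` and from `l = k-m`), `xs n (k-1)` has `1` (from `l = 1`), and `xs n 0 = 1` has `(k-1)/k` (from `l = 1`).
`xs_large`: otherwise the sum would be `< (k-1) n/k` for `n ≥ 1`; `n = 0` is trivial (`xs_nonneg`).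
-/

set_option autoImplicit false

open Finset
open scoped ENNReal

namespace Pool.Agent.Lib.VM

theorem xs_zero (k n : ℕ) : xs k n 0 = 1 := by
  cases n <;> simp [xs]

private lemma xs_succ {k n l : ℕ} (hl : l ≠ 0) :
    xs k (n + 1) l = ((k : ℝ) - l) / ((k : ℝ) - l + 1) * xs k n (l - 1) + 1 / (l : ℝ) * xs k n (k - l) := by
  rw [xs, if_neg hl]

theorem xs_nonneg {k : ℕ} (n : ℕ) {l : ℕ} (hl : l < k) : 0 ≤ xs k n l := by
  induction n generalizing l with
  | zero =>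
    rw [xs]
    split_ifs <;> norm_num
  | succ n ih =>
    by_cases h0 : l = 0
    · subst h0
      rw [xs_zero]
      norm_num
    · rw [xs_succ h0]
      have h1 : (l : ℝ) < k := by exact_mod_cast hl
      have h2 : 0 ≤ ((k : ℝ) - l) / ((k : ℝ) - l + 1) := div_nonneg (by linarith) (by linarith)
      have h3 : 0 ≤ xs k n (l - 1) := ih (by omega)
      have h4 : 0 ≤ xs k n (k - l) := ih (by omega)
      have h5 : (0 : ℝ) ≤ 1 / (l : ℝ) := by positivity
      exact add_nonneg (mul_nonneg h2 h3) (mul_nonneg h5 h4)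

private lemma xs_icc (f : ℕ → ℝ) (K : ℕ) : ∑ l ∈ Icc 1 (K + 2 - 1), f l = ∑ i ∈ range (K + 1), f (i + 1) := by
  have h : Icc 1 (K + 2 - 1) = Ico 1 (K + 2) := by
    ext x
    simp only [mem_Icc, mem_Ico]
    omega
  rw [h, sum_Ico_eq_sum_range]
  refine sum_congr rfl fun i _ => ?_
  rw [add_comm]

theorem xs_sum {k : ℕ} (hk : 2 ≤ k) (n : ℕ) : ∑ l ∈ Icc 1 (k - 1), xs k n l = n * (((k : ℝ) - 1) / k) := by
  obtain ⟨K, rfl⟩ : ∃ K, k = K + 2 := ⟨k - 2, by omega⟩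
  induction n with
  | zero =>
    rw [Nat.cast_zero, zero_mul]
    refine sum_eq_zero fun l hl => ?_
    rw [xs, if_neg]
    have := (mem_Icc.1 hl).1
    omega
  | succ n ih =>
    rw [xs_icc] at ih ⊢
    have e0 : ∀ i ∈ range (K + 1), xs (K + 2) (n + 1) (i + 1) =
        (((K : ℝ) + 1 - i) / ((K : ℝ) + 2 - i)) * xs (K + 2) n i + 1 / ((i : ℝ) + 1) * xs (K + 2) n (K + 1 - i) := by
      intro i hi
      rw [xs_succ (by omega)]
      have h1 : K + 2 - (i + 1) = K + 1 - i := by omega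
      rw [h1, Nat.add_sub_cancel]
      push_cast
      have e1 : (K : ℝ) + 2 - (i + 1) = (K : ℝ) + 1 - i := by ring
      have e2 : (K : ℝ) + 1 - i + 1 = (K : ℝ) + 2 - i := by ring
      rw [e1, e2]
    rw [sum_congr rfl e0, sum_add_distrib]
    have e3 : ∑ i ∈ range (K + 1), 1 / ((i : ℝ) + 1) * xs (K + 2) n (K + 1 - i) =
        ∑ i ∈ range (K + 1), 1 / ((K : ℝ) + 1 - i) * xs (K + 2) n (i + 1) := by
      rw [← sum_range_reflect]
      refine sum_congr rfl fun i hi => ?_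
      have hi' := mem_range.1 hi
      have h1 : K + 1 - 1 - i = K - i := by omega
      have h2 : K + 1 - (K - i) = i + 1 := by omega
      rw [h1, h2, Nat.cast_sub (by omega)]
      have h3 : (K : ℝ) - i + 1 = (K : ℝ) + 1 - i := by ring
      rw [h3]
    rw [e3, sum_range_succ' (fun i : ℕ => (((K : ℝ) + 1 - i) / ((K : ℝ) + 2 - i)) * xs (K + 2) n i),
      sum_range_succ (fun i : ℕ => 1 / ((K : ℝ) + 1 - i) * xs (K + 2) n (i + 1))]
    rw [sum_range_succ (fun i : ℕ => xs (K + 2) n (i + 1))] at ih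
    have e4 : ∑ i ∈ range K, (((K : ℝ) + 1 - ((i + 1 : ℕ) : ℝ)) / ((K : ℝ) + 2 - ((i + 1 : ℕ) : ℝ))) * xs (K + 2) n (i + 1) +
        ∑ i ∈ range K, 1 / ((K : ℝ) + 1 - i) * xs (K + 2) n (i + 1) = ∑ i ∈ range K, xs (K + 2) n (i + 1) := by
      rw [← sum_add_distrib]
      refine sum_congr rfl fun i hi => ?_
      have hi' : (i : ℝ) < K := by exact_mod_cast mem_range.1 hi
      have h1 : ((K : ℝ) + 1 - i) ≠ 0 := by linarith
      have h2 : (K : ℝ) + 2 - ((i + 1 : ℕ) : ℝ) = (K : ℝ) + 1 - i := by push_cast; ring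
      have h3 : (K : ℝ) + 1 - ((i + 1 : ℕ) : ℝ) = (K : ℝ) + 1 - i - 1 := by push_cast; ring
      rw [h2, h3, ← add_mul]
      have h4 : ((K : ℝ) + 1 - i - 1) / ((K : ℝ) + 1 - i) + 1 / ((K : ℝ) + 1 - i) = 1 := by
        field_simp
        ring
      rw [h4, one_mul]
    have e5 : 1 / ((K : ℝ) + 1 - K) * xs (K + 2) n (K + 1) = xs (K + 2) n (K + 1) := by
      have : (K : ℝ) + 1 - K = 1 := by ring
      rw [this]
      ring
    have e6 : (((K : ℝ) + 1 - ((0 : ℕ) : ℝ)) / ((K : ℝ) + 2 - ((0 : ℕ) : ℝ))) * xs (K + 2) n 0 = ((K : ℝ) + 1) / ((K : ℝ) + 2) := by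
      rw [xs_zero]
      push_cast
      ring
    rw [e5, e6]
    push_cast at ih ⊢
    have e7 : (K : ℝ) + 2 - 1 = K + 1 := by ring
    rw [e7] at ih ⊢
    push_cast at e4
    linarith

theorem xs_large {k : ℕ} (hk : 2 ≤ k) (n : ℕ) : ∃ l : ℕ, 1 ≤ l ∧ l < k ∧ (n : ℝ) / k ≤ xs k n l := by
  by_contra hcon
  push Not at hcon
  have h1 : ∑ l ∈ Icc 1 (k - 1), xs k n l < ∑ l ∈ Icc 1 (k - 1), (n : ℝ) / k := by
    refine sum_lt_sum_of_nonempty ⟨1, mem_Icc.2 ⟨le_rfl, by omega⟩⟩ fun l hl => ?_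
    have := mem_Icc.1 hl
    exact hcon l this.1 (by omega)
  rw [xs_sum hk, sum_const, Nat.card_Icc, nsmul_eq_mul, Nat.sub_add_cancel (by omega), Nat.cast_sub (by omega)] at h1
  push_cast at h1
  have h2 : (n : ℝ) * (((k : ℝ) - 1) / k) = ((k : ℝ) - 1) * ((n : ℝ) / k) := by ring
  linarith

end Pool.Agent.Lib.VM
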