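import Pool.Agent.Lib.VM.LemB
import Pool.Agent.Lib.VM.MTriv
import Pool.Agent.Lib.VM.HoldM
import Pool.Agent.Lib.VM.Xs

/-!
# VM / Rec: the recursion

PROOF. Induction on `n`; `T = tri k`. `n = 0`: `mtriv` with `E = C p^(2 T η B)` (`xs k 0 l = 0` for `l ≥ 1`; `(k-l+1) b / l ≤ k b ≤ B`; `Dec_mono`). STEP `n + 1`: `b` is a positive
multiple of `(k!)^(n+1)`, so `b ≥ k! ≥ k`, `l ∣ b`; let `a = (k-l+1) b / l` (exact), `a ≤ k b`. (1) `M_(k-l)(b, a)`: `lemB` with `l := k-l`, `a := b`, `a' := (l+1) a / (k-l)`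
(natural division; `k - (k-l) + 1 = l + 1`), `b := a`: `k - l ≤ b`; `b ≤ a' ≤ 4 b ≤ B` because `(l+1) a = (l+1)(k-l+1) b / l`, `(l+1)/l ≤ 2`, `(k-l+1)/(k-l) ≤ 2`; `n := n0`; and the induction
hypothesis at `a` for `k - l` (`(k!)^n ∣ a`, `k^(n+1) a ≤ k^(n+2) b ≤ B`): constant `C1^(n0+1) p^(ε B) C C1^((n0+1) n) p^(2Tη(B - xs n (k-l) a) + ε n B)`. (2) `M_(l-1)(a, b)`: for `l = 1`
`mzero` (`xs k n 0 = 1`); for `l ≥ 2` `lemB` with `l := l-1`, levels `a → a' = (k-l+2) b / (l-1)`, `a ≤ a' ≤ 4 a`, `l - 1 ≤ a`, and the induction hypothesis at `b` for `l - 1`.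
(3) `holdM`: exponents `θ = (k-l)/(k-l+1)`, `1 - θ = 1/(k-l+1)`: `θ xs n (l-1) b + (1-θ) xs n (k-l) a = xs (n+1) l b` since `(1-θ) a = b / l`. (`Mm_mono` where the constants are only `≤`.)
-/

set_option autoImplicit false

open Finset
open scoped ENNReal

namespace Pool.Agent.Lib.VM

/-- the arithmetic of the levels `a = (k-l+1) b / l` -/
theorem rec_arith {k n l b B : ℕ} (hl : 1 ≤ l) (hlk : l < k) (hb : 0 < b) (hd : k.factorial ^ (n + 1) ∣ b)
    (hB : k ^ (n + 1 + 1) * b ≤ B) :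
    l * ((k - l + 1) * b / l) = (k - l + 1) * b ∧ 0 < (k - l + 1) * b / l ∧ k.factorial ^ n ∣ (k - l + 1) * b / l ∧
      k ^ (n + 1) * ((k - l + 1) * b / l) ≤ B ∧ (k - l + 1) * b / l ≤ k * b ∧ k ≤ b ∧ k * b ≤ B ∧ l - 1 ≤ (k - l + 1) * b / l := by
  have hlf : l ∣ k.factorial := Nat.dvd_factorial hl hlk.le
  obtain ⟨u, hu⟩ := hlf
  obtain ⟨c, hc⟩ := hd
  have hc' : b = l * (k.factorial ^ n * (u * c)) := by
    rw [hc, pow_succ]
    nth_rewrite 2 [hu]
    ring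
  have hcp : 0 < c := by
    rcases Nat.eq_zero_or_pos c with h | h
    · subst h; simp at hc; omega
    · exact h
  have ha : (k - l + 1) * b / l = (k - l + 1) * (k.factorial ^ n * (u * c)) := by
    rw [hc']
    rw [show (k - l + 1) * (l * (k.factorial ^ n * (u * c))) = l * ((k - l + 1) * (k.factorial ^ n * (u * c))) by ring]
    exact Nat.mul_div_cancel_left _ (by omega)
  have h1 : l * ((k - l + 1) * b / l) = (k - l + 1) * b := by
    rw [ha, hc']; ring
  have h2 : (k - l + 1) * b / l ≤ k * b := by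
    apply Nat.div_le_of_le_mul
    have : (k - l + 1) * b ≤ k * b := Nat.mul_le_mul_right _ (by omega)
    calc (k - l + 1) * b ≤ k * b := this
      _ = 1 * (k * b) := by ring
      _ ≤ l * (k * b) := Nat.mul_le_mul_right _ hl
  have hk0 : 0 < k := by omega
  have hfk : k ≤ k.factorial := Nat.self_le_factorial k
  have hfb : k.factorial ≤ b := by
    apply Nat.le_of_dvd hb
    rw [hc]
    exact (dvd_pow_self _ (by omega)).mul_right _
  have hkb : k ≤ b := le_trans hfk hfb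
  have hpos : 0 < (k - l + 1) * b / l := by
    rcases Nat.eq_zero_or_pos ((k - l + 1) * b / l) with h | h
    · rw [h] at h1
      have : 0 < (k - l + 1) * b := Nat.mul_pos (by omega) hb
      omega
    · exact h
  refine ⟨h1, hpos, ?_, ?_, h2, hkb, ?_, ?_⟩
  · rw [ha]
    exact ⟨(k - l + 1) * (u * c), by ring⟩
  · calc k ^ (n + 1) * ((k - l + 1) * b / l) ≤ k ^ (n + 1) * (k * b) := Nat.mul_le_mul_left _ h2
      _ = k ^ (n + 1 + 1) * b := by ring
      _ ≤ B := hB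
  · calc k * b = k ^ 1 * b := by ring
      _ ≤ k ^ (n + 1 + 1) * b := Nat.mul_le_mul_right _ (Nat.pow_le_pow_right hk0 (by omega))
      _ ≤ B := hB
  · -- `l (l-1) ≤ l * k ≤ l a`?  `a ≥ b (k-l+1) / l`, `b = l * w`, `w ≥ (k-1)!`
    rw [ha]
    -- u * c ≥ u, u * l = k!
    have hw : l - 1 ≤ 1 * (1 * (u * c)) := by
      have hu1 : 1 ≤ u := by
        rcases Nat.eq_zero_or_pos u with h | h
        · subst h; simp at hu; exact absurd hu (Nat.factorial_ne_zero k)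
        · exact h
      have hku : (k - 1).factorial ≤ u := by
        have h3 : k.factorial = k * (k - 1).factorial := by
          rw [← Nat.mul_factorial_pred (by omega)]
        have h4 : l * (k - 1).factorial ≤ l * u := by
          rw [← hu, h3]
          exact Nat.mul_le_mul_right _ hlk.le
        exact Nat.le_of_mul_le_mul_left h4 (by omega)
      have h5 : k - 1 ≤ (k - 1).factorial := Nat.self_le_factorial _
      calc l - 1 ≤ k - 1 := by omega
        _ ≤ u := le_trans h5 hku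
        _ = u * 1 := by ring
        _ ≤ u * c := Nat.mul_le_mul_left _ hcp
        _ = _ := by ring
    refine le_trans hw ?_
    exact Nat.mul_le_mul (by omega) (Nat.mul_le_mul_right _ (Nat.one_le_pow _ _ (Nat.factorial_pos k)))

/-- the arithmetic of the level `a'` for `M_(k-l)(b, a)` -/
theorem rec_arith1 {k l a b : ℕ} (hl : 1 ≤ l) (hlk : l < k) (h1 : l * a = (k - l + 1) * b) :
    b ≤ (l + 1) * a / (k - l) ∧ (l + 1) * a / (k - l) ≤ 4 * b ∧ (k - l) * ((l + 1) * a / (k - l)) ≤ (l + 1) * a := by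
  obtain ⟨m, rfl⟩ : ∃ m, k = l + m := ⟨k - l, by omega⟩
  have hm : 1 ≤ m := by omega
  have e : l + m - l = m := by omega
  rw [e] at h1 ⊢
  refine ⟨?_, ?_, Nat.mul_div_le _ _⟩
  · rw [Nat.le_div_iff_mul_le (by omega)]
    -- b * m ≤ (l+1) * a ; l * (l+1) * a = (l+1)(m+1) b ≥ l m b
    have h2 : l * (b * m) ≤ l * ((l + 1) * a) := by
      calc l * (b * m) ≤ (l + 1) * ((m + 1) * b) := by nlinarith
        _ = (l + 1) * (l * a) := by rw [h1]
        _ = l * ((l + 1) * a) := by ring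
    exact Nat.le_of_mul_le_mul_left h2 (by omega)
  · apply Nat.div_le_of_le_mul
    have h2 : l * ((l + 1) * a) ≤ l * (m * (4 * b)) := by
      calc l * ((l + 1) * a) = (l + 1) * (l * a) := by ring
        _ = (l + 1) * ((m + 1) * b) := by rw [h1]
        _ ≤ (2 * l) * ((2 * m) * b) := Nat.mul_le_mul (by omega) (Nat.mul_le_mul_right _ (by omega))
        _ = l * (m * (4 * b)) := by ring
    exact Nat.le_of_mul_le_mul_left h2 (by omega)

/-- the arithmetic of the level `a'` for `M_(l-1)(a, b)` -/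
theorem rec_arith2 {k l a b : ℕ} (hl : 2 ≤ l) (hlk : l < k) (h1 : l * a = (k - l + 1) * b) :
    a ≤ (k - (l - 1) + 1) * b / (l - 1) ∧ (k - (l - 1) + 1) * b / (l - 1) ≤ 4 * a ∧ (k - (l - 1) + 1) * b / (l - 1) ≤ k * b ∧
      (l - 1) * ((k - (l - 1) + 1) * b / (l - 1)) ≤ (k - (l - 1) + 1) * b := by
  obtain ⟨m, rfl⟩ : ∃ m, k = l + m := ⟨k - l, by omega⟩
  obtain ⟨q, rfl⟩ : ∃ q, l = q + 1 := ⟨l - 1, by omega⟩
  have hm : 1 ≤ m := by omega
  have hq : 1 ≤ q := by omega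
  have e : q + 1 + m - (q + 1) = m := by omega
  have e2 : q + 1 - 1 = q := by omega
  have e3 : q + 1 + m - q = m + 1 := by omega
  rw [e] at h1
  rw [e2, e3]
  refine ⟨?_, ?_, ?_, Nat.mul_div_le _ _⟩
  · rw [Nat.le_div_iff_mul_le (by omega)]
    have h2 : (q + 1) * (a * q) ≤ (q + 1) * ((m + 1 + 1) * b) := by
      calc (q + 1) * (a * q) = ((q + 1) * a) * q := by ring
        _ = ((m + 1) * b) * q := by rw [h1]
        _ = q * ((m + 1) * b) := by ring
        _ ≤ (q + 1) * ((m + 1 + 1) * b) := Nat.mul_le_mul (by omega) (Nat.mul_le_mul_right _ (by omega))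
    exact Nat.le_of_mul_le_mul_left h2 (by omega)
  · apply Nat.div_le_of_le_mul
    have h2 : (q + 1) * ((m + 1 + 1) * b) ≤ (q + 1) * (q * (4 * a)) := by
      calc (q + 1) * ((m + 1 + 1) * b) ≤ (2 * q) * ((2 * (m + 1)) * b) :=
            Nat.mul_le_mul (by omega) (Nat.mul_le_mul_right _ (by omega))
        _ = 4 * q * ((m + 1) * b) := by ring
        _ = 4 * q * ((q + 1) * a) := by rw [h1]
        _ = (q + 1) * (q * (4 * a)) := by ring
    exact Nat.le_of_mul_le_mul_left h2 (by omega)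
  · apply Nat.div_le_of_le_mul
    have : m + 1 + 1 ≤ q * (q + 1 + m) := by nlinarith
    calc (m + 1 + 1) * b ≤ (q * (q + 1 + m)) * b := Nat.mul_le_mul_right _ this
      _ = q * ((q + 1 + m) * b) := by ring

theorem rec_comb {C C1 P : ℝ≥0∞} (hP : P ≠ 0) (hPt : P ≠ ⊤) (n0 n : ℕ) (ε B u : ℝ) :
    C1 ^ (n0 + 1) * P ^ (ε * B) * (C * C1 ^ ((n0 + 1) * n) * P ^ (u + ε * n * B)) =
      C * C1 ^ ((n0 + 1) * (n + 1)) * P ^ (u + ε * ((n + 1 : ℕ) : ℝ) * B) := by
  have h1 : u + ε * ((n + 1 : ℕ) : ℝ) * B = ε * B + (u + ε * n * B) := by push_cast; ring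
  rw [h1, ENNReal.rpow_add (ε * B) (u + ε * n * B) hP hPt, show (n0 + 1) * (n + 1) = (n0 + 1) + (n0 + 1) * n by ring, pow_add]
  ring

theorem rec_interp {D P : ℝ≥0∞} (hD0 : D ≠ 0) (hDt : D ≠ ⊤) (hP : P ≠ 0) (hPt : P ≠ ⊤) {θ u v : ℝ} (h0 : 0 ≤ θ) (h1 : θ ≤ 1) :
    (D * P ^ u) ^ θ * (D * P ^ v) ^ (1 - θ) = D * P ^ (θ * u + (1 - θ) * v) := by
  rw [ENNReal.mul_rpow_of_nonneg _ _ h0, ENNReal.mul_rpow_of_nonneg _ _ (by linarith : (0 : ℝ) ≤ 1 - θ), ← ENNReal.rpow_mul,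
    ← ENNReal.rpow_mul, ENNReal.rpow_add _ _ hP hPt]
  have : D ^ θ * D ^ (1 - θ) = D := by
    rw [← ENNReal.rpow_add _ _ hD0 hDt]
    simp
  calc D ^ θ * P ^ (u * θ) * (D ^ (1 - θ) * P ^ (v * (1 - θ))) = (D ^ θ * D ^ (1 - θ)) * (P ^ (u * θ) * P ^ (v * (1 - θ))) := by ring
    _ = _ := by rw [this, mul_comm u θ, mul_comm v (1 - θ)]

theorem recm {k p : ℕ} (hk : 2 ≤ k) (hp : p.Prime) (hkp : k < p) {η ε : ℝ} (hη : 0 ≤ η) (hε : 0 ≤ ε) {C C1 : ℝ≥0∞} (hC : 1 ≤ C)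
    (hC1 : 1 ≤ C1) (hCt : C ≠ ⊤) (hC1t : C1 ≠ ⊤) (hD : ∀ B : ℕ, Dec k p B (C * (p : ℝ≥0∞) ^ (2 * (tri k : ℝ) * η * B)))
    (hL : ∀ l : ℕ, 1 ≤ l → l < k → ∀ t : ℕ, Dec l p t (C1 * (p : ℝ≥0∞) ^ (ε * t)))
    {n0 : ℕ} (hn0 : ∀ l : ℕ, 1 ≤ l → l < k → (k + 4) * (2 * l) ^ n0 ≤ (2 * l + 1) ^ n0) (n : ℕ) :
    ∀ B b l : ℕ, 1 ≤ l → l < k → 0 < b → k.factorial ^ n ∣ b → k ^ (n + 1) * b ≤ B →
      Mm k p B l ((k - l + 1) * b / l) b (C * C1 ^ ((n0 + 1) * n) *
        (p : ℝ≥0∞) ^ (2 * (tri k : ℝ) * η * ((B : ℝ) - xs k n l * b) + ε * n * B)) := by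
  have hP0 : (p : ℝ≥0∞) ≠ 0 := by
    have := hp.pos
    simp only [ne_eq, Nat.cast_eq_zero]; omega
  have hPt : (p : ℝ≥0∞) ≠ ⊤ := ENNReal.natCast_ne_top p
  have hP1 : (1 : ℝ≥0∞) ≤ (p : ℝ≥0∞) := by exact_mod_cast hp.one_lt.le
  have hT : (0 : ℝ) ≤ (tri k : ℝ) := Nat.cast_nonneg _
  have hTη : 0 ≤ 2 * (tri k : ℝ) * η := by positivity
  have hC0 : C ≠ 0 := (lt_of_lt_of_le zero_lt_one hC).ne'
  have hC10 : C1 ≠ 0 := (lt_of_lt_of_le zero_lt_one hC1).ne'
  have hDD : ∀ m : ℕ, C * C1 ^ m ≠ 0 := fun m => mul_ne_zero hC0 (pow_ne_zero _ hC10)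
  have hDDt : ∀ m : ℕ, C * C1 ^ m ≠ ⊤ := fun m => ENNReal.mul_ne_top hCt (ENNReal.pow_ne_top hC1t)
  have hDmono : ∀ B c : ℕ, c ≤ B → Dec k p (B - c) (C * (p : ℝ≥0∞) ^ (2 * (tri k : ℝ) * η * ((B : ℝ) - c))) := by
    intro B c hc
    have := hD (B - c)
    rwa [Nat.cast_sub hc] at this
  induction n with
  | zero =>
    intro B b l hl hlk hb _ hB
    have hkb : k * b ≤ B := by simpa using hB
    have haB : (k - l + 1) * b / l ≤ B := by
      apply Nat.div_le_of_le_mul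
      calc (k - l + 1) * b ≤ k * b := Nat.mul_le_mul_right _ (by omega)
        _ ≤ B := hkb
        _ = 1 * B := by ring
        _ ≤ l * B := Nat.mul_le_mul_right _ hl
    have hbB : b ≤ B := by
      calc b = 1 * b := by ring
        _ ≤ k * b := Nat.mul_le_mul_right _ (by omega)
        _ ≤ B := hkb
    have hx0 : xs k 0 l = 0 := by simp [xs]; omega
    have hmon : ∀ c : ℕ, c ≤ B → Dec k p (B - c) (C * C1 ^ ((n0 + 1) * 0) *
        (p : ℝ≥0∞) ^ (2 * (tri k : ℝ) * η * ((B : ℝ) - xs k 0 l * b) + ε * ((0 : ℕ) : ℝ) * B)) := by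
      intro c hc
      refine Dec_mono ?_ (hDmono B c hc)
      rw [mul_zero, pow_zero, mul_one]
      gcongr
      rw [hx0]
      have : (0 : ℝ) ≤ c := Nat.cast_nonneg _
      push_cast
      nlinarith
    exact mtriv hp hl hlk haB hbB (hmon _ haB) (hmon _ hbB)
  | succ n ih =>
    intro B b l hl hlk hb hd hB
    obtain ⟨h1, hapos, hda, hBa, hakb, hkb, hkbB, hla⟩ := rec_arith hl hlk hb hd hB
    set a := (k - l + 1) * b / l with ha
    have haB : a ≤ B := le_trans hakb hkbB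
    have hbkb : b ≤ k * b := by
      calc b = 1 * b := by ring
        _ ≤ k * b := Nat.mul_le_mul_right _ (by omega)
    have hbB : b ≤ B := le_trans hbkb hkbB
    have hdb : k.factorial ^ n ∣ b := dvd_trans (pow_dvd_pow _ (Nat.le_succ n)) hd
    have hBb : k ^ (n + 1) * b ≤ B := by
      refine le_trans ?_ hB
      exact Nat.mul_le_mul_right _ (Nat.pow_le_pow_right (by omega) (by omega))
    -- the bilinear inequality for `k - l`
    have hM2 : Mm k p B (k - l) b a (C * C1 ^ ((n0 + 1) * (n + 1)) *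
        (p : ℝ≥0∞) ^ (2 * (tri k : ℝ) * η * ((B : ℝ) - xs k n (k - l) * a) + ε * ((n + 1 : ℕ) : ℝ) * B)) := by
      obtain ⟨g1, g2, g3⟩ := rec_arith1 hl hlk h1
      have hIH := ih B a (k - l) (by omega) (by omega) hapos hda hBa
      have e : k - (k - l) + 1 = l + 1 := by omega
      rw [e] at hIH
      have h4b : 4 * b ≤ B := by
        refine le_trans (Nat.mul_le_mul_right _ ?_) hB
        calc 4 = 2 ^ 2 := by norm_num
          _ ≤ k ^ 2 := Nat.pow_le_pow_left hk 2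
          _ ≤ k ^ (n + 1 + 1) := Nat.pow_le_pow_right (by omega) (by omega)
      have := lemB (n := n0) hp hkp (by omega : 1 ≤ k - l) (by omega : k - l < k) (by omega : k - l ≤ b) g1 (le_trans g2 h4b) haB
        (by rw [e]; exact g3) (by
          calc (l + 1) * a / (k - l) * (2 * (k - l)) ^ n0 ≤ (4 * b) * (2 * (k - l)) ^ n0 := Nat.mul_le_mul_right _ g2
            _ ≤ ((k + 4) * b) * (2 * (k - l)) ^ n0 := Nat.mul_le_mul_right _ (Nat.mul_le_mul_right _ (by omega))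
            _ = b * ((k + 4) * (2 * (k - l)) ^ n0) := by ring
            _ ≤ b * (2 * (k - l) + 1) ^ n0 := Nat.mul_le_mul_left _ (hn0 (k - l) (by omega) (by omega))) hC1 hε
        (hL (k - l) (by omega) (by omega)) hIH
      rwa [rec_comb hP0 hPt] at this
    -- the bilinear inequality for `l - 1`
    have hM1 : Mm k p B (l - 1) a b (C * C1 ^ ((n0 + 1) * (n + 1)) *
        (p : ℝ≥0∞) ^ (2 * (tri k : ℝ) * η * ((B : ℝ) - xs k n (l - 1) * b) + ε * ((n + 1 : ℕ) : ℝ) * B)) := by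
      rcases Nat.lt_or_ge l 2 with hl2 | hl2
      · have hl1 : l = 1 := by omega
        subst hl1
        refine Mm_mono ?_ (mzero (by omega : 1 ≤ k) hp hbB (hDmono B b hbB))
        rw [show (1 - 1 : ℕ) = 0 from rfl, xs_zero]
        have hq : (1 : ℝ≥0∞) ≤ C1 ^ ((n0 + 1) * (n + 1)) := one_le_pow₀ hC1
        calc C * (p : ℝ≥0∞) ^ (2 * (tri k : ℝ) * η * ((B : ℝ) - b))
            ≤ C * C1 ^ ((n0 + 1) * (n + 1)) * (p : ℝ≥0∞) ^ (2 * (tri k : ℝ) * η * ((B : ℝ) - b)) := by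
              gcongr
              exact le_mul_of_one_le_right' hq
          _ ≤ _ := by
              gcongr
              have : 0 ≤ ε * ((n + 1 : ℕ) : ℝ) * B := by positivity
              linarith
      · obtain ⟨g1, g2, g3, g4⟩ := rec_arith2 hl2 hlk h1
        have hIH := ih B b (l - 1) (by omega) (by omega) hb hdb hBb
        have := lemB (n := n0) hp hkp (by omega : 1 ≤ l - 1) (by omega : l - 1 < k) hla g1 (le_trans g3 hkbB) hbB g4 (by
          calc (k - (l - 1) + 1) * b / (l - 1) * (2 * (l - 1)) ^ n0 ≤ (4 * a) * (2 * (l - 1)) ^ n0 := Nat.mul_le_mul_right _ g2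
            _ ≤ ((k + 4) * a) * (2 * (l - 1)) ^ n0 := Nat.mul_le_mul_right _ (Nat.mul_le_mul_right _ (by omega))
            _ = a * ((k + 4) * (2 * (l - 1)) ^ n0) := by ring
            _ ≤ a * (2 * (l - 1) + 1) ^ n0 := Nat.mul_le_mul_left _ (hn0 (l - 1) (by omega) (by omega))) hC1 hε
          (hL (l - 1) (by omega) (by omega)) hIH
        rwa [rec_comb hP0 hPt] at this
    have hM := holdM hl hlk hM1 hM2
    refine Mm_mono (le_of_eq ?_) hM
    have hkl : (0 : ℝ) < (k : ℝ) - l := by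
      have : (l : ℝ) < k := by exact_mod_cast hlk
      linarith
    have hθ : 1 / ((k : ℝ) - l + 1) = 1 - ((k : ℝ) - l) / ((k : ℝ) - l + 1) := by
      field_simp
      ring
    have hlpos : (0 : ℝ) < l := by exact_mod_cast hl
    have h1r : (l : ℝ) * a = ((k : ℝ) - l + 1) * b := by
      have := congrArg (Nat.cast : ℕ → ℝ) h1
      push_cast [Nat.cast_sub hlk.le] at this
      exact this
    rw [hθ, rec_interp (hDD _) (hDDt _) hP0 hPt (by positivity) (by rw [div_le_one (by linarith)]; linarith)]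
    congr 2
    rw [← hθ]
    have hxs : xs k (n + 1) l = ((k : ℝ) - l) / ((k : ℝ) - l + 1) * xs k n (l - 1) + 1 / (l : ℝ) * xs k n (k - l) := by
      rw [xs, if_neg (by omega)]
    rw [hxs]
    have ha' : (a : ℝ) = ((k : ℝ) - l + 1) * b / l := by
      field_simp
      linarith
    rw [ha']
    have : (k : ℝ) - l + 1 ≠ 0 := by positivity
    field_simp
    ring

end Pool.Agent.Lib.VM
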