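import Pool.Agent.Lib.VM.BN
import Pool.Agent.Lib.VM.Rec

/-!
# VM / Gain: the exponent of the linear inequality can be lowered

PROOF. `T = tri k`, `δ = 1/(2 k^(N+1))`, `K = k^(N+1) (k!)^N`. Take `n0` with `(k+4) (2l)^n0 ≤ (2l+1)^n0` for all `1 ≤ l < k` (`(1 + 1/(2l))^n → ∞`), `C, C1 ≥ 1` (enlarge them,
`Dec_mono`), and `l` with `xs k N l ≥ N/k` (`xs_large`). For `B ≥ K` put `b = (k!)^N (B / K)` (natural division): `b > 0`, `k^(N+1) b ≤ B`, `b ≥ B/k^(N+1) - (k!)^N` (real numbers),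
`a = (k-l+1) b / l`, `1 ≤ a ≤ k b` (`l ≤ b`? `b ≥ 1` and `l = 1` or `N ≥ 1`, then `b ≥ k! ≥ l`; `N ≥ 1` by `hN`). `recm` and `bn`: `Dec k p B (2^(2T) E1 + p^(6T(a+b)) E2)`, `E1` any
constant for `B - 1`, `E2 = C C1^((n0+1)N) p^(2Tη(B - (N/k) b) + ε1 N B)`, `ε1 = T/(N k^(N+1))`. Exponent: `6T(k+1) b + 2TηB - 2Tη(N/k) b + T B/k^(N+1)`; as `η N/k ≥ ε N/k ≥ 3k + 4` this is
`≤ 2TηB - 2T b + T B/k^(N+1) ≤ 2T(η - δ)B + 2T (k!)^N`. So with `η' = max (η - δ) ε` and a finite `G`: `Dec k p B (2^(2T) E1 + G p^(2Tη'B))` for all `B ≥ K`. Since `p^(2Tη') ≥ p^(2Tε) ≥ 4^(2T) ≥ 2 · 2^(2T)`,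
induction on `B` gives `Dec k p B (G' p^(2Tη'B))` with `G' = max (2 G) (C p^(2TηK))` (for `B < K` the hypothesis `hD`).
-/

set_option autoImplicit false

open Finset
open scoped ENNReal

namespace Pool.Agent.Lib.VM

private theorem gn_n0 (k : ℕ) : ∃ n0 : ℕ, ∀ l : ℕ, 1 ≤ l → l < k → (k + 4) * (2 * l) ^ n0 ≤ (2 * l + 1) ^ n0 := by
  refine ⟨2 * k * (k + 4), fun l hl hlk => ?_⟩
  have hl0 : (0 : ℝ) < l := by exact_mod_cast hl
  have hlk' : (l : ℝ) ≤ k := by exact_mod_cast hlk.le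
  have h1 : (1 : ℝ) + ((2 * k * (k + 4) : ℕ) : ℝ) * (1 / (2 * l)) ≤ (1 + 1 / (2 * l)) ^ (2 * k * (k + 4)) := by
    refine one_add_mul_le_pow ?_ _
    have : (0 : ℝ) ≤ 1 / (2 * l) := by positivity
    linarith
  have h2 : (k : ℝ) + 4 ≤ 1 + ((2 * k * (k + 4) : ℕ) : ℝ) * (1 / (2 * l)) := by
    push_cast
    have : (2 * (k : ℝ) * (k + 4)) * (1 / (2 * l)) = (k + 4) * (k / l) := by field_simp
    rw [this]
    have h3 : (1 : ℝ) ≤ k / l := by
      rw [le_div_iff₀ hl0]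
      linarith
    nlinarith
  have h3 : ((2 * l + 1 : ℕ) : ℝ) ^ (2 * k * (k + 4)) = ((2 * l : ℕ) : ℝ) ^ (2 * k * (k + 4)) * (1 + 1 / (2 * l)) ^ (2 * k * (k + 4)) := by
    rw [← mul_pow]
    congr 1
    push_cast
    field_simp
  have h4 : (((k + 4) * (2 * l) ^ (2 * k * (k + 4)) : ℕ) : ℝ) ≤ (((2 * l + 1) ^ (2 * k * (k + 4)) : ℕ) : ℝ) := by
    rw [Nat.cast_pow, h3, Nat.cast_mul, Nat.cast_pow, mul_comm]
    refine mul_le_mul_of_nonneg_left ?_ (by positivity)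
    push_cast
    exact h2.trans h1
  exact_mod_cast h4

private theorem gn_real {T kk NN F P B b a x η ε : ℝ} (hT : 0 ≤ T) (hk : 0 < kk) (hb : 0 ≤ b) (hN : kk * (3 * kk + 4) ≤ ε * NN)
    (hx : NN / kk ≤ x) (hη : ε ≤ η) (hε : 0 < ε) (ha : a ≤ kk * b) (hbB : B / P - F ≤ b) (hP : 0 < P) (hNN : 0 < NN) :
    6 * T * (a + b) + (2 * T * η * (B - x * b) + T / (NN * P) * NN * B) ≤ 2 * T * (η - 1 / (2 * P)) * B + 2 * T * F := by
  have e1 : 3 * kk + 4 ≤ η * x := by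
    have h1 : 3 * kk + 4 ≤ ε * (NN / kk) := by
      rw [← mul_div_assoc, le_div_iff₀ hk]
      linarith
    have h2 : ε * (NN / kk) ≤ η * x := mul_le_mul hη hx (by positivity) (by linarith)
    linarith
  have e2 : T / (NN * P) * NN * B = T * (B / P) := by field_simp
  have e3 : 2 * T * (η - 1 / (2 * P)) * B = 2 * T * η * B - T * (B / P) := by field_simp
  have e4 : T * a ≤ T * (kk * b) := mul_le_mul_of_nonneg_left ha hT
  have e5 : T * b * (3 * kk + 4) ≤ T * b * (η * x) := mul_le_mul_of_nonneg_left e1 (by positivity)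
  have e6 : T * (B / P - F) ≤ T * b := mul_le_mul_of_nonneg_left hbB hT
  rw [e2, e3]
  nlinarith [e4, e5, e6]

private theorem gn_half {x y z : ℝ≥0∞} (hx : x * 2 ≤ z) (hy : y * 2 ≤ z) : x + y ≤ z := by
  have h1 : x ≤ z / 2 := by
    rw [ENNReal.le_div_iff_mul_le (Or.inl (by norm_num)) (Or.inl (by norm_num))]
    exact hx
  have h2 : y ≤ z / 2 := by
    rw [ENNReal.le_div_iff_mul_le (Or.inl (by norm_num)) (Or.inl (by norm_num))]
    exact hy
  calc x + y ≤ z / 2 + z / 2 := add_le_add h1 h2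
    _ = z := ENNReal.add_halves z

theorem gain {k p : ℕ} (hk : 2 ≤ k) (hp : p.Prime) (hkp : k < p) {ε η : ℝ} (hε : 0 < ε) (hp4 : (4 : ℝ) ≤ (p : ℝ) ^ ε) (hη : ε ≤ η) {N : ℕ}
    (hN : (k : ℝ) * (3 * k + 4) ≤ ε * N) (hD : ∃ C : ℝ≥0∞, C ≠ ⊤ ∧ ∀ B : ℕ, Dec k p B (C * (p : ℝ≥0∞) ^ (2 * (tri k : ℝ) * η * B)))
    (hL : ∃ C1 : ℝ≥0∞, C1 ≠ ⊤ ∧ ∀ l : ℕ, 1 ≤ l → l < k → ∀ t : ℕ,
      Dec l p t (C1 * (p : ℝ≥0∞) ^ ((tri k : ℝ) / (N * (k : ℝ) ^ (N + 1)) * t))) :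
    ∃ C : ℝ≥0∞, C ≠ ⊤ ∧ ∀ B : ℕ, Dec k p B (C * (p : ℝ≥0∞) ^ (2 * (tri k : ℝ) * (max (η - 1 / (2 * (k : ℝ) ^ (N + 1))) ε) * B)) := by
  classical
  obtain ⟨n0, hn0⟩ := gn_n0 k
  obtain ⟨C0, hC0t, hC0⟩ := hD
  obtain ⟨D0, hD0t, hD0⟩ := hL
  have hk0 : (0 : ℝ) < k := by exact_mod_cast (by omega : 0 < k)
  have hN0 : (0 : ℝ) < N := by
    by_contra h
    have h0 : (N : ℝ) = 0 := le_antisymm (not_lt.1 h) (Nat.cast_nonneg N)
    rw [h0, mul_zero] at hN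
    have : (0 : ℝ) < k * (3 * k + 4) := by positivity
    linarith
  have hN1 : 1 ≤ N := by
    have : 0 < N := by exact_mod_cast hN0
    omega
  have hT2 : 2 * tri k = k * (k + 1) := tri_two k
  have hT1 : 1 ≤ tri k := by nlinarith
  have hTr : (0 : ℝ) ≤ tri k := Nat.cast_nonneg _
  have hp1 : (1 : ℝ≥0∞) ≤ p := by exact_mod_cast hp.one_lt.le
  have hpne : (p : ℝ≥0∞) ≠ 0 := by
    have := hp.pos
    exact_mod_cast this.ne'
  have hpt : (p : ℝ≥0∞) ≠ ⊤ := ENNReal.natCast_ne_top p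
  have hη0 : 0 ≤ η := by linarith
  set T := tri k with hT
  set e1 : ℝ := (T : ℝ) / (N * (k : ℝ) ^ (N + 1)) with he1
  have he10 : 0 ≤ e1 := by positivity
  -- constants at least one
  set C := max C0 1 with hC
  set C1 := max D0 1 with hC1
  have hCt : C ≠ ⊤ := by
    rw [hC]
    exact (max_lt (lt_top_iff_ne_top.2 hC0t) (by norm_num)).ne
  have hC1t : C1 ≠ ⊤ := by
    rw [hC1]
    exact (max_lt (lt_top_iff_ne_top.2 hD0t) (by norm_num)).ne
  have hCD : ∀ B : ℕ, Dec k p B (C * (p : ℝ≥0∞) ^ (2 * (T : ℝ) * η * B)) := fun B =>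
    Dec_mono (mul_le_mul_left (le_max_left _ _) _) (hC0 B)
  have hLD : ∀ l : ℕ, 1 ≤ l → l < k → ∀ t : ℕ, Dec l p t (C1 * (p : ℝ≥0∞) ^ (e1 * t)) := fun l hl hlk t =>
    Dec_mono (mul_le_mul_left (le_max_left _ _) _) (hD0 l hl hlk t)
  obtain ⟨l, hl1, hlk, hxs⟩ := xs_large hk N
  have hrec := recm hk hp hkp hη0 he10 (le_max_right C0 1) (le_max_right D0 1) hCt hC1t hCD hLD hn0 N
  set K : ℕ := k ^ (N + 1) * k.factorial ^ N with hK
  have hfac : 0 < k.factorial ^ N := pow_pos (Nat.factorial_pos k) N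
  have hkp0 : 0 < k ^ (N + 1) := pow_pos (by omega) _
  have hK0 : 0 < K := Nat.mul_pos hkp0 hfac
  set η' : ℝ := max (η - 1 / (2 * (k : ℝ) ^ (N + 1))) ε with hη'
  have hη'ε : ε ≤ η' := le_max_right _ _
  have hη'0 : 0 < η' := by linarith
  set G : ℝ≥0∞ := C * C1 ^ ((n0 + 1) * N) * (p : ℝ≥0∞) ^ (2 * (T : ℝ) * (k.factorial ^ N : ℕ)) with hG
  have hGt : G ≠ ⊤ := by
    rw [hG]
    refine ENNReal.mul_ne_top (ENNReal.mul_ne_top hCt (ENNReal.pow_ne_top hC1t)) ?_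
    exact ENNReal.rpow_ne_top_of_nonneg (by positivity) hpt
  -- one step
  have hstep : ∀ B : ℕ, K ≤ B → ∀ E1 : ℝ≥0∞, Dec k p (B - 1) E1 →
      Dec k p B (2 ^ (2 * T) * E1 + G * (p : ℝ≥0∞) ^ (2 * (T : ℝ) * η' * B)) := by
    intro B hB E1 hE1
    set q := B / K with hq
    have hq1 : 1 ≤ q := (Nat.one_le_div_iff hK0).2 hB
    have hqB : K * q ≤ B := Nat.mul_div_le B K
    have hqB' : B < K * q + K := by
      have := Nat.lt_mul_div_succ B hK0
      rw [Nat.mul_add, mul_one] at this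
      exact this
    set b := k.factorial ^ N * q with hb
    have hb0 : 0 < b := Nat.mul_pos hfac hq1
    have hkb : k ^ (N + 1) * b ≤ B := by
      rw [hb, ← mul_assoc]
      exact hqB
    have hlf : l ∣ b := by
      refine Dvd.dvd.mul_right ?_ q
      exact (Nat.dvd_factorial hl1 hlk.le).trans (dvd_pow_self _ (by omega))
    obtain ⟨c, hc⟩ := hlf
    have hc0 : 0 < c := Nat.pos_of_ne_zero (by rintro rfl; simp at hc; omega)
    set a := (k - l + 1) * b / l with ha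
    have hac : a = (k - l + 1) * c := by
      rw [ha, hc, show (k - l + 1) * (l * c) = (k - l + 1) * c * l by ring, Nat.mul_div_cancel _ hl1]
    have ha1 : 1 ≤ a := by
      rw [hac]
      exact Nat.mul_pos (by omega) hc0
    have hcb : c ≤ b := by
      rw [hc]
      exact Nat.le_mul_of_pos_left c hl1
    have hakb : a ≤ k * b := by
      rw [hac]
      exact Nat.mul_le_mul (by omega) hcb
    have hkk : k * b ≤ k ^ (N + 1) * b := Nat.mul_le_mul_right b (Nat.le_self_pow (by omega) k)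
    have hbB : b ≤ B := (Nat.le_mul_of_pos_left b hkp0).trans hkb
    have hM := hrec B b l hl1 hlk hb0 (dvd_mul_right _ _) hkb
    have hmain := bn hp (by omega : 1 ≤ B) hl1 hlk ha1 (hakb.trans (hkk.trans hkb)) hb0 hbB hE1 hM
    refine Dec_mono (add_le_add le_rfl ?_) hmain
    have hP0 : (0 : ℝ) < (k : ℝ) ^ (N + 1) := by positivity
    have hbr : (B : ℝ) / (k : ℝ) ^ (N + 1) - ((k.factorial ^ N : ℕ) : ℝ) ≤ b := by
      rw [sub_le_iff_le_add, div_le_iff₀ hP0]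
      have h1 : (B : ℝ) ≤ (K : ℝ) * q + K := by exact_mod_cast hqB'.le
      have h2 : (K : ℝ) = (k : ℝ) ^ (N + 1) * ((k.factorial ^ N : ℕ) : ℝ) := by
        rw [hK]
        push_cast
        ring
      have h3 : (b : ℝ) = ((k.factorial ^ N : ℕ) : ℝ) * q := by
        rw [hb]
        push_cast
        ring
      rw [h3]
      rw [h2] at h1
      linarith
    have hreal := gn_real (T := (T : ℝ)) (kk := k) (NN := N) (F := ((k.factorial ^ N : ℕ) : ℝ)) (P := (k : ℝ) ^ (N + 1)) (B := B)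
      (b := b) (a := a) (x := xs k N l) (η := η) (ε := ε) hTr hk0 (Nat.cast_nonneg b) hN hxs hη hε (by exact_mod_cast hakb) hbr hP0 hN0
    rw [← ENNReal.rpow_natCast (p : ℝ≥0∞) (6 * T * (a + b))]
    calc (p : ℝ≥0∞) ^ ((6 * T * (a + b) : ℕ) : ℝ) * (C * C1 ^ ((n0 + 1) * N) *
          (p : ℝ≥0∞) ^ (2 * (T : ℝ) * η * ((B : ℝ) - xs k N l * b) + e1 * N * B))
        = C * C1 ^ ((n0 + 1) * N) * ((p : ℝ≥0∞) ^ ((6 * T * (a + b) : ℕ) : ℝ) *
          (p : ℝ≥0∞) ^ (2 * (T : ℝ) * η * ((B : ℝ) - xs k N l * b) + e1 * N * B)) := by ring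
      _ = C * C1 ^ ((n0 + 1) * N) * (p : ℝ≥0∞) ^ (((6 * T * (a + b) : ℕ) : ℝ) +
          (2 * (T : ℝ) * η * ((B : ℝ) - xs k N l * b) + e1 * N * B)) := by
          rw [← ENNReal.rpow_add _ _ hpne hpt]
      _ ≤ C * C1 ^ ((n0 + 1) * N) * (p : ℝ≥0∞) ^ (2 * (T : ℝ) * ((k.factorial ^ N : ℕ) : ℝ) + 2 * (T : ℝ) * η' * B) := by
          refine mul_le_mul_right (ENNReal.rpow_le_rpow_of_exponent_le hp1 ?_) _
          have h1 : 2 * (T : ℝ) * (η - 1 / (2 * (k : ℝ) ^ (N + 1))) * B ≤ 2 * (T : ℝ) * η' * B := by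
            refine mul_le_mul_of_nonneg_right (mul_le_mul_of_nonneg_left (le_max_left _ _) (by positivity)) (Nat.cast_nonneg B)
          rw [he1]
          push_cast
          push_cast at hreal
          linarith
      _ = G * (p : ℝ≥0∞) ^ (2 * (T : ℝ) * η' * B) := by
          rw [ENNReal.rpow_add _ _ hpne hpt, hG]
          ring
  -- induction
  set G' : ℝ≥0∞ := max (G * 2) (C * (p : ℝ≥0∞) ^ (2 * (T : ℝ) * η * K)) with hG'
  refine ⟨G', ?_, fun B => ?_⟩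
  · rw [hG']
    refine (max_lt (lt_top_iff_ne_top.2 (ENNReal.mul_ne_top hGt (by norm_num))) (lt_top_iff_ne_top.2 ?_)).ne
    exact ENNReal.mul_ne_top hCt (ENNReal.rpow_ne_top_of_nonneg (by positivity) hpt)
  · induction B using Nat.strong_induction_on with
    | _ B ih =>
      by_cases hBK : B < K
      · refine Dec_mono ?_ (hCD B)
        calc C * (p : ℝ≥0∞) ^ (2 * (T : ℝ) * η * B) ≤ C * (p : ℝ≥0∞) ^ (2 * (T : ℝ) * η * K) := by
              refine mul_le_mul_right (ENNReal.rpow_le_rpow_of_exponent_le hp1 ?_) _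
              refine mul_le_mul_of_nonneg_left ?_ (by positivity)
              exact_mod_cast hBK.le
          _ ≤ G' := le_max_right _ _
          _ = G' * 1 := (mul_one _).symm
          _ ≤ G' * (p : ℝ≥0∞) ^ (2 * (T : ℝ) * η' * B) := by
              refine mul_le_mul_right ?_ _
              calc (1 : ℝ≥0∞) = (p : ℝ≥0∞) ^ (0 : ℝ) := ENNReal.rpow_zero.symm
                _ ≤ _ := ENNReal.rpow_le_rpow_of_exponent_le hp1 (by positivity)
      · push Not at hBK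
        have hB1 : 1 ≤ B := by omega
        refine Dec_mono ?_ (hstep B hBK _ (ih (B - 1) (by omega)))
        refine gn_half ?_ ?_
        · have hcast : ((B - 1 : ℕ) : ℝ) = (B : ℝ) - 1 := by
            rw [Nat.cast_sub hB1]
            simp
          have hsplit : (p : ℝ≥0∞) ^ (2 * (T : ℝ) * η' * B) = (p : ℝ≥0∞) ^ (2 * (T : ℝ) * η') * (p : ℝ≥0∞) ^ (2 * (T : ℝ) * η' * ((B - 1 : ℕ) : ℝ)) := by
            rw [← ENNReal.rpow_add _ _ hpne hpt, hcast]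
            congr 1
            ring
          have hbig : (2 : ℝ≥0∞) ^ (2 * T) * 2 ≤ (p : ℝ≥0∞) ^ (2 * (T : ℝ) * η') := by
            have h1 : (4 : ℝ≥0∞) ≤ (p : ℝ≥0∞) ^ ε := by
              have h2 : (p : ℝ≥0∞) ^ ε = ENNReal.ofReal ((p : ℝ) ^ ε) := by
                rw [← ENNReal.ofReal_rpow_of_pos (by exact_mod_cast hp.pos)]
                simp
              rw [h2]
              calc (4 : ℝ≥0∞) = ENNReal.ofReal 4 := by simp
                _ ≤ _ := ENNReal.ofReal_le_ofReal hp4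
            calc (2 : ℝ≥0∞) ^ (2 * T) * 2 ≤ (2 : ℝ≥0∞) ^ (2 * T) * 2 ^ (2 * T) := by
                  refine mul_le_mul_right ?_ _
                  calc (2 : ℝ≥0∞) = 2 ^ 1 := (pow_one _).symm
                    _ ≤ 2 ^ (2 * T) := pow_le_pow_right₀ (by norm_num) (by omega)
              _ = 4 ^ (2 * T) := by
                  rw [← mul_pow]
                  norm_num
              _ ≤ ((p : ℝ≥0∞) ^ ε) ^ (2 * T) := by gcongr
              _ = (p : ℝ≥0∞) ^ (2 * (T : ℝ) * ε) := by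
                  rw [← ENNReal.rpow_natCast, ← ENNReal.rpow_mul]
                  congr 1
                  push_cast
                  ring
              _ ≤ (p : ℝ≥0∞) ^ (2 * (T : ℝ) * η') := by
                  refine ENNReal.rpow_le_rpow_of_exponent_le hp1 ?_
                  exact mul_le_mul_of_nonneg_left hη'ε (by positivity)
          rw [hsplit]
          calc 2 ^ (2 * T) * (G' * (p : ℝ≥0∞) ^ (2 * (T : ℝ) * η' * ((B - 1 : ℕ) : ℝ))) * 2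
              = (2 ^ (2 * T) * 2) * (G' * (p : ℝ≥0∞) ^ (2 * (T : ℝ) * η' * ((B - 1 : ℕ) : ℝ))) := by ring
            _ ≤ (p : ℝ≥0∞) ^ (2 * (T : ℝ) * η') * (G' * (p : ℝ≥0∞) ^ (2 * (T : ℝ) * η' * ((B - 1 : ℕ) : ℝ))) :=
                mul_le_mul_left hbig _
            _ = G' * ((p : ℝ≥0∞) ^ (2 * (T : ℝ) * η') * (p : ℝ≥0∞) ^ (2 * (T : ℝ) * η' * ((B - 1 : ℕ) : ℝ))) := by ring
        · calc G * (p : ℝ≥0∞) ^ (2 * (T : ℝ) * η' * B) * 2 = (G * 2) * (p : ℝ≥0∞) ^ (2 * (T : ℝ) * η' * B) := by ring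
            _ ≤ G' * (p : ℝ≥0∞) ^ (2 * (T : ℝ) * η' * B) := mul_le_mul_left (le_max_left _ _) _

end Pool.Agent.Lib.VM
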