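import Pool.Agent.Lib.VM.Wit
import Pool.Agent.Lib.VM.QIb

/-!
# VM / LemB: the bilinear inequality at a coarser level

PROOF. Reduction to `y = 0`: replace `f_n`, `g_n` by `shF y (f_(n+y))`, `shF y (g_(n+y))` and `S`, `R`, `x` by their translates by `-y` (`QI_shift`, `shF_sum`,
`enorm_shF`, `tsum_TT`, `sq_shF`). Let `y = 0`, so `p` does not divide `x`; `t = tri l`, `T = tri k`, `w α = ‖∑_R g_n α‖^(2(T-t))`. `G = ∑_R g_n` is `QI 0 b`
(`QI_mono`, `QI_sum`), and for `p^(l a') τ = 0`: `DD b (TT 0 (ext τ)) = DD b (ext τ) = 0` since coordinate `m` of `ext τ` is `0` for `m < k-l` and `b(m+1) ≥ (k-l+1) b ≥ l a'` for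
`m ≥ k-l`; so `w (α + ext τ) = w α`. Group `S` by the residues `r = n % p^a'`: `F_r`, `QI p r a' F_r`, `r ≡ x` modulo `p^a`. `wit` (levels `a → a'`) for the family `F_r`,
then `hM` with `x := r`, `y := 0` for every `r` (`p` does not divide `r`): `∑' w ‖F_r‖^(2t) ≤ E (∑_{n ≡ r} sq f_n)^t Q^(T-t)`; power `1/t`, sum over `r`, power `t`.
`ε (a' - a) ≤ ε B`.
-/

set_option autoImplicit false

open Finset
open scoped ENNReal

namespace Pool.Agent.Lib.VM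

private theorem LemB_tri_pos {l : ℕ} (hl : 1 ≤ l) : tri l ≠ 0 := by
  unfold tri
  have h : 2 ≤ l * (l + 1) := by nlinarith
  omega

private theorem LemB_ext {k l p b a' : ℕ} (hab : l * a' ≤ (k - l + 1) * b) (τ : V l) (hτ : ((p : ℤ) ^ (l * a')) • τ = 0) :
    DD p b (TT 0 (ext τ : V k)) = 0 := by
  rw [TT_zero]
  funext m
  unfold DD ext
  by_cases h : k - l ≤ (m : ℕ) ∧ (m : ℕ) - (k - l) < l
  · rw [dif_pos h]
    have h1 : l * a' ≤ b * ((m : ℕ) + 1) := by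
      refine hab.trans ?_
      rw [mul_comm]
      exact Nat.mul_le_mul_left b (by omega)
    obtain ⟨c, hc⟩ := Nat.exists_eq_add_of_le h1
    have h2 := congrFun hτ ⟨(m : ℕ) - (k - l), h.2⟩
    rw [Pi.smul_apply] at h2
    rw [hc, pow_add, mul_comm, mul_smul, h2]
    simp
  · rw [dif_neg h]
    simp

private theorem LemB_zero {k l p B a a' b n : ℕ} (hp : p.Prime) (hkp : k < p) (hl : 1 ≤ l) (hlk : l < k) (ha : l ≤ a) (haa : a ≤ a') (haB : a' ≤ B)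
    (hbB : b ≤ B) (hab : l * a' ≤ (k - l + 1) * b) (hn : a' * (2 * l) ^ n ≤ a * (2 * l + 1) ^ n) {C : ℝ≥0∞} (hC : 1 ≤ C) {ε : ℝ}
    (hε : 0 ≤ ε) (hD : ∀ t : ℕ, Dec l p t (C * (p : ℝ≥0∞) ^ (ε * t))) {E : ℝ≥0∞} (hM : Mm k p B l a' b E)
    (x : ℤ) (S R : Finset ℤ) (f g : ℤ → V k → ℂ) (hx : ¬ (p : ℤ) ∣ x)
    (hS : Inc p B S) (hR : Inc p B R) (hSx : ∀ n ∈ S, (p : ℤ) ^ a ∣ n - x) (hRy : ∀ n ∈ R, (p : ℤ) ^ b ∣ n - 0)
    (hf : ∀ n ∈ S, QI p n B (f n)) (hg : ∀ n ∈ R, QI p n B (g n)) :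
    ∑' α : V k, ‖∑ n ∈ S, f n α‖ₑ ^ (2 * tri l) * ‖∑ n ∈ R, g n α‖ₑ ^ (2 * (tri k - tri l)) ≤
      (C ^ (n + 1) * (p : ℝ≥0∞) ^ (ε * B) * E) * (∑ n ∈ S, sq (tri k) (f n)) ^ (tri l) *
        (∑ n ∈ R, sq (tri k) (g n)) ^ (tri k - tri l) := by
  classical
  have ht : tri l ≠ 0 := LemB_tri_pos hl
  set t := tri l with htdef
  set T := tri k with hTdef
  set q : ℤ := (p : ℤ) ^ a' with hq
  set w : V k → ℝ≥0∞ := fun α => ‖∑ n ∈ R, g n α‖ₑ ^ (2 * (T - t)) with hw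
  set F : ℤ → V k → ℂ := fun r α => ∑ m ∈ S with m % q = r, f m α with hF
  set S' : Finset ℤ := S.image fun m => m % q with hS'
  have hmodq : ∀ m : ℤ, q ∣ m - m % q := fun m => ⟨m / q, by
    have := Int.emod_add_mul_ediv m q
    linarith⟩
  -- invariance of `w`
  have hG : QI p 0 b (fun α => ∑ n ∈ R, g n α) :=
    QI_sum R fun n hn => QI_mono hbB (hRy n hn) (hg n hn)
  have hwinv : ∀ (α : V k) (τ : V l), ((p : ℤ) ^ (l * a')) • τ = 0 → w (α + ext τ) = w α := by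
    intro α τ hτ
    have h1 := QI_enorm hG (LemB_ext (k := k) hab τ hτ) α
    simp only [hw]
    rw [h1]
  -- the grouped family
  have hIncS' : Inc p a' S' := by
    intro r hr s hs hrs
    obtain ⟨m, _, rfl⟩ := Finset.mem_image.mp hr
    obtain ⟨m', _, rfl⟩ := Finset.mem_image.mp hs
    have h1 : (m % q) % q = (m' % q) % q := (Int.modEq_iff_dvd.mpr hrs).symm
    rwa [Int.emod_emod_of_dvd m dvd_rfl, Int.emod_emod_of_dvd m' dvd_rfl] at h1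
  have hS'x : ∀ r ∈ S', (p : ℤ) ^ a ∣ r - x := by
    intro r hr
    obtain ⟨m, hm, rfl⟩ := Finset.mem_image.mp hr
    have h1 : (p : ℤ) ^ a ∣ m - m % q := (pow_dvd_pow _ haa).trans (hmodq m)
    have h2 := dvd_sub (hSx m hm) h1
    have h3 : m - x - (m - m % q) = m % q - x := by ring
    rwa [h3] at h2
  have hFQ : ∀ r ∈ S', QI p r a' (F r) := by
    intro r _
    refine QI_sum _ fun m hm => ?_
    rw [Finset.mem_filter] at hm
    refine QI_mono haB ?_ (hf m hm.1)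
    rw [← hm.2]
    exact hmodq m
  have hsum : ∀ α : V k, ∑ r ∈ S', F r α = ∑ m ∈ S, f m α := by
    intro α
    exact Finset.sum_fiberwise_of_maps_to (fun m hm => Finset.mem_image_of_mem _ hm) _
  have hsum2 : ∑ r ∈ S', ∑ m ∈ S with m % q = r, sq T (f m) = ∑ m ∈ S, sq T (f m) :=
    Finset.sum_fiberwise_of_maps_to (fun m hm => Finset.mem_image_of_mem _ hm) _
  have h1 := wit hp hkp hl hlk hC hε hD hx n ha haa hn hIncS' hS'x hFQ w hwinv
  simp only [hsum] at h1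
  -- each residue class
  set Qg : ℝ≥0∞ := (∑ n ∈ R, sq T (g n)) ^ (T - t) with hQg
  have h2 : ∀ r ∈ S', (∑' α : V k, w α * ‖F r α‖ₑ ^ (2 * t)) ^ (1 / (t : ℝ)) ≤
      (E * Qg) ^ (1 / (t : ℝ)) * ∑ m ∈ S with m % q = r, sq T (f m) := by
    intro r hr
    have hpr : ¬ (p : ℤ) ∣ r - 0 := by
      intro hd
      apply hx
      have h3 : (p : ℤ) ∣ r - x := (dvd_pow_self _ (by omega)).trans (hS'x r hr)
      have h4 := dvd_sub hd h3
      have h5 : r - 0 - (r - x) = x := by ring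
      rwa [h5] at h4
    have h3 := hM r 0 (S.filter fun m => m % q = r) R f g hpr
      (fun m hm m' hm' hd => hS m (Finset.mem_filter.mp hm).1 m' (Finset.mem_filter.mp hm').1 hd) hR
      (fun m hm => by
        rw [← (Finset.mem_filter.mp hm).2]
        exact hmodq m) hRy
      (fun m hm => hf m (Finset.mem_filter.mp hm).1) hg
    have h4 : ∑' α : V k, w α * ‖F r α‖ₑ ^ (2 * t) ≤
        (E * Qg) * (∑ m ∈ S with m % q = r, sq T (f m)) ^ t := by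
      calc ∑' α : V k, w α * ‖F r α‖ₑ ^ (2 * t)
          = ∑' α : V k, ‖∑ m ∈ S with m % q = r, f m α‖ₑ ^ (2 * t) * ‖∑ n ∈ R, g n α‖ₑ ^ (2 * (T - t)) :=
            tsum_congr fun α => mul_comm _ _
        _ ≤ E * (∑ m ∈ S with m % q = r, sq T (f m)) ^ t * Qg := h3
        _ = (E * Qg) * (∑ m ∈ S with m % q = r, sq T (f m)) ^ t := by ring
    refine (ENNReal.rpow_le_rpow h4 (by positivity)).trans ?_
    rw [ENNReal.mul_rpow_of_nonneg _ _ (by positivity)]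
    refine mul_le_mul_right (le_of_eq ?_) _
    rw [one_div]
    exact ENNReal.pow_rpow_inv_natCast ht _
  have h3 : (∑ r ∈ S', (∑' α : V k, w α * ‖F r α‖ₑ ^ (2 * t)) ^ (1 / (t : ℝ))) ^ t ≤
      (E * Qg) * (∑ m ∈ S, sq T (f m)) ^ t := by
    have h4 : ∑ r ∈ S', (∑' α : V k, w α * ‖F r α‖ₑ ^ (2 * t)) ^ (1 / (t : ℝ)) ≤
        (E * Qg) ^ (1 / (t : ℝ)) * ∑ m ∈ S, sq T (f m) := by
      rw [← hsum2, Finset.mul_sum]
      exact Finset.sum_le_sum h2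
    refine (pow_le_pow_left' h4 t).trans ?_
    rw [mul_pow, one_div, ENNReal.rpow_inv_natCast_pow ht _]
  have hp1 : (1 : ℝ≥0∞) ≤ (p : ℝ≥0∞) := by exact_mod_cast hp.one_le
  have h5 : (p : ℝ≥0∞) ^ (ε * ((a' : ℝ) - a)) ≤ (p : ℝ≥0∞) ^ (ε * B) := by
    refine ENNReal.rpow_le_rpow_of_exponent_le hp1 (mul_le_mul_of_nonneg_left ?_ hε)
    have h6 : (a' : ℝ) ≤ B := by exact_mod_cast haB
    have h7 : (0 : ℝ) ≤ a := Nat.cast_nonneg a
    linarith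
  calc ∑' α : V k, ‖∑ n ∈ S, f n α‖ₑ ^ (2 * t) * ‖∑ n ∈ R, g n α‖ₑ ^ (2 * (T - t))
      = ∑' α : V k, w α * ‖∑ m ∈ S, f m α‖ₑ ^ (2 * t) := tsum_congr fun α => mul_comm _ _
    _ ≤ C ^ (n + 1) * (p : ℝ≥0∞) ^ (ε * ((a' : ℝ) - a)) *
        (∑ r ∈ S', (∑' α : V k, w α * ‖F r α‖ₑ ^ (2 * t)) ^ (1 / (t : ℝ))) ^ t := h1
    _ ≤ C ^ (n + 1) * (p : ℝ≥0∞) ^ (ε * B) * ((E * Qg) * (∑ m ∈ S, sq T (f m)) ^ t) :=
        mul_le_mul' (mul_le_mul' le_rfl h5) h3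
    _ = (C ^ (n + 1) * (p : ℝ≥0∞) ^ (ε * B) * E) * (∑ n ∈ S, sq T (f n)) ^ t * Qg := by ring

theorem lemB {k l p B a a' b n : ℕ} (hp : p.Prime) (hkp : k < p) (hl : 1 ≤ l) (hlk : l < k) (ha : l ≤ a) (haa : a ≤ a') (haB : a' ≤ B)
    (hbB : b ≤ B) (hab : l * a' ≤ (k - l + 1) * b) (hn : a' * (2 * l) ^ n ≤ a * (2 * l + 1) ^ n) {C : ℝ≥0∞} (hC : 1 ≤ C) {ε : ℝ}
    (hε : 0 ≤ ε) (hD : ∀ t : ℕ, Dec l p t (C * (p : ℝ≥0∞) ^ (ε * t))) {E : ℝ≥0∞} (hM : Mm k p B l a' b E) :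
    Mm k p B l a b (C ^ (n + 1) * (p : ℝ≥0∞) ^ (ε * B) * E) := by
  classical
  intro x y S R f g hxy hS hR hSx hRy hf hg
  have hinj : ∀ U : Finset ℤ, Set.InjOn (fun m : ℤ => m - y) (U : Set ℤ) := fun U m _ m' _ h => by
    simpa using h
  have hsumf : ∀ (U : Finset ℤ) (h : ℤ → V k → ℂ) (α : V k),
      ‖∑ m ∈ U.image (fun m => m - y), shF y (h (m + y)) α‖ₑ = ‖∑ n ∈ U, h n (TT (-y) α)‖ₑ := by
    intro U h α
    rw [Finset.sum_image (hinj U)]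
    simp only [sub_add_cancel]
    rw [shF_sum, enorm_shF]
  have hsumq : ∀ (U : Finset ℤ) (h : ℤ → V k → ℂ),
      ∑ m ∈ U.image (fun m => m - y), sq (tri k) (shF y (h (m + y))) = ∑ n ∈ U, sq (tri k) (h n) := by
    intro U h
    rw [Finset.sum_image (hinj U)]
    simp only [sub_add_cancel, sq_shF]
  have hinc : ∀ U : Finset ℤ, Inc p B U → Inc p B (U.image fun m => m - y) := by
    intro U hU r hr s hs hrs
    obtain ⟨m, hm, rfl⟩ := Finset.mem_image.mp hr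
    obtain ⟨m', hm', rfl⟩ := Finset.mem_image.mp hs
    rw [sub_sub_sub_cancel_right] at hrs
    rw [hU m hm m' hm' hrs]
  have hqi : ∀ (U : Finset ℤ) (h : ℤ → V k → ℂ), (∀ n ∈ U, QI p n B (h n)) →
      ∀ m ∈ U.image (fun m => m - y), QI p m B (shF y (h (m + y))) := by
    intro U h hU r hr
    obtain ⟨m, hm, rfl⟩ := Finset.mem_image.mp hr
    simp only [sub_add_cancel]
    exact QI_shift y (hU m hm)
  have key := LemB_zero hp hkp hl hlk ha haa haB hbB hab hn hC hε hD hM (x - y)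
    (S.image fun m => m - y) (R.image fun m => m - y) (fun m => shF y (f (m + y))) (fun m => shF y (g (m + y))) hxy
    (hinc S hS) (hinc R hR)
    (fun r hr => by
      obtain ⟨m, hm, rfl⟩ := Finset.mem_image.mp hr
      rw [sub_sub_sub_cancel_right]
      exact hSx m hm)
    (fun r hr => by
      obtain ⟨m, hm, rfl⟩ := Finset.mem_image.mp hr
      rw [sub_zero]
      exact hRy m hm)
    (hqi S f hf) (hqi R g hg)
  simp only [hsumf, hsumq] at key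
  rwa [tsum_TT (-y) (fun α : V k => ‖∑ n ∈ S, f n α‖ₑ ^ (2 * tri l) * ‖∑ n ∈ R, g n α‖ₑ ^ (2 * (tri k - tri l)))] at key

end Pool.Agent.Lib.VM
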