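import Pool.Agent.Lib.VM.Alg

/-!
# VM / Unit: the Taylor matrix of the last `l` monomials is invertible modulo `p`

PROOF. The map `U τ m = TT x (ext τ) m`, `m < l`, has the integer matrix `A_(m,j) = C(k-l+j+1, m+1) x^(k-l+j-m)`. `p` does not divide `det A`:
otherwise there is `v ≠ 0` in `(ZMod p)^l` with `A v = 0` (`Matrix.exists_mulVec_eq_zero_iff`); put `F = ∑_j v_j X^(k-l+j+1)`; the coefficients of
`Z^1, ..., Z^l` in `F(x+Z)` vanish, so `(X - x)^l` divides `F'`; also `X^(k-l)` divides `F'` and `x ≠ 0` in `ZMod p`, so `X^(k-l) (X-x)^l` divides `F'`,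
of degree `≤ k - 1`: `F' = 0`, `(k-l+j+1) v_j = 0`, `v_j = 0` as `k < p`. Hence there is an integer matrix `W` with `A W ≡ 1` modulo `p^N`
(`adjugate A` times an inverse of `det A` modulo `p^N`); it acts on `V l`.
-/

set_option autoImplicit false

open Finset
open scoped ENNReal

namespace Pool.Agent.Lib.VM

open Polynomial in
/-- a polynomial `∑ v_j X^(d+j+1)` whose Taylor coefficients of order `1, ..., l` at `x ≠ 0` vanish is zero -/
private theorem unit_poly {p : ℕ} [Fact p.Prime] (d l : ℕ) (hdl : d + l < p) (x : ZMod p) (hx : x ≠ 0) (v : Fin l → ZMod p)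
    (h : ∀ m : Fin l, ∑ j : Fin l, ((Nat.choose (d + j + 1) (m + 1) : ℕ) : ZMod p) * x ^ (d + (j : ℕ) - m) * v j = 0) :
    v = 0 := by
  set F : (ZMod p)[X] := ∑ j : Fin l, C (v j) * X ^ (d + (j : ℕ) + 1) with hF
  have hco : ∀ m : Fin l, (taylor x F).coeff ((m : ℕ) + 1) = 0 := by
    intro m
    rw [taylor_coeff, hF, map_sum, eval_finsetSum, ← h m]
    refine sum_congr rfl fun j _ => ?_
    rw [C_mul_X_pow_eq_monomial, hasseDeriv_monomial, eval_monomial,
      show d + (j : ℕ) + 1 - ((m : ℕ) + 1) = d + (j : ℕ) - m by omega]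
    ring
  have hG : (X - C x) ^ (l + 1) ∣ F - C (F.eval x) := by
    rw [X_sub_C_pow_dvd_iff, X_pow_dvd_iff]
    intro n hn
    rw [sub_comp, C_comp, coeff_sub, ← taylor_apply]
    rcases Nat.eq_zero_or_pos n with h0 | h0
    · rw [h0, taylor_coeff_zero, coeff_C_zero, sub_self]
    · obtain ⟨m, rfl⟩ : ∃ m, n = m + 1 := ⟨n - 1, by omega⟩
      have := hco ⟨m, by omega⟩
      simp only at this
      rw [this, coeff_C, if_neg (by omega), sub_zero]
  have hD : (X - C x) ^ l ∣ derivative F := by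
    have h1 := pow_sub_one_dvd_derivative_of_pow_dvd hG
    rw [derivative_sub, derivative_C, sub_zero] at h1
    exact h1
  have hder : derivative F = ∑ j : Fin l, C (v j * ((d + (j : ℕ) + 1 : ℕ) : ZMod p)) * X ^ (d + (j : ℕ)) := by
    rw [hF, derivative_sum]
    refine sum_congr rfl fun j _ => ?_
    rw [derivative_C_mul_X_pow]
    simp
  have hX : X ^ d ∣ derivative F := by
    rw [hder]
    refine dvd_sum fun j _ => ?_
    refine Dvd.dvd.mul_left (pow_dvd_pow X (by omega)) _
  have hcop : IsCoprime (X ^ d : (ZMod p)[X]) ((X - C x) ^ l) := by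
    refine IsCoprime.pow ?_
    refine ⟨C x⁻¹, -C x⁻¹, ?_⟩
    have h1 : C x⁻¹ * C x = (1 : (ZMod p)[X]) := by
      rw [← C_mul, inv_mul_cancel₀ hx, C_1]
    linear_combination h1
  have hdvd : X ^ d * (X - C x) ^ l ∣ derivative F := hcop.mul_dvd hX hD
  have hmon : (X ^ d * (X - C x) ^ l : (ZMod p)[X]).Monic := (monic_X_pow d).mul ((monic_X_sub_C x).pow l)
  have hdeg : (X ^ d * (X - C x) ^ l : (ZMod p)[X]).natDegree = d + l := by
    rw [Monic.natDegree_mul (monic_X_pow d) ((monic_X_sub_C x).pow l), natDegree_X_pow, natDegree_pow, natDegree_X_sub_C, mul_one]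
  have hzero : derivative F = 0 := by
    by_contra hne
    have h1 := natDegree_le_of_dvd hdvd hne
    rw [hdeg] at h1
    have h2 : (derivative F).degree < ((d + l : ℕ) : WithBot ℕ) := by
      rw [hder]
      refine lt_of_le_of_lt (degree_sum_le _ _) ?_
      rw [Finset.sup_lt_iff (WithBot.bot_lt_coe _)]
      intro j _
      refine lt_of_le_of_lt (degree_C_mul_X_pow_le _ _) ?_
      exact_mod_cast (by omega : d + (j : ℕ) < d + l)
    have h3 := natDegree_lt_iff_degree_lt hne |>.2 h2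
    omega
  funext j
  have h1 : (derivative F).coeff (d + (j : ℕ)) = 0 := by rw [hzero, coeff_zero]
  rw [hder, finsetSum_coeff, Finset.sum_eq_single j] at h1
  · rw [coeff_C_mul, coeff_X_pow, if_pos rfl, mul_one] at h1
    rcases mul_eq_zero.1 h1 with h2 | h2
    · exact h2
    · exfalso
      rw [ZMod.natCast_eq_zero_iff] at h2
      have := Nat.le_of_dvd (by omega) h2
      omega
  · intro i _ hij
    rw [coeff_C_mul, coeff_X_pow, if_neg (fun h2 => hij (Fin.ext (by omega))), mul_zero]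
  · intro h2
    exact absurd (mem_univ j) h2

/-- the integer matrix of the last `l` monomials -/
private def uA (k l : ℕ) (x : ℤ) : Matrix (Fin l) (Fin l) ℤ :=
  fun m j => ((Nat.choose (k - l + (j : ℕ) + 1) ((m : ℕ) + 1) : ℕ) : ℤ) * x ^ (k - l + (j : ℕ) - (m : ℕ))

private theorem uA_det {k l p : ℕ} (hp : p.Prime) (hlk : l ≤ k) (hkp : k < p) {x : ℤ} (hx : ¬ (p : ℤ) ∣ x) :
    ¬ (p : ℤ) ∣ (uA k l x).det := by
  have : Fact p.Prime := ⟨hp⟩
  intro hd
  have h1 : ((uA k l x).map (Int.castRingHom (ZMod p))).det = 0 := by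
    rw [← RingHom.mapMatrix_apply, ← RingHom.map_det]
    exact (ZMod.intCast_zmod_eq_zero_iff_dvd _ p).2 hd
  obtain ⟨v, hv, hv0⟩ := Matrix.exists_mulVec_eq_zero_iff.2 h1
  refine hv (unit_poly (k - l) l (by omega) (x : ZMod p) ?_ v fun m => ?_)
  · intro h
    exact hx ((ZMod.intCast_zmod_eq_zero_iff_dvd _ p).1 h)
  · have h2 := congrFun hv0 m
    simp only [Matrix.mulVec, dotProduct, Matrix.map_apply, uA, Pi.zero_apply] at h2
    rw [← h2]
    refine sum_congr rfl fun j _ => ?_
    simp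

private theorem uA_TT {k l : ℕ} (hlk : l ≤ k) (x : ℤ) (τ : V l) (m : Fin l) (m' : Fin k) (hm : (m' : ℕ) = m) :
    TT x (ext τ : V k) m' = ∑ j : Fin l, uA k l x m j • τ j := by
  unfold TT
  rw [← Finset.sum_subset (Finset.subset_univ ((Finset.univ : Finset (Fin l)).map
    ⟨fun j : Fin l => (⟨k - l + (j : ℕ), by omega⟩ : Fin k), fun i j h => by
      have := congrArg Fin.val h
      simp only at this
      exact Fin.ext (by omega)⟩))]
  · rw [Finset.sum_map]
    refine sum_congr rfl fun j _ => ?_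
    simp only [Function.Embedding.coeFn_mk, uA, hm]
    congr 1
    unfold ext
    have h1 : k - l ≤ k - l + (j : ℕ) ∧ k - l + (j : ℕ) - (k - l) < l := by omega
    rw [dif_pos h1]
    congr 1
    exact Fin.ext (by simp)
  · intro j _ hj
    unfold ext
    rw [dif_neg, smul_zero]
    intro h1
    refine hj (Finset.mem_map.2 ⟨⟨(j : ℕ) - (k - l), h1.2⟩, Finset.mem_univ _, Fin.ext ?_⟩)
    simp only [Function.Embedding.coeFn_mk]
    omega

theorem unit_inv {k l p : ℕ} (hp : p.Prime) (hl : 1 ≤ l) (hlk : l ≤ k) (hkp : k < p) {x : ℤ} (hx : ¬ (p : ℤ) ∣ x) (N : ℕ) :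
    ∃ W : V l →+ V l, ∀ σ : V l, ((p : ℤ) ^ N) • σ = 0 → ∀ (m : Fin l) (m' : Fin k), (m' : ℕ) = m →
      TT x (ext (W σ) : V k) m' = σ m := by
  have _ := hl
  have hdet := uA_det (k := k) (l := l) hp hlk hkp hx
  have hcop : IsCoprime (uA k l x).det ((p : ℤ) ^ N) := by
    refine IsCoprime.pow_right ?_
    rw [Int.isCoprime_iff_gcd_eq_one, Int.gcd_comm]
    exact Int.isCoprime_iff_gcd_eq_one.1 ((Nat.prime_iff_prime_int.1 hp).coprime_iff_not_dvd.2 hdet)
  obtain ⟨u, c, huc⟩ := hcop
  refine ⟨{ toFun := fun σ j => ∑ i : Fin l, (u * (uA k l x).adjugate j i) • σ i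
            map_zero' := by
              funext j
              simp
            map_add' := fun σ τ => by
              funext j
              simp [smul_add, sum_add_distrib] }, ?_⟩
  intro σ hσ m m' hm
  rw [uA_TT hlk x _ m m' hm]
  simp only [AddMonoidHom.coe_mk, ZeroHom.coe_mk]
  have h1 : ∀ j : Fin l, uA k l x m j • ∑ i : Fin l, (u * (uA k l x).adjugate j i) • σ i =
      ∑ i : Fin l, (u * (uA k l x m j * (uA k l x).adjugate j i)) • σ i := by
    intro j
    rw [smul_sum]
    refine sum_congr rfl fun i _ => ?_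
    rw [smul_smul]
    congr 1
    ring
  rw [sum_congr rfl fun j _ => h1 j, sum_comm]
  have h2 : ∀ i : Fin l, ∑ j : Fin l, (u * (uA k l x m j * (uA k l x).adjugate j i)) • σ i =
      if m = i then σ i else 0 := by
    intro i
    rw [← sum_smul, ← mul_sum]
    have h3 : ∑ j : Fin l, uA k l x m j * (uA k l x).adjugate j i = (uA k l x * (uA k l x).adjugate) m i := by
      rw [Matrix.mul_apply]
    rw [h3, Matrix.mul_adjugate]
    by_cases h4 : m = i
    · rw [if_pos h4, h4]
      simp only [Matrix.smul_apply, Matrix.one_apply_eq, smul_eq_mul, mul_one]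
      have h5 : u * (uA k l x).det = 1 - c * (p : ℤ) ^ N := by linarith
      have h6 : ((p : ℤ) ^ N) • σ i = 0 := congrFun hσ i
      rw [h5, sub_smul, one_smul, mul_smul, h6, smul_zero, sub_zero]
    · rw [if_neg h4]
      simp [Matrix.one_apply_ne h4]
  rw [sum_congr rfl fun i _ => h2 i]
  simp

end Pool.Agent.Lib.VM
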