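import Pool.Agent.Lib.VM.Res
import Pool.Agent.Lib.VM.Unit

/-!
# VM / Loc: decoupling of the projected curve on a coset of the torsion group, one step

PROOF. `U`, `W` as in `unit_inv` for `N = l ρ'`: `TT x (ext (W σ)) m = σ m` for `m < l` if `p^(lρ') σ = 0`. `W` maps `tor l p (lρ')` into itself,
injectively (`U W σ = σ`), so bijectively. For `n ∈ S` put `z = n - x` (`p^ρ ∣ z`) and, for `σ : V l`, `Φ_z σ = chi (-(ph x (ext (W σ)))) f_n (α + ext (W σ))`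
if `p^(lρ') σ = 0`, and `0` otherwise. CLAIM: `QI p z ρ' Φ_z` (in `V l`). Let `DD ρ' (TT z σ') = 0` in `V l`. Then `p^(lρ') TT z σ' = 0`
(coordinate `m`: `ρ'(m+1) ≤ lρ'`), so `p^(lρ') σ' = 0` (apply `TT (-z)`). Put `τ' = W σ'`, `p^(lρ') τ' = 0`, `β = ext τ'`. (i) `DD ρ' (TT n β) = 0` in
`V k`: coordinate `m ≥ l`: `ρ'(m+1) ≥ lρ'`. Coordinate `m < l`: `TT n β = TT z (TT x β)`, coordinate `m` is `∑_{r ≥ m} C(r+1,m+1) z^(r-m) (TT x β)_r`; the part
`r < l` is `(TT z σ')_m` in `V l`; for `r ≥ l`, `p^(ρ'(m+1)) z^(r-m)` is divisible by `p^(ρ'(m+1) + ρ(l-m))` and `ρ'(m+1) + ρ(l-m) ≥ lρ'` (since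
`lρ' ≤ (l+1)ρ`). So `p^(ρ'(m+1)) (TT n β)_m = p^(ρ'(m+1)) (TT z σ')_m = 0`. (ii) `ph n β = ph x β + ph z (TT x β)`, and `ph z (TT x β) = ph z σ'` (in `V l`) because
`z^(r+1)` is divisible by `p^((l+1)ρ)`, `(l+1)ρ ≥ lρ'`, for `r ≥ l`. Now `rescale` in degree `l` (with `a = ρ`, `B = ρ'`, `x = 0`, the set `{n - x}`), and
`∑'_σ ‖∑ Φ_z σ‖^(2t) = ∑_{τ ∈ tor} ‖∑ f_n (α + ext τ)‖^(2t)`, the same for every single `n` (`tsum_eq_sum`, bijection `W`).
-/

set_option autoImplicit false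

open Finset
open scoped ENNReal

namespace Pool.Agent.Lib.VM

theorem ext_add {k l : ℕ} (σ τ : V l) : (ext (σ + τ) : V k) = ext σ + ext τ := by
  funext j
  simp only [ext, Pi.add_apply]
  split_ifs <;> simp

private theorem loc_sum {M : Type*} [AddCommMonoid M] {k l : ℕ} (hlk : l ≤ k) (F : Fin k → M)
    (H : Fin l → M) (h0 : ∀ j : Fin k, l ≤ (j : ℕ) → F j = 0)
    (h1 : ∀ (j : Fin l) (j' : Fin k), (j' : ℕ) = j → F j' = H j) : ∑ j, F j = ∑ j, H j := by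
  classical
  have h2 : ∑ j : Fin l, H j = ∑ j ∈ Finset.univ.map (Fin.castLEEmb hlk), F j := by
    rw [Finset.sum_map]
    exact Finset.sum_congr rfl fun j _ => (h1 j _ rfl).symm
  rw [h2]
  symm
  apply Finset.sum_subset (Finset.subset_univ _)
  intro j _ hj
  apply h0
  by_contra hlt
  rw [not_le] at hlt
  exact hj (Finset.mem_map.2 ⟨⟨j, hlt⟩, Finset.mem_univ _, Fin.ext rfl⟩)

private theorem loc_dvd_kill {p N : ℕ} {c : ℤ} {u : UnitAddCircle} (hu : ((p : ℤ) ^ N) • u = 0)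
    (hc : (p : ℤ) ^ N ∣ c) : c • u = 0 := by
  obtain ⟨d, rfl⟩ := hc
  rw [mul_comm, mul_smul, hu, smul_zero]

private theorem loc_tor {l p ρ' : ℕ} {z : ℤ} {β : V l} (h : DD p ρ' (TT z β) = 0) :
    ((p : ℤ) ^ (l * ρ')) • β = 0 := by
  have h1 : ((p : ℤ) ^ (l * ρ')) • TT z β = 0 := by
    funext m
    have h2 := congrFun h m
    simp only [DD, Pi.zero_apply] at h2
    simp only [Pi.smul_apply, Pi.zero_apply]
    refine loc_dvd_kill h2 (pow_dvd_pow _ ?_)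
    rw [mul_comm l]
    exact Nat.mul_le_mul_left _ m.2
  have h3 : β = TT (-z) (TT z β) := by
    rw [← TT_shift, add_neg_cancel, TT_zero]
  rw [h3, ← TT_smul, h1, TT_map_zero]

private theorem loc_i {k l p ρ ρ' : ℕ} (hlk : l < k) (hρ : ρ ≤ ρ') (hρ' : l * ρ' ≤ (l + 1) * ρ)
    {z : ℤ} (hz : (p : ℤ) ^ ρ ∣ z) {u : V k} {β : V l} (hu : ((p : ℤ) ^ (l * ρ')) • u = 0)
    (hub : ∀ (m : Fin l) (m' : Fin k), (m' : ℕ) = m → u m' = β m)
    (hβ : DD p ρ' (TT z β) = 0) : DD p ρ' (TT z u) = 0 := by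
  funext i
  simp only [DD, Pi.zero_apply]
  rcases le_or_gt l (i : ℕ) with hi | hi
  · have h1 : ((p : ℤ) ^ (l * ρ')) • TT z u = 0 := by rw [← TT_smul, hu, TT_map_zero]
    have h2 := congrFun h1 i
    simp only [Pi.smul_apply, Pi.zero_apply] at h2
    refine loc_dvd_kill h2 (pow_dvd_pow _ ?_)
    rw [mul_comm l]
    exact Nat.mul_le_mul_left _ (by omega)
  · have h3 := congrFun hβ ⟨i, hi⟩
    simp only [DD, Pi.zero_apply, TT, Finset.smul_sum] at h3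
    simp only [TT, Finset.smul_sum]
    rw [← h3]
    apply loc_sum hlk.le
    · intro j hj
      rw [← mul_smul]
      have h4 := congrFun hu j
      simp only [Pi.smul_apply, Pi.zero_apply] at h4
      refine loc_dvd_kill h4 ?_
      have h5 : (p : ℤ) ^ (ρ * ((j : ℕ) - i)) ∣ z ^ ((j : ℕ) - i) := by
        rw [pow_mul]; exact pow_dvd_pow_of_dvd hz _
      have h6 : (p : ℤ) ^ (l * ρ') ∣ (p : ℤ) ^ (ρ' * ((i : ℕ) + 1)) * (p : ℤ) ^ (ρ * ((j : ℕ) - i)) := by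
        rw [← pow_add]
        apply pow_dvd_pow
        obtain ⟨d, hd⟩ := Nat.exists_eq_add_of_le hj
        obtain ⟨g, hg⟩ := Nat.exists_eq_add_of_lt hi
        have e1 : (j : ℕ) - i = g + 1 + d := by omega
        rw [e1]
        have e2 : l = (i : ℕ) + 1 + g := by omega
        rw [e2] at hρ' ⊢
        nlinarith [Nat.mul_le_mul_right ((i : ℕ) + 1) hρ, Nat.zero_le (ρ * d)]
      exact h6.trans (mul_dvd_mul_left _ (h5.mul_left _))
    · intro j j' hj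
      rw [hub j j' hj, hj]

private theorem loc_ii {k l p ρ ρ' : ℕ} (hlk : l < k) (hρ' : l * ρ' ≤ (l + 1) * ρ)
    {z : ℤ} (hz : (p : ℤ) ^ ρ ∣ z) {u : V k} {β : V l} (hu : ((p : ℤ) ^ (l * ρ')) • u = 0)
    (hub : ∀ (m : Fin l) (m' : Fin k), (m' : ℕ) = m → u m' = β m) : ph z u = ph z β := by
  simp only [ph]
  apply loc_sum hlk.le
  · intro j hj
    have h4 := congrFun hu j
    simp only [Pi.smul_apply, Pi.zero_apply] at h4
    refine loc_dvd_kill h4 ?_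
    have h5 : (p : ℤ) ^ (ρ * ((j : ℕ) + 1)) ∣ z ^ ((j : ℕ) + 1) := by
      rw [pow_mul]; exact pow_dvd_pow_of_dvd hz _
    refine (pow_dvd_pow _ ?_).trans h5
    refine hρ'.trans ?_
    rw [mul_comm ρ]
    exact Nat.mul_le_mul_right _ (by omega)
  · intro j j' hj
    rw [hub j j' hj, hj]

theorem loc {k l p ρ ρ' : ℕ} (hp : p.Prime) (hkp : k < p) (hl : 1 ≤ l) (hlk : l < k) (hρ : ρ ≤ ρ') (hρ' : l * ρ' ≤ (l + 1) * ρ)
    {E : ℝ≥0∞} (hD : Dec l p (ρ' - ρ) E) {x : ℤ} (hx : ¬ (p : ℤ) ∣ x) {S : Finset ℤ} {f : ℤ → V k → ℂ} (hS : Inc p ρ' S)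
    (hSx : ∀ n ∈ S, (p : ℤ) ^ ρ ∣ n - x) (hf : ∀ n ∈ S, QI p n ρ' (f n)) (α : V k) :
    ∑ τ ∈ tor l p (l * ρ'), ‖∑ n ∈ S, f n (α + ext τ)‖ₑ ^ (2 * tri l) ≤
      E * (∑ n ∈ S, (∑ τ ∈ tor l p (l * ρ'), ‖f n (α + ext τ)‖ₑ ^ (2 * tri l)) ^ (1 / (tri l : ℝ))) ^ (tri l) := by
  classical
  obtain ⟨W, hW⟩ := unit_inv hp hl hlk.le hkp hx (l * ρ')
  have htri : 1 ≤ tri l := by
    unfold tri
    have : 2 ≤ l * (l + 1) := by nlinarith
    omega
  have hmem : ∀ τ : V l, τ ∈ tor l p (l * ρ') ↔ ((p : ℤ) ^ (l * ρ')) • τ = 0 := fun τ =>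
    mem_tor hp.pos
  have hWz : ∀ σ : V l, ((p : ℤ) ^ (l * ρ')) • σ = 0 → ((p : ℤ) ^ (l * ρ')) • W σ = 0 := by
    intro σ hσ
    rw [← map_zsmul, hσ, map_zero]
  have hWinj : Set.InjOn W (tor l p (l * ρ') : Set (V l)) := by
    intro σ hσ σ' hσ' h
    have hσ1 := (hmem σ).1 hσ
    have hσ2 := (hmem σ').1 hσ'
    funext m
    have h1 := hW σ hσ1 m ⟨m, by have := m.2; omega⟩ rfl
    have h2 := hW σ' hσ2 m ⟨m, by have := m.2; omega⟩ rfl
    rw [← h1, ← h2, h]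
  have himg : (tor l p (l * ρ')).image W = tor l p (l * ρ') := by
    apply Finset.eq_of_subset_of_card_le
    · intro τ hτ
      obtain ⟨σ, hσ, rfl⟩ := Finset.mem_image.1 hτ
      exact (hmem _).2 (hWz σ ((hmem σ).1 hσ))
    · rw [Finset.card_image_of_injOn hWinj]
  have hsum : ∀ F : V l → ℝ≥0∞, ∑ τ ∈ tor l p (l * ρ'), F τ = ∑ σ ∈ tor l p (l * ρ'), F (W σ) := by
    intro F
    conv_lhs => rw [← himg]
    exact Finset.sum_image hWinj
  set Φ : ℤ → V l → ℂ := fun n σ => if ((p : ℤ) ^ (l * ρ')) • σ = 0 then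
    chi (-(ph x (ext (W σ) : V k))) * f n (α + ext (W σ)) else 0 with hΦ
  have hext : ∀ σ : V l, ((p : ℤ) ^ (l * ρ')) • σ = 0 → ((p : ℤ) ^ (l * ρ')) • (ext σ : V k) = 0 := by
    intro σ hσ
    funext j
    simp only [ext, Pi.smul_apply, Pi.zero_apply]
    split_ifs with h
    · exact congrFun hσ _
    · exact smul_zero _
  have hQI : ∀ n ∈ S, QI p (n - x) ρ' (Φ n) := by
    intro n hn σ β hβ
    have hβt := loc_tor hβ
    have hiff : ((p : ℤ) ^ (l * ρ')) • (σ + β) = 0 ↔ ((p : ℤ) ^ (l * ρ')) • σ = 0 := by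
      rw [smul_add, hβt, add_zero]
    simp only [hΦ, hiff]
    split_ifs with hσ
    · have hu : ((p : ℤ) ^ (l * ρ')) • TT x (ext (W β) : V k) = 0 := by
        rw [← TT_smul, hext _ (hWz β hβt), TT_map_zero]
      have hub := hW β hβt
      have hz := hSx n hn
      have hnx : n = x + (n - x) := by ring
      have hi : DD p ρ' (TT n (ext (W β) : V k)) = 0 := by
        rw [hnx, TT_shift]
        exact loc_i hlk hρ hρ' hz hu hub hβ
      have hii : ph n (ext (W β) : V k) = ph x (ext (W β) : V k) + ph (n - x) β := by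
        conv_lhs => rw [hnx]
        rw [ph_shift, loc_ii hlk hρ' hz hu hub]
      rw [map_add, ext_add, ← add_assoc, hf n hn _ _ hi, hii, ph_add, neg_add, chi_add, chi_add]
      have hc : chi (-(ph x (ext (W β) : V k))) * chi (ph x (ext (W β) : V k)) = 1 := by
        rw [← chi_add, neg_add_cancel, chi_zero]
      linear_combination (chi (-(ph x (ext (W σ) : V k))) * chi (ph (n - x) β)
        * f n (α + ext (W σ))) * hc
    · rw [mul_zero]
  have hshift : ∀ n : ℤ, n - x + x = n := fun n => by ring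
  have hinj : Set.InjOn (fun n : ℤ => n - x) (S : Set ℤ) := fun n _ n' _ h => by
    have : n - x = n' - x := h
    linarith
  have key := rescale (k := l) (a := ρ) (B := ρ') hl hp hρ hD 0 (S := S.image fun n => n - x)
    (f := fun z => Φ (z + x)) (by
      intro m hm n hn hdvd
      obtain ⟨m', hm', rfl⟩ := Finset.mem_image.1 hm
      obtain ⟨n', hn', rfl⟩ := Finset.mem_image.1 hn
      rw [hS m' hm' n' hn' (by simpa using hdvd)]) (by
      intro z hz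
      obtain ⟨n, hn, rfl⟩ := Finset.mem_image.1 hz
      simpa using hSx n hn) (by
      intro z hz
      obtain ⟨n, hn, rfl⟩ := Finset.mem_image.1 hz
      simp only [hshift]
      exact hQI n hn)
  rw [Finset.sum_image hinj] at key
  simp only [Finset.sum_image hinj, hshift] at key
  have h2t : 2 * tri l ≠ 0 := by omega
  have hnorm : ∀ (T : Finset ℤ), ∑' σ : V l, ‖∑ n ∈ T, Φ n σ‖ₑ ^ (2 * tri l)
      = ∑ τ ∈ tor l p (l * ρ'), ‖∑ n ∈ T, f n (α + ext τ)‖ₑ ^ (2 * tri l) := by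
    intro T
    rw [hsum, tsum_eq_sum (s := tor l p (l * ρ'))]
    · refine Finset.sum_congr rfl fun σ hσ => ?_
      have hσ' := (hmem σ).1 hσ
      simp only [hΦ, if_pos hσ']
      rw [← Finset.mul_sum, enorm_mul, enorm_chi, one_mul]
    · intro σ hσ
      have hσ' : ¬ ((p : ℤ) ^ (l * ρ')) • σ = 0 := fun h => hσ ((hmem σ).2 h)
      simp only [hΦ, if_neg hσ']
      simp [h2t]
  have hone : ∀ n : ℤ, sq (tri l) (Φ n)
      = (∑ τ ∈ tor l p (l * ρ'), ‖f n (α + ext τ)‖ₑ ^ (2 * tri l)) ^ (1 / (tri l : ℝ)) := by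
    intro n
    have := hnorm {n}
    simp only [Finset.sum_singleton] at this
    rw [sq, this]
  rw [hnorm] at key
  simp only [hone] at key
  exact key

end Pool.Agent.Lib.VM
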