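import Pool.Agent.Lib.VM.Gain
import Pool.Agent.Lib.VM.Triv

/-!
# VM / Main: decoupling for the moment curve

PROOF. Strong induction on `k`. `k = 1`: `dec_one` (`C = 1`, `p^(εB) ≥ 1`). `k ≥ 2`, `ε > 0`; `ε' = ε/(2 tri k)`. Choose `N` with `k (3k+4) ≤ ε' N`, `ε1 = tri k/(N k^(N+1))`; `p0` = maximum of the `p0`s of all
`l < k` for `ε1`, of `k + 1`, and of a number with `p0^(ε') ≥ 4`. For `p ≥ p0` prime: `C1` = the maximum (or sum) of the constants for `1 ≤ l < k`. Start: `dec_triv`: `Dec k p B (p^(B tri k)) = p^(2 tri k (1/2) B)`, `η = 1/2`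
(if `ε' > 1/2`, take `Dec_mono`). By `gain` and induction on `j`: the statement holds with `η_j = max (1/2 - j δ) ε'` (if `1/2 ≥ ε'`), `δ = 1/(2 k^(N+1))`; for `j` large `η_j = ε'`.
-/

set_option autoImplicit false

open Finset
open scoped ENNReal

namespace Pool.Agent.Lib.VM

theorem dec_main (k : ℕ) (hk : 1 ≤ k) : ∀ ε : ℝ, 0 < ε → ∃ p0 : ℕ, ∀ p : ℕ, p.Prime → p0 ≤ p →
    ∃ C : ℝ≥0∞, C ≠ ⊤ ∧ ∀ B : ℕ, Dec k p B (C * (p : ℝ≥0∞) ^ (ε * B)) := by
  induction k using Nat.strong_induction_on with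
  | _ k ih =>
  intro ε hε
  rcases Nat.lt_or_ge k 2 with h1 | h2
  · obtain rfl : k = 1 := by omega
    refine ⟨0, fun p hp _ => ⟨1, by simp, fun B => Dec_mono ?_ (dec_one hp B)⟩⟩
    rw [one_mul]
    have h : (p : ℝ≥0∞) ^ (0 : ℝ) ≤ (p : ℝ≥0∞) ^ (ε * B) :=
      ENNReal.rpow_le_rpow_of_exponent_le (by exact_mod_cast hp.one_le) (by positivity)
    rwa [ENNReal.rpow_zero] at h
  · -- constants
    have hT1 : 1 ≤ tri k := by
      have := tri_two k
      nlinarith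
    have hTR : (1 : ℝ) ≤ (tri k : ℝ) := by exact_mod_cast hT1
    have hTpos : (0 : ℝ) < (tri k : ℝ) := by linarith
    have hkR : (2 : ℝ) ≤ (k : ℝ) := by exact_mod_cast h2
    set ε' : ℝ := ε / (2 * (tri k : ℝ)) with hε'
    have hε'pos : 0 < ε' := by rw [hε']; positivity
    obtain ⟨N, hN⟩ := exists_nat_ge ((k : ℝ) * (3 * k + 4) / ε')
    have hN' : (k : ℝ) * (3 * k + 4) ≤ ε' * N := by
      rw [div_le_iff₀ hε'pos] at hN
      linarith
    have hNpos : (0 : ℝ) < (N : ℝ) := by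
      have : (0 : ℝ) < ε' * N := lt_of_lt_of_le (by positivity) hN'
      exact (mul_pos_iff_of_pos_left hε'pos).mp this
    have hε1 : (0 : ℝ) < (tri k : ℝ) / (N * (k : ℝ) ^ (N + 1)) := by positivity
    have hex : ∀ l : ℕ, ∃ p0 : ℕ, 1 ≤ l → l < k → ∀ p : ℕ, p.Prime → p0 ≤ p →
        ∃ C : ℝ≥0∞, C ≠ ⊤ ∧ ∀ B : ℕ, Dec l p B (C * (p : ℝ≥0∞) ^ ((tri k : ℝ) / (N * (k : ℝ) ^ (N + 1)) * B)) := by
      intro l
      by_cases hl : 1 ≤ l ∧ l < k
      · obtain ⟨p0, hp0⟩ := ih l hl.2 hl.1 _ hε1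
        exact ⟨p0, fun _ _ => hp0⟩
      · exact ⟨0, fun a b => absurd ⟨a, b⟩ hl⟩
    choose q hq using hex
    obtain ⟨M, hM⟩ := exists_nat_ge ((4 : ℝ) ^ (1 / ε'))
    refine ⟨(Finset.range k).sup q + (k + 1) + M, fun p hp hpp => ?_⟩
    have hkp : k < p := by omega
    have hMp : (4 : ℝ) ≤ (p : ℝ) ^ ε' := by
      have h1 : (4 : ℝ) ^ (1 / ε') ≤ (p : ℝ) := hM.trans (by exact_mod_cast (by omega : M ≤ p))
      calc (4 : ℝ) = ((4 : ℝ) ^ (1 / ε')) ^ ε' := by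
            rw [← Real.rpow_mul (by norm_num), one_div, inv_mul_cancel₀ hε'pos.ne', Real.rpow_one]
        _ ≤ (p : ℝ) ^ ε' := Real.rpow_le_rpow (by positivity) h1 hε'pos.le
    have hex2 : ∀ l : ℕ, ∃ C : ℝ≥0∞, C ≠ ⊤ ∧ (1 ≤ l → l < k →
        ∀ B : ℕ, Dec l p B (C * (p : ℝ≥0∞) ^ ((tri k : ℝ) / (N * (k : ℝ) ^ (N + 1)) * B))) := by
      intro l
      by_cases hl : 1 ≤ l ∧ l < k
      · have hle : q l ≤ p := (Finset.le_sup (f := q) (Finset.mem_range.mpr hl.2)).trans (by omega)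
        obtain ⟨C, hC, hD⟩ := hq l hl.1 hl.2 p hp hle
        exact ⟨C, hC, fun _ _ => hD⟩
      · exact ⟨0, by simp, fun a b => absurd ⟨a, b⟩ hl⟩
    choose c hc hcD using hex2
    have hL : ∃ C1 : ℝ≥0∞, C1 ≠ ⊤ ∧ ∀ l : ℕ, 1 ≤ l → l < k → ∀ t : ℕ,
        Dec l p t (C1 * (p : ℝ≥0∞) ^ ((tri k : ℝ) / (N * (k : ℝ) ^ (N + 1)) * t)) := by
      refine ⟨∑ l ∈ Finset.range k, c l, ?_, ?_⟩
      · exact ENNReal.sum_ne_top.mpr fun l _ => hc l
      · intro l hl1 hlk t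
        refine Dec_mono ?_ (hcD l hl1 hlk t)
        gcongr
        exact Finset.single_le_sum (f := c) (fun _ _ => zero_le) (Finset.mem_range.mpr hlk)
    have hp1 : (1 : ℝ≥0∞) ≤ (p : ℝ≥0∞) := by exact_mod_cast hp.one_le
    set δ : ℝ := 1 / (2 * (k : ℝ) ^ (N + 1)) with hδ
    have hδpos : 0 < δ := by rw [hδ]; positivity
    have key : ∀ j : ℕ, ∃ η : ℝ, ε' ≤ η ∧ η ≤ max (1 / 2 - j * δ) ε' ∧
        ∃ C : ℝ≥0∞, C ≠ ⊤ ∧ ∀ B : ℕ, Dec k p B (C * (p : ℝ≥0∞) ^ (2 * (tri k : ℝ) * η * B)) := by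
      intro j
      induction j with
      | zero =>
        refine ⟨max (1 / 2) ε', le_max_right _ _, by simp, 1, by simp, fun B => ?_⟩
        refine Dec_mono ?_ (dec_triv (by omega) hp.pos B)
        rw [one_mul, ← ENNReal.rpow_natCast]
        refine ENNReal.rpow_le_rpow_of_exponent_le hp1 ?_
        push_cast
        have h1 : (1 / 2 : ℝ) ≤ max (1 / 2) ε' := le_max_left _ _
        have h2 : (0 : ℝ) ≤ (tri k : ℝ) * B := by positivity
        nlinarith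
      | succ j ihj =>
        obtain ⟨η, h1, h2', h3⟩ := ihj
        refine ⟨max (η - δ) ε', le_max_right _ _, ?_, ?_⟩
        · refine max_le ?_ (le_max_right _ _)
          rcases le_max_iff.mp h2' with h | h
          · refine le_trans ?_ (le_max_left _ _)
            push_cast
            linarith
          · refine le_trans ?_ (le_max_right _ _)
            linarith
        · exact gain h2 hp hkp hε'pos hMp h1 hN' h3 hL
    obtain ⟨j, hj⟩ := exists_nat_ge ((1 / 2) / δ)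
    obtain ⟨η, h1, h2', C, hC, hD⟩ := key j
    have hη : η = ε' := by
      refine le_antisymm (h2'.trans (max_le ?_ le_rfl)) h1
      rw [div_le_iff₀ hδpos] at hj
      linarith
    refine ⟨C, hC, fun B => ?_⟩
    have := hD B
    rw [hη] at this
    have he : 2 * (tri k : ℝ) * ε' * B = ε * B := by
      rw [hε']; field_simp
    rwa [he] at this

end Pool.Agent.Lib.VM
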