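import Pool.Agent.Lib.VM.Wst
import Pool.Agent.Lib.VM.QIb

/-!
# VM / Wit: the iteration of the weighted step

PROOF. Induction on `n`, for all `a ≤ a'`. If `l a' ≤ (l+1) a` (in particular if `a' = a`): one step `wst` with `ρ = a`, `ρ' = a'`. For `n = 0`: `a' ≤ a`, so `a' = a`
(one step costs `C ε^0`: for `a' = a` the set `S` has at most one element, the inequality holds with constant `1`). Step `n + 1`: let `ρ = a + a / l` (natural division); if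
`a' ≤ ρ` one step suffices. Otherwise `l ρ ≤ (l+1) a`, and `(2l+1) a ≤ 2 l ρ` (as `a ≥ l` gives `a / l ≥ a/(2l)`: `2 l (a/l) ≥ a`), so
`a' (2l)^n ≤ ρ (2l+1)^n`. Group `S` by the residues modulo `p^ρ`: `S2 = ` set of the residues `n % p^ρ`, `F_r = ∑_{n ∈ S, n % p^ρ = r} f_n`,
`QI p r ρ F_r` (`QI_mono`, `QI_sum`). `wst` (levels `a → ρ`) for the family `F_r`, then the induction hypothesis (levels `ρ → a'`) for each `r`;
`(X^(1/t))`: `(C^n p^(ε(a'-ρ)) (∑_n y_n^(1/t))^t)^(1/t) = (C^n p^(ε(a'-ρ)))^(1/t) ∑_n y_n^(1/t)`; sum over `r`, power `t`; constants multiply: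
`C p^(ε(ρ-a)) C^n p^(ε(a'-ρ))`. (`w` is invariant under the torsion of exponent `p^(l a')`, so of exponent `p^(l ρ)`.)
-/

set_option autoImplicit false

open Finset
open scoped ENNReal

namespace Pool.Agent.Lib.VM

private theorem wit_one {k l p : ℕ} (hp : p.Prime) (hkp : k < p) (hl : 1 ≤ l) (hlk : l < k) {C : ℝ≥0∞} (hC : 1 ≤ C) {ε : ℝ}
    (hD : ∀ t : ℕ, Dec l p t (C * (p : ℝ≥0∞) ^ (ε * t))) (n : ℕ) {x : ℤ} (hx : ¬ (p : ℤ) ∣ x)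
    {a a' : ℕ} (haa : a ≤ a') (h1 : l * a' ≤ (l + 1) * a) {S : Finset ℤ} {f : ℤ → V k → ℂ} (hS : Inc p a' S)
    (hSx : ∀ m ∈ S, (p : ℤ) ^ a ∣ m - x) (hf : ∀ m ∈ S, QI p m a' (f m)) (w : V k → ℝ≥0∞)
    (hw : ∀ (α : V k) (τ : V l), ((p : ℤ) ^ (l * a')) • τ = 0 → w (α + ext τ) = w α) :
    ∑' α : V k, w α * ‖∑ m ∈ S, f m α‖ₑ ^ (2 * tri l) ≤
      C ^ (n + 1) * (p : ℝ≥0∞) ^ (ε * ((a' : ℝ) - a)) *
        (∑ m ∈ S, (∑' α : V k, w α * ‖f m α‖ₑ ^ (2 * tri l)) ^ (1 / (tri l : ℝ))) ^ (tri l) := by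
  refine (wst hp hkp hl hlk haa h1 (hD (a' - a)) hx hS hSx hf w hw).trans ?_
  rw [Nat.cast_sub haa]
  gcongr
  calc C = C ^ 1 := (pow_one C).symm
    _ ≤ C ^ (n + 1) := pow_le_pow_right₀ hC (by omega)

private theorem wit_aux {k l p : ℕ} (hp : p.Prime) (hkp : k < p) (hl : 1 ≤ l) (hlk : l < k) {C : ℝ≥0∞} (hC : 1 ≤ C) {ε : ℝ}
    (hD : ∀ t : ℕ, Dec l p t (C * (p : ℝ≥0∞) ^ (ε * t))) (n : ℕ) :
    ∀ {x : ℤ}, ¬ (p : ℤ) ∣ x →
    ∀ {a a' : ℕ}, l ≤ a → a ≤ a' → a' * (2 * l) ^ n ≤ a * (2 * l + 1) ^ n → ∀ {S : Finset ℤ} {f : ℤ → V k → ℂ}, Inc p a' S →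
    (∀ m ∈ S, (p : ℤ) ^ a ∣ m - x) → (∀ m ∈ S, QI p m a' (f m)) → ∀ w : V k → ℝ≥0∞,
    (∀ (α : V k) (τ : V l), ((p : ℤ) ^ (l * a')) • τ = 0 → w (α + ext τ) = w α) →
    ∑' α : V k, w α * ‖∑ m ∈ S, f m α‖ₑ ^ (2 * tri l) ≤
      C ^ (n + 1) * (p : ℝ≥0∞) ^ (ε * ((a' : ℝ) - a)) *
        (∑ m ∈ S, (∑' α : V k, w α * ‖f m α‖ₑ ^ (2 * tri l)) ^ (1 / (tri l : ℝ))) ^ (tri l) := by
  induction n with
  | zero =>
    intro x hx a a' hla haa h S f hS hSx hf w hw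
    have h1 : a' ≤ a := by simpa using h
    have h2 : l * a' ≤ (l + 1) * a := by
      calc l * a' ≤ l * a := Nat.mul_le_mul_left _ h1
        _ ≤ (l + 1) * a := Nat.mul_le_mul_right _ (by omega)
    exact wit_one hp hkp hl hlk hC hD 0 hx haa h2 hS hSx hf w hw
  | succ n ih =>
    intro x hx a a' hla haa h S f hS hSx hf w hw
    by_cases h2 : l * a' ≤ (l + 1) * a
    · exact wit_one hp hkp hl hlk hC hD (n + 1) hx haa h2 hS hSx hf w hw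
    push Not at h2
    classical
    have hl0 : 0 < l := hl
    have hdm : l * (a / l) + a % l = a := Nat.div_add_mod a l
    have hml : a % l < l := Nat.mod_lt _ hl0
    have hal : 1 ≤ a / l := (Nat.one_le_div_iff hl0).2 hla
    have hl1 : l * 1 ≤ l * (a / l) := Nat.mul_le_mul_left _ hal
    obtain ⟨ρ, hρd⟩ : ∃ ρ, ρ = a + a / l := ⟨_, rfl⟩
    have hlρ : l * ρ = l * a + l * (a / l) := by rw [hρd, mul_add]
    have hρ1 : l * ρ ≤ (l + 1) * a := by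
      rw [hlρ, add_mul, one_mul]
      omega
    have haρ : a ≤ ρ := by omega
    have hρa' : ρ ≤ a' := by
      by_contra hcon
      push Not at hcon
      have : l * a' ≤ l * ρ := Nat.mul_le_mul_left _ hcon.le
      omega
    have hρ2 : (2 * l + 1) * a ≤ 2 * l * ρ := by
      have e1 : 2 * l * ρ = 2 * (l * a) + 2 * (l * (a / l)) := by
        rw [mul_assoc, hlρ]; ring
      have e2 : (2 * l + 1) * a = 2 * (l * a) + a := by ring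
      omega
    have hρ3 : a' * (2 * l) ^ n ≤ ρ * (2 * l + 1) ^ n := by
      have h3 : (a' * (2 * l) ^ n) * (2 * l) ≤ (ρ * (2 * l + 1) ^ n) * (2 * l) := by
        calc (a' * (2 * l) ^ n) * (2 * l) = a' * (2 * l) ^ (n + 1) := by ring
          _ ≤ a * (2 * l + 1) ^ (n + 1) := h
          _ = ((2 * l + 1) * a) * (2 * l + 1) ^ n := by ring
          _ ≤ (2 * l * ρ) * (2 * l + 1) ^ n := Nat.mul_le_mul_right _ hρ2
          _ = (ρ * (2 * l + 1) ^ n) * (2 * l) := by ring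
      exact Nat.le_of_mul_le_mul_right h3 (by omega)
    -- grouping
    have hmr : ∀ m : ℤ, (p : ℤ) ^ ρ ∣ m - m % (p : ℤ) ^ ρ := fun m => ⟨m / (p : ℤ) ^ ρ, by
      have := Int.emod_add_mul_ediv m ((p : ℤ) ^ ρ)
      linarith⟩
    have hpa : (p : ℤ) ^ a ∣ (p : ℤ) ^ ρ := pow_dvd_pow _ haρ
    have hp1 : (p : ℤ) ∣ (p : ℤ) ^ a := dvd_pow_self _ (by omega)
    set F : ℤ → V k → ℂ := fun r α => ∑ m ∈ S.filter (fun m => m % (p : ℤ) ^ ρ = r), f m α with hF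
    have hS2 : Inc p ρ (S.image fun m => m % (p : ℤ) ^ ρ) := by
      intro r hr r' hr' hrr
      obtain ⟨m, hm, rfl⟩ := Finset.mem_image.1 hr
      obtain ⟨m', hm', rfl⟩ := Finset.mem_image.1 hr'
      have h4 : (m % (p : ℤ) ^ ρ) % (p : ℤ) ^ ρ = (m' % (p : ℤ) ^ ρ) % (p : ℤ) ^ ρ :=
        Int.emod_eq_emod_iff_emod_sub_eq_zero.2 (Int.emod_eq_zero_of_dvd hrr)
      rwa [Int.emod_emod_of_dvd _ (dvd_refl _), Int.emod_emod_of_dvd _ (dvd_refl _)] at h4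
    have hS2x : ∀ r ∈ S.image (fun m => m % (p : ℤ) ^ ρ), (p : ℤ) ^ a ∣ r - x := by
      intro r hr
      obtain ⟨m, hm, rfl⟩ := Finset.mem_image.1 hr
      have h3 := hSx m hm
      have h4 : (p : ℤ) ^ a ∣ m - m % (p : ℤ) ^ ρ := hpa.trans (hmr m)
      have e : m % (p : ℤ) ^ ρ - x = (m - x) - (m - m % (p : ℤ) ^ ρ) := by ring
      rw [e]
      exact dvd_sub h3 h4
    have hFQ : ∀ r ∈ S.image (fun m => m % (p : ℤ) ^ ρ), QI p r ρ (F r) := by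
      intro r _
      refine QI_sum _ fun m hm => ?_
      obtain ⟨hm1, hm2⟩ := Finset.mem_filter.1 hm
      exact QI_mono hρa' (hm2 ▸ hmr m) (hf m hm1)
    have hw' : ∀ (α : V k) (τ : V l), ((p : ℤ) ^ (l * ρ)) • τ = 0 → w (α + ext τ) = w α := by
      intro α τ hτ
      refine hw α τ ?_
      obtain ⟨e, he⟩ : (p : ℤ) ^ (l * ρ) ∣ (p : ℤ) ^ (l * a') := pow_dvd_pow _ (Nat.mul_le_mul_left _ hρa')
      rw [he, mul_comm, mul_smul, hτ, smul_zero]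
    have hstep := wst hp hkp hl hlk haρ hρ1 (hD (ρ - a)) hx hS2 hS2x hFQ w hw'
    have hsum : ∀ α : V k, ∑ r ∈ S.image (fun m => m % (p : ℤ) ^ ρ), F r α = ∑ m ∈ S, f m α := fun α =>
      Finset.sum_fiberwise_of_maps_to (fun m hm => Finset.mem_image_of_mem _ hm) fun m => f m α
    simp only [hsum] at hstep
    refine hstep.trans ?_
    have ht : 1 ≤ tri l := by
      unfold tri
      have : 2 ≤ l * (l + 1) := by nlinarith
      omega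
    have ht0 : (tri l : ℝ) ≠ 0 := by
      have : (0 : ℝ) < tri l := by exact_mod_cast ht
      exact this.ne'
    obtain ⟨K, hK⟩ : ∃ K : ℝ≥0∞, K = C ^ (n + 1) * (p : ℝ≥0∞) ^ (ε * ((a' : ℝ) - ρ)) := ⟨_, rfl⟩
    have hroot : ∀ Z : ℝ≥0∞, (Z ^ (tri l)) ^ (1 / (tri l : ℝ)) = Z := by
      intro Z
      rw [← ENNReal.rpow_natCast, ← ENNReal.rpow_mul, mul_one_div_cancel ht0, ENNReal.rpow_one]
    have hroot2 : (K ^ (1 / (tri l : ℝ))) ^ (tri l) = K := by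
      rw [← ENNReal.rpow_natCast, ← ENNReal.rpow_mul, one_div_mul_cancel ht0, ENNReal.rpow_one]
    have hr1 : ∀ r ∈ S.image (fun m => m % (p : ℤ) ^ ρ),
        (∑' α : V k, w α * ‖F r α‖ₑ ^ (2 * tri l)) ^ (1 / (tri l : ℝ)) ≤
          K ^ (1 / (tri l : ℝ)) * ∑ m ∈ S.filter (fun m => m % (p : ℤ) ^ ρ = r),
            (∑' α : V k, w α * ‖f m α‖ₑ ^ (2 * tri l)) ^ (1 / (tri l : ℝ)) := by
      intro r hr
      have hrx : ¬ (p : ℤ) ∣ r := by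
        intro hcon
        have h3 : (p : ℤ) ∣ r - x := hp1.trans (hS2x r hr)
        have h4 : (p : ℤ) ∣ x := by
          have := dvd_sub hcon h3
          simpa using this
        exact hx h4
      have h5 := ih hrx (hla.trans haρ) hρa' hρ3 (S := S.filter (fun m => m % (p : ℤ) ^ ρ = r)) (f := f)
        (fun m hm m' hm' => hS m (Finset.mem_filter.1 hm).1 m' (Finset.mem_filter.1 hm').1)
        (fun m hm => (Finset.mem_filter.1 hm).2 ▸ hmr m)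
        (fun m hm => hf m (Finset.mem_filter.1 hm).1) w hw
      rw [← hK] at h5
      calc (∑' α : V k, w α * ‖F r α‖ₑ ^ (2 * tri l)) ^ (1 / (tri l : ℝ))
          ≤ (K * (∑ m ∈ S.filter (fun m => m % (p : ℤ) ^ ρ = r),
            (∑' α : V k, w α * ‖f m α‖ₑ ^ (2 * tri l)) ^ (1 / (tri l : ℝ))) ^ (tri l)) ^ (1 / (tri l : ℝ)) :=
            ENNReal.rpow_le_rpow h5 (by positivity)
        _ = _ := by
            rw [ENNReal.mul_rpow_of_nonneg _ _ (by positivity), hroot]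
    have hr2 : ∑ r ∈ S.image (fun m => m % (p : ℤ) ^ ρ), (∑' α : V k, w α * ‖F r α‖ₑ ^ (2 * tri l)) ^ (1 / (tri l : ℝ)) ≤
        K ^ (1 / (tri l : ℝ)) * ∑ m ∈ S, (∑' α : V k, w α * ‖f m α‖ₑ ^ (2 * tri l)) ^ (1 / (tri l : ℝ)) := by
      refine (Finset.sum_le_sum hr1).trans ?_
      rw [← Finset.mul_sum]
      rw [Finset.sum_fiberwise_of_maps_to (fun m hm => Finset.mem_image_of_mem _ hm)
        fun m => (∑' α : V k, w α * ‖f m α‖ₑ ^ (2 * tri l)) ^ (1 / (tri l : ℝ))]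
    have hp0 : (p : ℝ≥0∞) ≠ 0 := by exact_mod_cast hp.ne_zero
    have hpt : (p : ℝ≥0∞) ≠ ⊤ := ENNReal.natCast_ne_top p
    calc C * (p : ℝ≥0∞) ^ (ε * ((ρ - a : ℕ) : ℝ)) *
          (∑ r ∈ S.image (fun m => m % (p : ℤ) ^ ρ), (∑' α : V k, w α * ‖F r α‖ₑ ^ (2 * tri l)) ^ (1 / (tri l : ℝ))) ^ (tri l)
        ≤ C * (p : ℝ≥0∞) ^ (ε * ((ρ - a : ℕ) : ℝ)) *
          (K ^ (1 / (tri l : ℝ)) * ∑ m ∈ S, (∑' α : V k, w α * ‖f m α‖ₑ ^ (2 * tri l)) ^ (1 / (tri l : ℝ))) ^ (tri l) := by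
          gcongr
      _ = C * (p : ℝ≥0∞) ^ (ε * ((ρ - a : ℕ) : ℝ)) * (K *
          (∑ m ∈ S, (∑' α : V k, w α * ‖f m α‖ₑ ^ (2 * tri l)) ^ (1 / (tri l : ℝ))) ^ (tri l)) := by
          rw [mul_pow, hroot2]
      _ = C ^ (n + 1 + 1) * (p : ℝ≥0∞) ^ (ε * ((a' : ℝ) - a)) *
          (∑ m ∈ S, (∑' α : V k, w α * ‖f m α‖ₑ ^ (2 * tri l)) ^ (1 / (tri l : ℝ))) ^ (tri l) := by
          have e1 : ε * ((a' : ℝ) - a) = ε * ((ρ - a : ℕ) : ℝ) + ε * ((a' : ℝ) - ρ) := by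
            rw [Nat.cast_sub haρ]; ring
          rw [hK, e1, ENNReal.rpow_add _ _ hp0 hpt, pow_succ C (n + 1)]
          ring

theorem wit {k l p : ℕ} (hp : p.Prime) (hkp : k < p) (hl : 1 ≤ l) (hlk : l < k) {C : ℝ≥0∞} (hC : 1 ≤ C) {ε : ℝ} (hε : 0 ≤ ε)
    (hD : ∀ t : ℕ, Dec l p t (C * (p : ℝ≥0∞) ^ (ε * t))) {x : ℤ} (hx : ¬ (p : ℤ) ∣ x) (n : ℕ) :
    ∀ {a a' : ℕ}, l ≤ a → a ≤ a' → a' * (2 * l) ^ n ≤ a * (2 * l + 1) ^ n → ∀ {S : Finset ℤ} {f : ℤ → V k → ℂ}, Inc p a' S →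
    (∀ m ∈ S, (p : ℤ) ^ a ∣ m - x) → (∀ m ∈ S, QI p m a' (f m)) → ∀ w : V k → ℝ≥0∞,
    (∀ (α : V k) (τ : V l), ((p : ℤ) ^ (l * a')) • τ = 0 → w (α + ext τ) = w α) →
    ∑' α : V k, w α * ‖∑ m ∈ S, f m α‖ₑ ^ (2 * tri l) ≤
      C ^ (n + 1) * (p : ℝ≥0∞) ^ (ε * ((a' : ℝ) - a)) *
        (∑ m ∈ S, (∑' α : V k, w α * ‖f m α‖ₑ ^ (2 * tri l)) ^ (1 / (tri l : ℝ))) ^ (tri l) := by
  have _ := hε
  intro a a' hla haa h S f hS hSx hf w hw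
  exact wit_aux hp hkp hl hlk hC hD n hx hla haa h hS hSx hf w hw

end Pool.Agent.Lib.VM
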