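import Pool.Agent.Lib.VM.Loc
import Pool.Agent.Lib.VM.Mink

/-!
# VM / Wst: the weighted global form of one step

PROOF. Multiply `loc` by `w α` and sum over `α`. Left: `∑'_α w α ∑_τ ‖F(α + ext τ)‖^(2t) = ∑_τ ∑'_α w (α + ext τ) ‖F(α + ext τ)‖^(2t) = |tor| ∑' w ‖F‖^(2t)`
(translation invariance of `∑'`, `Equiv.addRight`). Right: `mink` with `u_n α = ∑_τ ‖f_n (α + ext τ)‖^(2t)`, and `∑'_α w α u_n α = |tor| ∑' w ‖f_n‖^(2t)`.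
The factor `|tor|` (finite, `≥ 1`: `0` is in `tor`) cancels.
-/

set_option autoImplicit false

open Finset
open scoped ENNReal

namespace Pool.Agent.Lib.VM

/-- averaging over the torsion group -/
private theorem wst_avg {k l : ℕ} (T : Finset (V l)) (w G : V k → ℝ≥0∞) (hw : ∀ (α : V k), ∀ τ ∈ T, w (α + ext τ) = w α) :
    ∑' α : V k, w α * ∑ τ ∈ T, G (α + ext τ) = (T.card : ℝ≥0∞) * ∑' α : V k, w α * G α := by
  have h1 : ∀ τ ∈ T, ∑' α : V k, w α * G (α + ext τ) = ∑' α : V k, w α * G α := by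
    intro τ hτ
    have h2 : ∑' α : V k, w α * G (α + ext τ) = ∑' α : V k, w (α + ext τ) * G (α + ext τ) :=
      tsum_congr fun α => by rw [hw α τ hτ]
    rw [h2]
    exact (Equiv.addRight (ext τ : V k)).tsum_eq (fun α : V k => w α * G α)
  calc ∑' α : V k, w α * ∑ τ ∈ T, G (α + ext τ) = ∑' α : V k, ∑ τ ∈ T, w α * G (α + ext τ) :=
        tsum_congr fun α => by rw [mul_sum]
    _ = ∑ τ ∈ T, ∑' α : V k, w α * G (α + ext τ) := Summable.tsum_finsetSum fun _ _ => ENNReal.summable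
    _ = ∑ _τ ∈ T, ∑' α : V k, w α * G α := sum_congr rfl h1
    _ = (T.card : ℝ≥0∞) * ∑' α : V k, w α * G α := by rw [sum_const, nsmul_eq_mul]

private theorem wst_root {t : ℕ} (ht : 1 ≤ t) (x : ℝ≥0∞) : (x ^ (1 / (t : ℝ))) ^ t = x := by
  have ht0 : (t : ℝ) ≠ 0 := by
    have : t ≠ 0 := by omega
    exact_mod_cast this
  rw [← ENNReal.rpow_natCast, ← ENNReal.rpow_mul, one_div, inv_mul_cancel₀ ht0, ENNReal.rpow_one]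

theorem wst {k l p ρ ρ' : ℕ} (hp : p.Prime) (hkp : k < p) (hl : 1 ≤ l) (hlk : l < k) (hρ : ρ ≤ ρ') (hρ' : l * ρ' ≤ (l + 1) * ρ)
    {E : ℝ≥0∞} (hD : Dec l p (ρ' - ρ) E) {x : ℤ} (hx : ¬ (p : ℤ) ∣ x) {S : Finset ℤ} {f : ℤ → V k → ℂ} (hS : Inc p ρ' S)
    (hSx : ∀ n ∈ S, (p : ℤ) ^ ρ ∣ n - x) (hf : ∀ n ∈ S, QI p n ρ' (f n)) (w : V k → ℝ≥0∞)
    (hw : ∀ (α : V k) (τ : V l), ((p : ℤ) ^ (l * ρ')) • τ = 0 → w (α + ext τ) = w α) :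
    ∑' α : V k, w α * ‖∑ n ∈ S, f n α‖ₑ ^ (2 * tri l) ≤
      E * (∑ n ∈ S, (∑' α : V k, w α * ‖f n α‖ₑ ^ (2 * tri l)) ^ (1 / (tri l : ℝ))) ^ (tri l) := by
  have ht : 1 ≤ tri l := by
    unfold tri
    have h1 : 1 * 2 ≤ l * (l + 1) := Nat.mul_le_mul hl (by omega)
    omega
  obtain ⟨T, hT⟩ : ∃ T : Finset (V l), T = tor l p (l * ρ') := ⟨_, rfl⟩
  have hwT : ∀ (α : V k), ∀ τ ∈ T, w (α + ext τ) = w α := by
    intro α τ hτ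
    rw [hT, mem_tor hp.pos] at hτ
    exact hw α τ hτ
  have h0 : (0 : V l) ∈ T := by
    rw [hT, mem_tor hp.pos, smul_zero]
  have hc0 : (T.card : ℝ≥0∞) ≠ 0 := by
    rw [Nat.cast_ne_zero]
    exact card_ne_zero_of_mem h0
  have hct : (T.card : ℝ≥0∞) ≠ ⊤ := ENNReal.natCast_ne_top _
  have h2 : ∀ α : V k, w α * ∑ τ ∈ T, ‖∑ n ∈ S, f n (α + ext τ)‖ₑ ^ (2 * tri l) ≤
      E * (w α * (∑ n ∈ S, (∑ τ ∈ T, ‖f n (α + ext τ)‖ₑ ^ (2 * tri l)) ^ (1 / (tri l : ℝ))) ^ (tri l)) := by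
    intro α
    have h3 := loc hp hkp hl hlk hρ hρ' hD hx hS hSx hf α
    rw [← hT] at h3
    rw [mul_left_comm E (w α)]
    exact mul_le_mul_right h3 _
  have h4 := ENNReal.tsum_le_tsum h2
  rw [ENNReal.tsum_mul_left] at h4
  have h5 := mink S ht w (fun (n : ℤ) (α : V k) => ∑ τ ∈ T, ‖f n (α + ext τ)‖ₑ ^ (2 * tri l))
  have h6 := wst_avg T w (fun α : V k => ‖∑ n ∈ S, f n α‖ₑ ^ (2 * tri l)) hwT
  have h7 : ∀ n : ℤ, ∑' α : V k, w α * ∑ τ ∈ T, ‖f n (α + ext τ)‖ₑ ^ (2 * tri l) =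
      (T.card : ℝ≥0∞) * ∑' α : V k, w α * ‖f n α‖ₑ ^ (2 * tri l) := fun n =>
    wst_avg T w (fun α : V k => ‖f n α‖ₑ ^ (2 * tri l)) hwT
  have h8 : (∑ n ∈ S, (∑' α : V k, w α * ∑ τ ∈ T, ‖f n (α + ext τ)‖ₑ ^ (2 * tri l)) ^ (1 / (tri l : ℝ))) ^ (tri l) =
      (T.card : ℝ≥0∞) * (∑ n ∈ S, (∑' α : V k, w α * ‖f n α‖ₑ ^ (2 * tri l)) ^ (1 / (tri l : ℝ))) ^ (tri l) := by
    have h9 : ∑ n ∈ S, (∑' α : V k, w α * ∑ τ ∈ T, ‖f n (α + ext τ)‖ₑ ^ (2 * tri l)) ^ (1 / (tri l : ℝ)) =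
        (T.card : ℝ≥0∞) ^ (1 / (tri l : ℝ)) * ∑ n ∈ S, (∑' α : V k, w α * ‖f n α‖ₑ ^ (2 * tri l)) ^ (1 / (tri l : ℝ)) := by
      rw [mul_sum]
      refine sum_congr rfl fun n _ => ?_
      rw [h7 n, ENNReal.mul_rpow_of_nonneg _ _ (by positivity)]
    rw [h9, mul_pow, wst_root ht]
  have h10 : (T.card : ℝ≥0∞) * ∑' α : V k, w α * ‖∑ n ∈ S, f n α‖ₑ ^ (2 * tri l) ≤
      (T.card : ℝ≥0∞) * (E * (∑ n ∈ S, (∑' α : V k, w α * ‖f n α‖ₑ ^ (2 * tri l)) ^ (1 / (tri l : ℝ))) ^ (tri l)) := by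
    rw [← h6, mul_left_comm, ← h8]
    exact h4.trans (mul_le_mul_right h5 _)
  exact (ENNReal.mul_le_mul_iff_right hc0 hct).mp h10

end Pool.Agent.Lib.VM
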